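import Mathlib

set_option autoImplicit false

open MeasureTheory ProbabilityTheory Filter Topology
open scoped ENNReal Pointwise

namespace Pool.Agent.H443R3

/-- Sites of the lattice `ℤ^d`. -/
abbrev Site (d : ℕ) : Type := Fin d → ℤ

/-- Configurations, elements of `S^(ℤ^d)`. -/
abbrev Config (d : ℕ) (S : Type) : Type := Site d → S

/-- The shift `σ^k`, `(σ^k x)_i = x_{i+k}`. -/
def shift {d : ℕ} {S : Type} (k : Site d) (x : Config d S) : Config d S := fun i => x (i + k)

/-- The cylinder `[u]` of all configurations that agree with `u` on the finite set `A`. -/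
def cyl {d : ℕ} {S : Type} (A : Finset (Site d)) (u : A → S) : Set (Config d S) :=
  {x | ∀ a : A, x a = u a}

/-- A probabilistic cellular automaton: a finite neighbourhood and a local rule assigning to each
pattern on the neighbourhood a probability distribution on the alphabet. -/
structure PCA (d : ℕ) (S : Type) where
  nbhd : Finset (Site d)
  rule : (nbhd → S) → PMF S

variable {d : ℕ} {S : Type}

namespace PCA

/-- The pattern seen from the site `i` in the configuration `x`. -/
def pattern (Φ : PCA d S) (x : Config d S) (i : Site d) : Φ.nbhd → S := fun n => x (i + n)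

variable [MeasurableSpace S]

/-- The transition kernel: given `x`, the new symbols at distinct sites are independent, the one
at `i` having law `rule ((x_{i+n})_n)`. -/
noncomputable def step (Φ : PCA d S) (x : Config d S) : Measure (Config d S) :=
  Measure.infinitePi (fun i : Site d => (Φ.rule (Φ.pattern x i)).toMeasure)

/-- The action `μ ↦ μΦ` on measures, `(μΦ)(E) = ∫ Φ(x, E) μ(dx)`. -/
noncomputable def evolve (Φ : PCA d S) (μ : Measure (Config d S)) : Measure (Config d S) :=
  μ.bind Φ.step

/-- The action on functions. -/
noncomputable def op (Φ : PCA d S) (f : Config d S → ℝ≥0∞) : Config d S → ℝ≥0∞ :=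
  fun x => ∫⁻ y, f y ∂(Φ.step x)

instance (Φ : PCA d S) (x : Config d S) : IsProbabilityMeasure (Φ.step x) := by
  unfold step; infer_instance

/-! ### Measurability -/

theorem measurable_of_dependsOn [Finite S] [MeasurableSingletonClass S] {β : Type*}
    [MeasurableSpace β] {f : Config d S → β} {F : Finset (Site d)} (h : DependsOn f F) :
    Measurable f := by
  rcases isEmpty_or_nonempty (Config d S) with hE | hN
  · exact measurable_of_empty f
  · obtain ⟨x0⟩ := hN
    have : f = (fun z : F → S => f (fun i => if h : i ∈ F then z ⟨i, h⟩ else x0 i)) ∘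
        (fun x : Config d S => fun i : F => x i) := by
      funext x
      apply h
      intro i hi
      have hi' : i ∈ F := hi
      simp [hi']
    rw [this]
    have : DiscreteMeasurableSpace (F → S) := MeasurableSingletonClass.toDiscreteMeasurableSpace
    exact (Measurable.of_discrete).comp (by fun_prop)

theorem measurableSet_of_dependsOn [Finite S] [MeasurableSingletonClass S]
    {E : Set (Config d S)} {F : Finset (Site d)} (h : DependsOn (fun x => x ∈ E) F) :
    MeasurableSet E :=
  measurableSet_setOf.2 (measurable_of_dependsOn (F := F) h)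

theorem measurable_step [Finite S] [MeasurableSingletonClass S] (Φ : PCA d S) :
    Measurable Φ.step := by
  apply Measurable.measure_of_isPiSystem_of_isProbabilityMeasure
    (generateFrom_measurableCylinders (α := fun _ : Site d => S)).symm
    isPiSystem_measurableCylinders
  intro s hs
  obtain ⟨I, T, hT, rfl⟩ := (mem_measurableCylinders _).1 hs
  have key : ∀ x : Config d S, Φ.step x (cylinder I T) =
      Measure.pi (fun i : I => (Φ.rule (Φ.pattern x i)).toMeasure) T := fun x =>
    Measure.infinitePi_cylinder (fun i : Site d => (Φ.rule (Φ.pattern x i)).toMeasure) hT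
  simp only [key]
  apply measurable_of_dependsOn (F := I + Φ.nbhd)
  intro x y hxy
  have : (fun i : I => (Φ.rule (Φ.pattern x i)).toMeasure) =
      (fun i : I => (Φ.rule (Φ.pattern y i)).toMeasure) := by
    funext i
    have : Φ.pattern x i = Φ.pattern y i := by
      funext n
      apply hxy
      exact Finset.mem_coe.2 (Finset.add_mem_add i.2 n.2)
    rw [this]
  simp only [this]

/-! ### The action on functions -/

theorem op_dependsOn [Finite S] [MeasurableSingletonClass S] (Φ : PCA d S)
    {f : Config d S → ℝ≥0∞} {A : Finset (Site d)}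
    (hf : DependsOn f A) : DependsOn (Φ.op f) ((A + Φ.nbhd : Finset (Site d)) : Set (Site d)) := by
  intro x y hxy
  unfold op step
  have key : ∀ z : Config d S, ∫⁻ w, f w ∂(Measure.infinitePi
      (fun i : Site d => (Φ.rule (Φ.pattern z i)).toMeasure)) =
      ∫⁻ w, f (fun i => if h : i ∈ A then w ⟨i, h⟩ else x i) ∂(Measure.pi
        (fun i : A => (Φ.rule (Φ.pattern z i)).toMeasure)) := by
    intro z
    rw [← lintegral_restrict_infinitePi
      (μ := fun i : Site d => (Φ.rule (Φ.pattern z i)).toMeasure)]
    · apply lintegral_congr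
      intro w
      apply hf
      intro i hi
      have hi' : i ∈ A := hi
      simp [hi']
    · have : DiscreteMeasurableSpace (A → S) := MeasurableSingletonClass.toDiscreteMeasurableSpace
      exact Measurable.of_discrete
  rw [key x, key y]
  have : (fun i : A => (Φ.rule (Φ.pattern x i)).toMeasure) =
      (fun i : A => (Φ.rule (Φ.pattern y i)).toMeasure) := by
    funext i
    have : Φ.pattern x i = Φ.pattern y i := by
      funext n
      apply hxy
      exact Finset.mem_coe.2 (Finset.add_mem_add i.2 n.2)
    rw [this]
  rw [this]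

theorem op_mul [Finite S] [MeasurableSingletonClass S] (Φ : PCA d S)
    {f g : Config d S → ℝ≥0∞} {A B : Finset (Site d)}
    (hf : DependsOn f A) (hg : DependsOn g B) (hAB : Disjoint A B) :
    Φ.op (fun x => f x * g x) = fun x => Φ.op f x * Φ.op g x := by
  funext x
  have hfm : Measurable f := measurable_of_dependsOn hf
  have hgm : Measurable g := measurable_of_dependsOn hg
  have hind : iIndepFun (fun (i : Site d) (ω : Config d S) => ω i) (Φ.step x) :=
    iIndepFun_infinitePi (P := fun i : Site d => (Φ.rule (Φ.pattern x i)).toMeasure)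
      (X := fun _ s => s) (fun _ => measurable_id)
  have h2 := hind.indepFun_finset A B hAB (fun i => measurable_pi_apply i)
  have dA : DiscreteMeasurableSpace (A → S) := MeasurableSingletonClass.toDiscreteMeasurableSpace
  have dB : DiscreteMeasurableSpace (B → S) := MeasurableSingletonClass.toDiscreteMeasurableSpace
  have h3 : IndepFun f g (Φ.step x) := by
    have e1 : f = (fun z : A → S => f (fun i => if h : i ∈ A then z ⟨i, h⟩ else x i)) ∘
        (fun w : Config d S => fun i : A => w i) := by
      funext w
      apply hf
      intro i hi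
      have hi' : i ∈ A := hi
      simp [hi']
    have e2 : g = (fun z : B → S => g (fun i => if h : i ∈ B then z ⟨i, h⟩ else x i)) ∘
        (fun w : Config d S => fun i : B => w i) := by
      funext w
      apply hg
      intro i hi
      have hi' : i ∈ B := hi
      simp [hi']
    rw [e1, e2]
    exact h2.comp Measurable.of_discrete Measurable.of_discrete
  exact lintegral_mul_eq_lintegral_mul_lintegral_of_indepFun hfm hgm h3

theorem op_shift [Finite S] [MeasurableSingletonClass S] (Φ : PCA d S)
    {g : Config d S → ℝ≥0∞} (hg : Measurable g) (k : Site d) :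
    Φ.op (fun x => g (shift k x)) = fun x => Φ.op g (shift k x) := by
  funext x
  unfold op
  have h : (Φ.step x).map (shift k) = Φ.step (shift k x) := by
    unfold step
    have := Measure.map_infinitePi_infinitePi_of_inj
      (P := fun i : Site d => (Φ.rule (Φ.pattern x i)).toMeasure)
      (f := fun i : Site d => i + k) (add_left_injective k)
    have e : (fun i : Site d => (Φ.rule (Φ.pattern x (i + k))).toMeasure) =
        (fun i : Site d => (Φ.rule (Φ.pattern (shift k x) i)).toMeasure) := by
      funext i
      have : Φ.pattern x (i + k) = Φ.pattern (shift k x) i := by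
        funext n
        simp only [pattern, shift]
        congr 1
        abel
      rw [this]
    rw [← e]
    exact this
  rw [← h, lintegral_map hg]
  unfold shift
  fun_prop

theorem op_le_one (Φ : PCA d S) {f : Config d S → ℝ≥0∞} (hf : ∀ x, f x ≤ 1) (x : Config d S) :
    Φ.op f x ≤ 1 := by
  unfold op
  calc ∫⁻ y, f y ∂(Φ.step x) ≤ ∫⁻ _, 1 ∂(Φ.step x) := lintegral_mono hf
    _ = 1 := by simp

theorem op_mono (Φ : PCA d S) {f g : Config d S → ℝ≥0∞} (h : ∀ x, f x ≤ g x) (x : Config d S) :
    Φ.op f x ≤ Φ.op g x := lintegral_mono h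

theorem op_iterate_le_one (Φ : PCA d S) {f : Config d S → ℝ≥0∞} (hf : ∀ x, f x ≤ 1) (t : ℕ)
    (x : Config d S) : Φ.op^[t] f x ≤ 1 := by
  induction t generalizing f with
  | zero => exact hf x
  | succ t ih => exact ih (Φ.op_le_one hf)

/-- The sites on which `op^[t] f` may depend when `f` depends on `A`. -/
def cone (Φ : PCA d S) (t : ℕ) (A : Finset (Site d)) : Finset (Site d) :=
  (fun B => B + Φ.nbhd)^[t] A

theorem op_iterate_dependsOn [Finite S] [MeasurableSingletonClass S] (Φ : PCA d S) (t : ℕ)
    {f : Config d S → ℝ≥0∞} {A : Finset (Site d)}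
    (hf : DependsOn f A) : DependsOn (Φ.op^[t] f) (Φ.cone t A : Set (Site d)) := by
  induction t generalizing f A with
  | zero => exact hf
  | succ t ih => exact ih (Φ.op_dependsOn hf)

theorem op_iterate_mul [Finite S] [MeasurableSingletonClass S] (Φ : PCA d S) (t : ℕ)
    {f g : Config d S → ℝ≥0∞} {A B : Finset (Site d)}
    (hf : DependsOn f A) (hg : DependsOn g B)
    (hAB : ∀ s < t, Disjoint (Φ.cone s A) (Φ.cone s B)) :
    Φ.op^[t] (fun x => f x * g x) = fun x => Φ.op^[t] f x * Φ.op^[t] g x := by
  induction t generalizing f g A B with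
  | zero => rfl
  | succ t ih =>
    simp only [Function.iterate_succ, Function.comp_apply]
    rw [Φ.op_mul hf hg (hAB 0 (Nat.succ_pos _))]
    apply ih (Φ.op_dependsOn hf) (Φ.op_dependsOn hg)
    intro s hs
    exact hAB (s + 1) (by omega)

theorem op_iterate_shift [Finite S] [MeasurableSingletonClass S] (Φ : PCA d S) (t : ℕ)
    {g : Config d S → ℝ≥0∞} {B : Finset (Site d)} (hg : DependsOn g B) (k : Site d) :
    Φ.op^[t] (fun x => g (shift k x)) = fun x => Φ.op^[t] g (shift k x) := by
  induction t generalizing g B with
  | zero => rfl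
  | succ t ih =>
    simp only [Function.iterate_succ, Function.comp_apply]
    rw [Φ.op_shift (measurable_of_dependsOn hg)]
    exact ih (Φ.op_dependsOn hg)

/-! ### The action on measures -/

theorem lintegral_evolve [Finite S] [MeasurableSingletonClass S] (Φ : PCA d S)
    (μ : Measure (Config d S)) {f : Config d S → ℝ≥0∞} (hf : Measurable f) :
    ∫⁻ x, f x ∂(Φ.evolve μ) = ∫⁻ x, Φ.op f x ∂μ :=
  Measure.lintegral_bind Φ.measurable_step.aemeasurable hf.aemeasurable

theorem isProbabilityMeasure_evolve [Finite S] [MeasurableSingletonClass S] (Φ : PCA d S)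
    (μ : Measure (Config d S)) [IsProbabilityMeasure μ] : IsProbabilityMeasure (Φ.evolve μ) := by
  constructor
  have := Φ.lintegral_evolve μ (f := fun _ => 1) measurable_const
  simpa [op] using this

theorem isProbabilityMeasure_iterate [Finite S] [MeasurableSingletonClass S] (Φ : PCA d S)
    (μ : Measure (Config d S)) [hμ : IsProbabilityMeasure μ] (t : ℕ) :
    IsProbabilityMeasure (Φ.evolve^[t] μ) := by
  induction t with
  | zero => exact hμ
  | succ t ih =>
    rw [Function.iterate_succ_apply']
    exact Φ.isProbabilityMeasure_evolve _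

theorem lintegral_iterate [Finite S] [MeasurableSingletonClass S] (Φ : PCA d S)
    (μ : Measure (Config d S)) (t : ℕ) {f : Config d S → ℝ≥0∞} {A : Finset (Site d)}
    (hf : DependsOn f A) :
    ∫⁻ x, f x ∂(Φ.evolve^[t] μ) = ∫⁻ x, Φ.op^[t] f x ∂μ := by
  induction t generalizing f A with
  | zero => rfl
  | succ t ih =>
    rw [Function.iterate_succ_apply', Φ.lintegral_evolve _ (measurable_of_dependsOn hf),
      ih (Φ.op_dependsOn hf)]
    rfl

theorem iterate_dirac [Finite S] [MeasurableSingletonClass S] (Φ : PCA d S)
    (x : Config d S) (t : ℕ) {f : Config d S → ℝ≥0∞} {A : Finset (Site d)}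
    (hf : DependsOn f A) :
    ∫⁻ y, f y ∂(Φ.evolve^[t] (Measure.dirac x)) = Φ.op^[t] f x := by
  rw [Φ.lintegral_iterate _ t hf, lintegral_dirac' _
    (measurable_of_dependsOn (Φ.op_iterate_dependsOn t hf))]

end PCA

/-! ### Cylinders -/

theorem mem_cyl_congr {A : Finset (Site d)} (u : A → S) {x y : Config d S}
    (hxy : ∀ i ∈ (A : Set (Site d)), x i = y i) : x ∈ cyl A u ↔ y ∈ cyl A u := by
  constructor
  · intro h a
    rw [← hxy a a.2]
    exact h a
  · intro h a
    rw [hxy a a.2]
    exact h a

theorem dependsOn_cyl (A : Finset (Site d)) (u : A → S) :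
    DependsOn (fun x : Config d S => (cyl A u).indicator (fun _ => (1 : ℝ≥0∞)) x) A := by
  intro x y hxy
  have : x ∈ cyl A u ↔ y ∈ cyl A u := mem_cyl_congr u hxy
  by_cases h : y ∈ cyl A u
  · simp [Set.indicator, h, this.2 h]
  · have h' : x ∉ cyl A u := fun h'' => h (this.1 h'')
    simp [Set.indicator, h, h']

theorem measurableSet_cyl [MeasurableSpace S] [Finite S] [MeasurableSingletonClass S]
    (A : Finset (Site d)) (u : A → S) : MeasurableSet (cyl (d := d) A u) := by
  apply PCA.measurableSet_of_dependsOn (F := A)
  intro x y hxy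
  have : x ∈ cyl A u ↔ y ∈ cyl A u := mem_cyl_congr u hxy
  simp only [this]

theorem isClopen_cyl [TopologicalSpace S] [DiscreteTopology S]
    (A : Finset (Site d)) (u : A → S) : IsClopen (cyl (d := d) A u) := by
  have : cyl (d := d) A u = ⋂ a : A, (fun x : Config d S => x a) ⁻¹' {u a} := by
    ext x
    simp [cyl]
  rw [this]
  apply isClopen_iInter_of_finite
  intro a
  exact (isClopen_discrete {u a}).preimage (continuous_apply _)

end Pool.Agent.H443R3
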