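import Mathlib
import Pool.Agent.H443R3.PCA

set_option autoImplicit false

open MeasureTheory ProbabilityTheory Filter Topology
open scoped ENNReal Pointwise

/-!
# Ergodicity of probabilistic cellular automata from the convergence of cylinder probabilities
-/

namespace Pool.Agent.H443R3

variable {d : ℕ} {S : Type}

/-- `Φ` is ergodic with unique invariant probability measure `π`: `π` is the only invariant
probability measure, and `μ Φ^t → π` weakly for every initial probability measure `μ`. -/
structure ErgodicWith [TopologicalSpace S] [MeasurableSpace S] (Φ : PCA d S)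
    (π : Measure (Config d S)) : Prop where
  prob : IsProbabilityMeasure π
  invariant : Φ.evolve π = π
  unique : ∀ ν : Measure (Config d S), IsProbabilityMeasure ν → Φ.evolve ν = ν → ν = π
  converges : ∀ μ : Measure (Config d S), IsProbabilityMeasure μ →
    ∀ f : Config d S → ℝ, Continuous f →
      Tendsto (fun t : ℕ => ∫ x, f x ∂(Φ.evolve^[t] μ)) atTop (𝓝 (∫ x, f x ∂π))

variable [Finite S] [TopologicalSpace S] [DiscreteTopology S] [MeasurableSpace S]
  [MeasurableSingletonClass S]

theorem measure_ext_cyl {ν ν' : Measure (Config d S)} [IsProbabilityMeasure ν]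
    [IsProbabilityMeasure ν']
    (h : ∀ (A : Finset (Site d)) (u : A → S), ν (cyl A u) = ν' (cyl A u)) : ν = ν' := by
  apply ext_of_generate_finite (measurableCylinders fun _ : Site d => S)
    (generateFrom_measurableCylinders (α := fun _ : Site d => S)).symm
    isPiSystem_measurableCylinders
  · intro s hs
    obtain ⟨I, T, hT, rfl⟩ := (mem_measurableCylinders _).1 hs
    have key : ν.map (I.restrict (π := fun _ => S)) = ν'.map (I.restrict (π := fun _ => S)) := by
      have hm : Measurable (I.restrict (π := fun _ : Site d => S)) := Finset.measurable_restrict I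
      rw [Measure.ext_iff_singleton]
      intro u
      rw [Measure.map_apply hm (MeasurableSet.singleton u),
        Measure.map_apply hm (MeasurableSet.singleton u)]
      have e : (I.restrict (π := fun _ : Site d => S)) ⁻¹' {u} = cyl I u := by
        ext x
        simp only [Set.mem_preimage, Set.mem_singleton_iff, cyl, Set.mem_ofPred_eq]
        constructor
        · intro h' a
          rw [← h']
          rfl
        · intro h'
          funext a
          exact h' a
      rw [e]
      exact h I u
    have hm : Measurable (I.restrict (π := fun _ : Site d => S)) := Finset.measurable_restrict I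
    have e1 := congrArg (fun m : Measure (I → S) => m T) key
    simp only [Measure.map_apply hm hT] at e1
    exact e1
  · simp

/-- The indicator of a cylinder. -/
noncomputable def ind (A : Finset (Site d)) (u : A → S) (x : Config d S) : ℝ≥0∞ :=
  (cyl A u).indicator (fun _ => 1) x

omit [TopologicalSpace S] [DiscreteTopology S] in
theorem lintegral_ind (ν : Measure (Config d S)) (A : Finset (Site d)) (u : A → S) :
    ∫⁻ x, ind A u x ∂ν = ν (cyl A u) := by
  unfold ind
  rw [lintegral_indicator (measurableSet_cyl A u), lintegral_const, one_mul,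
    Measure.restrict_apply MeasurableSet.univ, Set.univ_inter]

variable [BorelSpace S]

theorem weak_of_cyl (P : ℕ → ProbabilityMeasure (Config d S)) (π : ProbabilityMeasure (Config d S))
    (h : ∀ (A : Finset (Site d)) (u : A → S),
      Tendsto (fun n => (P n : Measure (Config d S)) (cyl A u)) atTop
        (𝓝 ((π : Measure (Config d S)) (cyl A u)))) : Tendsto P atTop (𝓝 π) := by
  have hs : SecondCountableTopology S := by
    have : Countable S := inferInstance
    infer_instance
  apply le_nhds_of_unique_clusterPt
  intro ν hν
  obtain ⟨U, hU, hlim⟩ := mapClusterPt_iff_ultrafilter.1 hν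
  have key : ∀ (A : Finset (Site d)) (u : A → S),
      (ν : Measure (Config d S)) (cyl A u) = (π : Measure (Config d S)) (cyl A u) := by
    intro A u
    have h1 := ProbabilityMeasure.tendsto_measure_of_null_frontier_of_tendsto' hlim
      (E := cyl A u) (by rw [(isClopen_cyl A u).frontier_eq]; exact measure_empty)
    exact tendsto_nhds_unique h1 ((h A u).mono_left hU)
  have i1 : IsProbabilityMeasure (ν : Measure (Config d S)) := ν.2
  have i2 : IsProbabilityMeasure (π : Measure (Config d S)) := π.2
  have h2 : (ν : Measure (Config d S)) = (π : Measure (Config d S)) := measure_ext_cyl key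
  exact Subtype.ext h2

theorem continuous_of_dependsOn {f : Config d S → ℝ≥0∞} {F : Finset (Site d)}
    (h : DependsOn f F) : Continuous f := by
  rcases isEmpty_or_nonempty (Config d S) with hE | hN
  · exact continuous_of_const (fun x => (hE.false x).elim)
  · obtain ⟨x0⟩ := hN
    have : f = (fun z : F → S => f (fun i => if h : i ∈ F then z ⟨i, h⟩ else x0 i)) ∘
        (fun x : Config d S => fun i : F => x i) := by
      funext x
      apply h
      intro i hi
      have hi' : i ∈ F := hi
      simp [hi']
    rw [this]
    exact (continuous_of_discreteTopology).comp (by fun_prop)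

theorem ergodicWith_of_cylinders (Φ : PCA d S) (π : Measure (Config d S)) [hπ : IsProbabilityMeasure π]
    (h : ∀ μ : Measure (Config d S), IsProbabilityMeasure μ → ∀ (A : Finset (Site d)) (u : A → S),
      Tendsto (fun n => (Φ.evolve^[n] μ) (cyl A u)) atTop (𝓝 (π (cyl A u)))) :
    ErgodicWith Φ π := by
  have hs : SecondCountableTopology S := by
    have : Countable S := inferInstance
    infer_instance
  have hweak : ∀ μ : Measure (Config d S), IsProbabilityMeasure μ →
      ∀ f : Config d S → ℝ, Continuous f →
        Tendsto (fun t : ℕ => ∫ x, f x ∂(Φ.evolve^[t] μ)) atTop (𝓝 (∫ x, f x ∂π)) := by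
    intro μ hμ f hf
    have hw := weak_of_cyl (fun n => ⟨Φ.evolve^[n] μ, Φ.isProbabilityMeasure_iterate μ n⟩) ⟨π, hπ⟩
      (fun A u => h μ hμ A u)
    have := ProbabilityMeasure.tendsto_iff_forall_integral_tendsto.1 hw
      (BoundedContinuousFunction.mkOfCompact ⟨f, hf⟩)
    exact this
  have hinv : Φ.evolve π = π := by
    have := Φ.isProbabilityMeasure_evolve π
    apply measure_ext_cyl
    intro A u
    have h1 := h π hπ A u
    have h2 := (tendsto_add_atTop_iff_nat 1).2 h1
    -- the integral of `op 1_C` against `evolve^n π`
    have hw := weak_of_cyl (fun n => ⟨Φ.evolve^[n] π, Φ.isProbabilityMeasure_iterate π n⟩) ⟨π, hπ⟩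
      (fun A u => h π hπ A u)
    have hd := Φ.op_dependsOn (dependsOn_cyl A u)
    have hc := continuous_of_dependsOn hd
    have hle : ∀ x, Φ.op (fun x => (cyl A u).indicator (fun _ => (1 : ℝ≥0∞)) x) x ≤ 1 :=
      Φ.op_le_one (fun x => by
        unfold Set.indicator
        split_ifs <;> simp)
    have h3 : Tendsto (fun n => ∫ x, (Φ.op (fun x => (cyl A u).indicator (fun _ => (1 : ℝ≥0∞)) x) x).toReal
        ∂(Φ.evolve^[n] π)) atTop (𝓝 (∫ x, (Φ.op (fun x => (cyl A u).indicator
          (fun _ => (1 : ℝ≥0∞)) x) x).toReal ∂π)) := by
      apply hweak π hπ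
      exact ENNReal.continuousOn_toReal.comp_continuous hc
        (fun x => ((hle x).trans_lt ENNReal.one_lt_top).ne)
    have e1 : ∀ ν : Measure (Config d S), IsProbabilityMeasure ν →
        ∫ x, (Φ.op (fun x => (cyl A u).indicator (fun _ => (1 : ℝ≥0∞)) x) x).toReal ∂ν =
          (Φ.evolve ν (cyl A u)).toReal := by
      intro ν hν
      rw [integral_toReal (PCA.measurable_of_dependsOn hd).aemeasurable
        (Eventually.of_forall fun x => (hle x).trans_lt ENNReal.one_lt_top),
        ← Φ.lintegral_evolve ν (PCA.measurable_of_dependsOn (dependsOn_cyl A u))]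
      have := lintegral_ind (Φ.evolve ν) A u
      unfold ind at this
      rw [this]
    have hp : ∀ n, IsProbabilityMeasure (Φ.evolve^[n] π) := fun n =>
      Φ.isProbabilityMeasure_iterate π n
    rw [e1 π hπ] at h3
    have h4 : Tendsto (fun n => ((Φ.evolve^[n + 1] π) (cyl A u)).toReal) atTop
        (𝓝 ((Φ.evolve π (cyl A u)).toReal)) := by
      refine h3.congr (fun n => ?_)
      rw [e1 _ (hp n), Function.iterate_succ_apply']
    have h5 : Tendsto (fun n => ((Φ.evolve^[n + 1] π) (cyl A u)).toReal) atTop
        (𝓝 ((π (cyl A u)).toReal)) :=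
      (ENNReal.tendsto_toReal (measure_ne_top _ _)).comp h2
    have h6 := tendsto_nhds_unique h4 h5
    exact (ENNReal.toReal_eq_toReal_iff' (measure_ne_top _ _) (measure_ne_top _ _)).1 h6
  refine ⟨hπ, hinv, fun ν hν hνi => ?_, hweak⟩
  have hit : ∀ t : ℕ, Φ.evolve^[t] ν = ν := by
    intro t
    induction t with
    | zero => rfl
    | succ t ih => rw [Function.iterate_succ_apply', ih, hνi]
  apply measure_ext_cyl
  intro A u
  have h1 := h ν hν A u
  simp only [hit] at h1
  exact tendsto_nhds_unique tendsto_const_nhds h1

end Pool.Agent.H443R3
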