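import Mathlib
import Pool.Agent.H443R3.Erg

set_option autoImplicit false

open MeasureTheory ProbabilityTheory Filter Topology
open scoped ENNReal Pointwise

/-!
# Attractive two-letter automata: a finite-size criterion for ergodicity
-/

namespace Pool.Agent.H443R3.Attractive

open Pool.Agent.H443R3

variable {d : ℕ}

/-- A representation of the rule of `Φ` by independent noise variables acting monotonically. -/
structure Rep (Φ : PCA d Bool) where
  lam : PMF (Fin 3)
  psi : (Φ.nbhd → Bool) → Fin 3 → Bool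
  rule_eq : ∀ u, Φ.rule u = lam.map (psi u)
  mono : ∀ u v, u ≤ v → ∀ w, psi u w ≤ psi v w

variable {Φ : PCA d Bool} (R : Rep Φ)

/-- The map of configurations given the noise. -/
def Rep.map (x : Config d Bool) (w : Site d → Fin 3) : Config d Bool :=
  fun i => R.psi (Φ.pattern x i) (w i)

theorem Rep.measurable_map (x : Config d Bool) : Measurable (R.map x) := by
  rw [measurable_pi_iff]
  intro i
  exact (Measurable.of_discrete (f := R.psi (Φ.pattern x i))).comp (measurable_pi_apply i)

/-- The law of the noise. -/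
noncomputable def Rep.noise : Measure (Site d → Fin 3) :=
  Measure.infinitePi (fun _ : Site d => R.lam.toMeasure)

instance : IsProbabilityMeasure R.noise := by
  unfold Rep.noise; infer_instance

theorem Rep.step_eq (x : Config d Bool) : Φ.step x = R.noise.map (R.map x) := by
  have h := Measure.infinitePi_map_pi (μ := fun _ : Site d => R.lam.toMeasure)
    (f := fun i => R.psi (Φ.pattern x i)) (fun _ => Measurable.of_discrete)
  unfold Rep.noise Rep.map
  rw [h]
  unfold PCA.step
  congr 1
  funext i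
  rw [R.rule_eq]
  exact (PMF.toMeasure_map (f := R.psi (Φ.pattern x i)) R.lam Measurable.of_discrete).symm

theorem Rep.op_eq (x : Config d Bool) {f : Config d Bool → ℝ≥0∞} (hf : Measurable f) :
    Φ.op f x = ∫⁻ w, f (R.map x w) ∂(Rep.noise R) := by
  unfold PCA.op
  rw [R.step_eq, lintegral_map hf (R.measurable_map x)]

theorem Rep.map_mono {x y : Config d Bool} (h : x ≤ y) (w : Site d → Fin 3) :
    R.map x w ≤ R.map y w := fun i => R.mono _ _ (fun n => h (i + n)) (w i)

theorem Bool.not_true_le_false : ¬ (true ≤ false) := by decide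

/-- Increasing functions. -/
def Inc (f : Config d Bool → ℝ≥0∞) : Prop := ∀ x y, x ≤ y → f x ≤ f y

/-- The increments of `f` are dominated by those of `g`. -/
def Dom (f g : Config d Bool → ℝ≥0∞) : Prop := ∀ x y, x ≤ y → f y + g x ≤ f x + g y

include R in
theorem inc_op {f : Config d Bool → ℝ≥0∞} {A : Finset (Site d)} (hA : DependsOn f A)
    (h : Inc f) : Inc (Φ.op f) := by
  intro x y hxy
  rw [R.op_eq x (PCA.measurable_of_dependsOn hA), R.op_eq y (PCA.measurable_of_dependsOn hA)]
  exact lintegral_mono fun w => h _ _ (R.map_mono hxy w)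

include R in
theorem dom_op {f g : Config d Bool → ℝ≥0∞} {A B : Finset (Site d)} (hA : DependsOn f A)
    (hB : DependsOn g B) (h : Dom f g) : Dom (Φ.op f) (Φ.op g) := by
  intro x y hxy
  have mf := PCA.measurable_of_dependsOn hA
  have mg := PCA.measurable_of_dependsOn hB
  rw [R.op_eq x mf, R.op_eq y mf, R.op_eq x mg, R.op_eq y mg]
  have m1 : Measurable (fun w => f (R.map y w)) := mf.comp (R.measurable_map y)
  have m2 : Measurable (fun w => f (R.map x w)) := mf.comp (R.measurable_map x)
  rw [← lintegral_add_left m1, ← lintegral_add_left m2]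
  exact lintegral_mono fun w => h _ _ (R.map_mono hxy w)

include R in
theorem inc_iterate {f : Config d Bool → ℝ≥0∞} {A : Finset (Site d)} (hA : DependsOn f A)
    (h : Inc f) (n : ℕ) : Inc (Φ.op^[n] f) := by
  induction n with
  | zero => exact h
  | succ n ih =>
    rw [Function.iterate_succ_apply']
    exact inc_op R (Φ.op_iterate_dependsOn n hA) ih

include R in
theorem dom_iterate {f g : Config d Bool → ℝ≥0∞} {A B : Finset (Site d)} (hA : DependsOn f A)
    (hB : DependsOn g B) (h : Dom f g) (n : ℕ) : Dom (Φ.op^[n] f) (Φ.op^[n] g) := by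
  induction n with
  | zero => exact h
  | succ n ih =>
    rw [Function.iterate_succ_apply', Function.iterate_succ_apply']
    exact dom_op R (Φ.op_iterate_dependsOn n hA) (Φ.op_iterate_dependsOn n hB) ih

/-! ### Linearity -/

theorem op_iterate_add {f g : Config d Bool → ℝ≥0∞} {A B : Finset (Site d)}
    (hf : DependsOn f A) (hg : DependsOn g B) (t : ℕ) (x : Config d Bool) :
    Φ.op^[t] (fun y => f y + g y) x = Φ.op^[t] f x + Φ.op^[t] g x := by
  induction t generalizing f g A B with
  | zero => rfl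
  | succ t ih =>
    have e : Φ.op (fun y => f y + g y) = fun y => Φ.op f y + Φ.op g y := by
      funext y
      exact lintegral_add_left (PCA.measurable_of_dependsOn hf) _
    simp only [Function.iterate_succ, Function.comp_apply]
    rw [e]
    exact ih (Φ.op_dependsOn hf) (Φ.op_dependsOn hg)

theorem op_iterate_mul {f : Config d Bool → ℝ≥0∞} {A : Finset (Site d)} (c : ℝ≥0∞)
    (hf : DependsOn f A) (t : ℕ) (x : Config d Bool) :
    Φ.op^[t] (fun y => c * f y) x = c * Φ.op^[t] f x := by
  induction t generalizing f A with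
  | zero => rfl
  | succ t ih =>
    have e : Φ.op (fun y => c * f y) = fun y => c * Φ.op f y := by
      funext y
      exact lintegral_const_mul _ (PCA.measurable_of_dependsOn hf)
    simp only [Function.iterate_succ, Function.comp_apply]
    rw [e]
    exact ih (Φ.op_dependsOn hf)

theorem op_iterate_const (c : ℝ≥0∞) (t : ℕ) (x : Config d Bool) :
    Φ.op^[t] (fun _ => c) x = c := by
  induction t with
  | zero => rfl
  | succ t ih =>
    have e : Φ.op (fun _ => c) = fun _ => c := by
      funext y
      simp [PCA.op]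
    rw [Function.iterate_succ_apply, e, ih]

/-- The site `i` carries the symbol `true`. -/
noncomputable def e (i : Site d) (x : Config d Bool) : ℝ≥0∞ := if x i = true then 1 else 0

theorem e_dependsOn (i : Site d) : DependsOn (e i) (({i} : Finset (Site d)) : Set (Site d)) := by
  intro x y hxy
  unfold e
  rw [hxy i (by simp)]

theorem e_inc (i : Site d) : Inc (e i) := by
  intro x y hxy
  unfold e
  have := hxy i
  cases hx : x i <;> cases hy : y i
  · simp
  · simp
  · rw [hx, hy] at this
    exact absurd this Bool.not_true_le_false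
  · simp

theorem e_le_one (i : Site d) (x : Config d Bool) : e i x ≤ 1 := by
  unfold e; split_ifs <;> simp

/-- The number of `true` in `A`. -/
noncomputable def cnt (A : Finset (Site d)) (x : Config d Bool) : ℝ≥0∞ := ∑ i ∈ A, e i x

theorem cnt_dependsOn (A : Finset (Site d)) : DependsOn (cnt A) (A : Set (Site d)) := by
  intro x y hxy
  unfold cnt
  apply Finset.sum_congr rfl
  intro i hi
  exact e_dependsOn i (fun j hj => by
    rw [Finset.coe_singleton, Set.mem_singleton_iff] at hj
    rw [hj]
    exact hxy i hi)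

theorem op_iterate_cnt (A : Finset (Site d)) (n : ℕ) (x : Config d Bool) :
    Φ.op^[n] (cnt A) x = ∑ i ∈ A, Φ.op^[n] (e i) x := by
  induction A using Finset.induction_on with
  | empty =>
    have : cnt (∅ : Finset (Site d)) = fun _ => 0 := by funext y; simp [cnt]
    rw [this, op_iterate_const, Finset.sum_empty]
  | insert i A hi ih =>
    have : cnt (insert i A) = fun y => e i y + cnt A y := by
      funext y; simp [cnt, Finset.sum_insert hi]
    rw [this, op_iterate_add (e_dependsOn i) (cnt_dependsOn A), ih, Finset.sum_insert hi]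

theorem cnt_mono {A : Finset (Site d)} {x y : Config d Bool} (h : x ≤ y) : cnt A x ≤ cnt A y :=
  Finset.sum_le_sum fun i _ => e_inc i x y h

theorem cnt_add_one {A : Finset (Site d)} {x y : Config d Bool} (h : x ≤ y)
    (hne : ∃ i ∈ A, x i ≠ y i) : cnt A x + 1 ≤ cnt A y := by
  obtain ⟨i, hi, hxy⟩ := hne
  unfold cnt
  rw [← Finset.add_sum_erase A _ hi, ← Finset.add_sum_erase A (fun i => e i y) hi]
  have h1 : e i x = 0 ∧ e i y = 1 := by
    have := h i
    unfold e
    cases hx : x i <;> cases hy : y i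
    · rw [hx, hy] at hxy
      exact absurd rfl hxy
    · simp
    · rw [hx, hy] at this
      exact absurd this Bool.not_true_le_false
    · rw [hx, hy] at hxy
      exact absurd rfl hxy
  rw [h1.1, h1.2, zero_add, add_comm]
  gcongr with j _
  exact e_inc j x y h

/-- Functions with values in `[0, c]` are dominated by `c` times the number of `true`. -/
theorem dom_cnt {f : Config d Bool → ℝ≥0∞} {A : Finset (Site d)} (hA : DependsOn f A)
    (c : ℝ≥0∞) (hc : ∀ x y, x ≤ y → f y ≤ f x + c) : Dom f (fun x => c * cnt A x) := by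
  intro x y hxy
  by_cases hne : ∃ i ∈ A, x i ≠ y i
  · have h1 := cnt_add_one hxy hne
    calc f y + c * cnt A x ≤ f x + c + c * cnt A x := by gcongr; exact hc x y hxy
      _ = f x + c * (cnt A x + 1) := by ring
      _ ≤ f x + c * cnt A y := by gcongr
  · have h1 : ∀ i ∈ (A : Set (Site d)), x i = y i := by
      intro i hi
      by_contra h
      exact hne ⟨i, hi, h⟩
    rw [hA h1]
    show f y + c * cnt A x ≤ f y + c * cnt A y
    gcongr
    exact cnt_mono hxy


/-! ### The two extremal trajectories -/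

/-- All `false`. -/
def bot : Config d Bool := fun _ => false

/-- All `true`. -/
def top : Config d Bool := fun _ => true

theorem bot_le (x : Config d Bool) : bot ≤ x := fun i => Bool.false_le (x i)

theorem le_top (x : Config d Bool) : x ≤ top := fun i => Bool.le_true (x i)

theorem e_shift (i : Site d) : e i = fun x : Config d Bool => e 0 (shift i x) := by
  funext x
  unfold e shift
  rw [zero_add]

theorem op_iterate_e (i : Site d) (n : ℕ) (b : Bool) :
    Φ.op^[n] (e i) (fun _ => b) = Φ.op^[n] (e 0) (fun _ => b) := by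
  rw [e_shift, Φ.op_iterate_shift n (e_dependsOn 0)]
  rfl

/-- The difference between the two extremal trajectories. -/
noncomputable def gap (Φ : PCA d Bool) (n : ℕ) : ℝ :=
  (Φ.op^[n] (e 0) top).toReal - (Φ.op^[n] (e 0) bot).toReal

theorem fin_e (n : ℕ) (i : Site d) (x : Config d Bool) : Φ.op^[n] (e i) x ≠ ∞ :=
  ((Φ.op_iterate_le_one (e_le_one i) n x).trans_lt ENNReal.one_lt_top).ne

include R in
theorem gap_nonneg (n : ℕ) : 0 ≤ gap Φ n := by
  unfold gap
  rw [sub_nonneg]
  exact ENNReal.toReal_mono (fin_e n 0 _) (inc_iterate R (e_dependsOn 0) (e_inc 0) n _ _ (bot_le _))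

theorem gap_le_one (n : ℕ) : gap Φ n ≤ 1 := by
  unfold gap
  have h1 := ENNReal.toReal_mono ENNReal.one_ne_top (Φ.op_iterate_le_one (e_le_one 0) n top)
  have h2 : 0 ≤ (Φ.op^[n] (e 0) bot).toReal := ENNReal.toReal_nonneg
  simp only [ENNReal.toReal_one] at h1
  linarith

include R in
theorem gap_anti : Antitone (gap Φ) := by
  apply antitone_nat_of_succ_le
  intro n
  unfold gap
  have hinc := inc_iterate R (e_dependsOn 0) (e_inc 0) n
  have h1 : Φ.op^[n + 1] (e 0) top ≤ Φ.op^[n] (e 0) top := by
    rw [Function.iterate_succ_apply']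
    calc ∫⁻ y, Φ.op^[n] (e 0) y ∂(Φ.step top) ≤
        ∫⁻ _, Φ.op^[n] (e 0) top ∂(Φ.step top) := lintegral_mono fun y => hinc _ _ (le_top y)
      _ = Φ.op^[n] (e 0) top := by simp
  have h2 : Φ.op^[n] (e 0) bot ≤ Φ.op^[n + 1] (e 0) bot := by
    rw [Function.iterate_succ_apply']
    calc Φ.op^[n] (e 0) bot = ∫⁻ _, Φ.op^[n] (e 0) bot ∂(Φ.step bot) := by simp
      _ ≤ ∫⁻ y, Φ.op^[n] (e 0) y ∂(Φ.step bot) := lintegral_mono fun y => hinc _ _ (bot_le y)
  have h3 := ENNReal.toReal_mono (fin_e n 0 _) h1
  have h4 := ENNReal.toReal_mono (fin_e (n + 1) 0 _) h2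
  linarith

include R in
/-- The finite-size recursion. -/
theorem gap_add (T : ℕ) (B : Finset (Site d)) (hB : DependsOn (Φ.op^[T] (e 0)) (B : Set (Site d)))
    {ρ : ℝ} (hρ : gap Φ T ≤ ρ) (n : ℕ) : gap Φ (n + T) ≤ ρ * B.card * gap Φ n := by
  have hρ0 : 0 ≤ ρ := (gap_nonneg R T).trans hρ
  have hincT := inc_iterate R (e_dependsOn 0) (e_inc 0) T
  have hdom : Dom (Φ.op^[T] (e 0)) (fun x => ENNReal.ofReal ρ * cnt B x) := by
    apply dom_cnt hB
    intro x y _
    calc Φ.op^[T] (e 0) y ≤ Φ.op^[T] (e 0) top := hincT _ _ (le_top y)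
      _ ≤ Φ.op^[T] (e 0) bot + ENNReal.ofReal ρ := by
          rw [← ENNReal.ofReal_toReal (fin_e T 0 top), ← ENNReal.ofReal_toReal (fin_e T 0 bot),
            ← ENNReal.ofReal_add ENNReal.toReal_nonneg hρ0]
          apply ENNReal.ofReal_le_ofReal
          unfold gap at hρ
          linarith
      _ ≤ Φ.op^[T] (e 0) x + ENNReal.ofReal ρ := by gcongr; exact hincT _ _ (bot_le x)
  have hdep : DependsOn (fun x : Config d Bool => ENNReal.ofReal ρ * cnt B x) (B : Set (Site d)) := by
    intro x y hxy
    show ENNReal.ofReal ρ * cnt B x = ENNReal.ofReal ρ * cnt B y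
    rw [cnt_dependsOn B hxy]
  have h := dom_iterate R hB hdep hdom n bot top (bot_le _)
  have e1 : ∀ b : Bool, Φ.op^[n] (fun x => ENNReal.ofReal ρ * cnt B x) (fun _ => b) =
      ENNReal.ofReal ρ * (B.card * Φ.op^[n] (e 0) (fun _ => b)) := by
    intro b
    rw [op_iterate_mul _ (cnt_dependsOn B), op_iterate_cnt]
    congr 1
    rw [Finset.sum_congr rfl (fun i _ => op_iterate_e i n b), Finset.sum_const, nsmul_eq_mul]
  have e2 : ∀ b : Bool, Φ.op^[n] (Φ.op^[T] (e 0)) (fun _ => b) = Φ.op^[n + T] (e 0) (fun _ => b) := by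
    intro b
    rw [Function.iterate_add_apply]
  have h' : Φ.op^[n + T] (e 0) top + ENNReal.ofReal ρ * (B.card * Φ.op^[n] (e 0) bot) ≤
      Φ.op^[n + T] (e 0) bot + ENNReal.ofReal ρ * (B.card * Φ.op^[n] (e 0) top) := by
    have := h
    rw [show (bot : Config d Bool) = fun _ => false from rfl,
      show (top : Config d Bool) = fun _ => true from rfl, e1, e1, e2, e2] at this
    exact this
  have hfin : ∀ b : Bool, ENNReal.ofReal ρ * (B.card * Φ.op^[n] (e 0) (fun _ => b)) ≠ ∞ :=
    fun b => ENNReal.mul_ne_top ENNReal.ofReal_ne_top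
      (ENNReal.mul_ne_top (ENNReal.natCast_ne_top _) (fin_e n 0 _))
  have hft : ENNReal.ofReal ρ * (B.card * Φ.op^[n] (e 0) top) ≠ ∞ := hfin true
  have hfb : ENNReal.ofReal ρ * (B.card * Φ.op^[n] (e 0) bot) ≠ ∞ := hfin false
  have h2 := ENNReal.toReal_mono (ENNReal.add_ne_top.2 ⟨fin_e (n + T) 0 bot, hft⟩) h'
  rw [ENNReal.toReal_add (fin_e (n + T) 0 _) hfb,
    ENNReal.toReal_add (fin_e (n + T) 0 _) hft, ENNReal.toReal_mul, ENNReal.toReal_mul,
    ENNReal.toReal_mul, ENNReal.toReal_mul, ENNReal.toReal_ofReal hρ0, ENNReal.toReal_natCast] at h2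
  unfold gap
  nlinarith [h2]

include R in
theorem gap_tendsto {T : ℕ} (B : Finset (Site d))
    (hB : DependsOn (Φ.op^[T] (e 0)) (B : Set (Site d)))
    {ρ : ℝ} (hρ : gap Φ T ≤ ρ) (hlt : ρ * B.card < 1) : Tendsto (gap Φ) atTop (𝓝 0) := by
  have hρ0 : 0 ≤ ρ := (gap_nonneg R T).trans hρ
  have hκ : 0 ≤ ρ * B.card := by positivity
  have h1 : ∀ k : ℕ, gap Φ (k * T) ≤ (ρ * B.card) ^ k := by
    intro k
    induction k with
    | zero => simpa using gap_le_one (Φ := Φ) 0
    | succ k ih =>
      have := gap_add R T B hB hρ (k * T)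
      rw [Nat.succ_mul, pow_succ]
      calc gap Φ (k * T + T) ≤ ρ * B.card * gap Φ (k * T) := this
        _ ≤ ρ * B.card * (ρ * B.card) ^ k := mul_le_mul_of_nonneg_left ih hκ
        _ = _ := by ring
  have h2 : Tendsto (fun k : ℕ => (ρ * (B.card : ℝ)) ^ k) atTop (𝓝 0) :=
    tendsto_pow_atTop_nhds_zero_of_lt_one hκ hlt
  rw [Metric.tendsto_atTop]
  intro ε hε
  obtain ⟨k, hk⟩ := (h2.eventually_lt_const hε).exists
  refine ⟨k * T, fun n hn => ?_⟩
  rw [Real.dist_eq, sub_zero, abs_of_nonneg (gap_nonneg R n)]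
  exact ((gap_anti R hn).trans (h1 k)).trans_lt hk


/-! ### Cylinders -/

include R in
theorem dom_real {f : Config d Bool → ℝ≥0∞} {A : Finset (Site d)} (hA : DependsOn f A)
    (h1 : ∀ x, f x ≤ 1) (n : ℕ) (x : Config d Bool) :
    (Φ.op^[n] f top).toReal ≤ (Φ.op^[n] f x).toReal + A.card * gap Φ n := by
  have hdom : Dom f (fun x => 1 * cnt A x) := dom_cnt hA 1 (fun x y _ =>
    (h1 y).trans le_add_self)
  have hdep : DependsOn (fun x : Config d Bool => 1 * cnt A x) (A : Set (Site d)) := by
    intro x y hxy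
    show 1 * cnt A x = 1 * cnt A y
    rw [cnt_dependsOn A hxy]
  have h := dom_iterate R hA hdep hdom n x top (le_top x)
  rw [op_iterate_mul _ (cnt_dependsOn A), op_iterate_mul _ (cnt_dependsOn A), one_mul, one_mul,
    op_iterate_cnt, op_iterate_cnt] at h
  have hfin : ∀ y, Φ.op^[n] f y ≠ ∞ := fun y =>
    ((Φ.op_iterate_le_one h1 n y).trans_lt ENNReal.one_lt_top).ne
  have hfc : ∀ y, ∑ i ∈ A, Φ.op^[n] (e i) y ≠ ∞ := fun y =>
    (ENNReal.sum_lt_top.2 fun i _ => (fin_e n i y).lt_top).ne
  have h2 := ENNReal.toReal_mono (ENNReal.add_ne_top.2 ⟨hfin x, hfc top⟩) h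
  rw [ENNReal.toReal_add (hfin top) (hfc x), ENNReal.toReal_add (hfin x) (hfc top),
    ENNReal.toReal_sum (fun i _ => fin_e n i x), ENNReal.toReal_sum (fun i _ => fin_e n i top)] at h2
  have h3 : ∀ i ∈ A, (Φ.op^[n] (e i) top).toReal - (Φ.op^[n] (e i) x).toReal ≤ gap Φ n := by
    intro i _
    unfold gap
    have a1 : Φ.op^[n] (e i) top = Φ.op^[n] (e 0) top := op_iterate_e i n true
    have a2 : Φ.op^[n] (e i) bot = Φ.op^[n] (e 0) bot := op_iterate_e i n false
    have a3 := ENNReal.toReal_mono (fin_e n i x)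
      (inc_iterate R (e_dependsOn i) (e_inc i) n _ _ (bot_le x))
    rw [a1, ← a2]
    linarith
  have h4 := Finset.sum_le_sum h3
  rw [Finset.sum_sub_distrib, Finset.sum_const, nsmul_eq_mul] at h4
  linarith

include R in
theorem ind_close (A : Finset (Site d)) (u : A → Bool) (n : ℕ) (x : Config d Bool) :
    |(Φ.op^[n] (ind A u) x).toReal - (Φ.op^[n] (ind A u) top).toReal| ≤ A.card * gap Φ n := by
  have hA : DependsOn (ind A u) (A : Set (Site d)) := dependsOn_cyl A u
  have h1 : ∀ x, ind A u x ≤ 1 := fun x => by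
    unfold ind Set.indicator; split_ifs <;> simp
  have hc : DependsOn (fun x => 1 - ind A u x) (A : Set (Site d)) := by
    intro x y hxy
    show 1 - ind A u x = 1 - ind A u y
    rw [hA hxy]
  have hsum : ∀ y, (Φ.op^[n] (fun x => 1 - ind A u x) y).toReal =
      1 - (Φ.op^[n] (ind A u) y).toReal := by
    intro y
    have e1 : (fun x => (1 - ind A u x) + ind A u x) = fun _ : Config d Bool => (1 : ℝ≥0∞) := by
      funext x
      exact tsub_add_cancel_of_le (h1 x)
    have e2 := op_iterate_add (Φ := Φ) hc hA n y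
    rw [e1, op_iterate_const] at e2
    have f1 : Φ.op^[n] (fun x => 1 - ind A u x) y ≠ ∞ :=
      ((Φ.op_iterate_le_one (fun x => tsub_le_self) n y).trans_lt ENNReal.one_lt_top).ne
    have f2 : Φ.op^[n] (ind A u) y ≠ ∞ :=
      ((Φ.op_iterate_le_one h1 n y).trans_lt ENNReal.one_lt_top).ne
    have e3 := congrArg ENNReal.toReal e2
    rw [ENNReal.toReal_add f1 f2, ENNReal.toReal_one] at e3
    linarith
  have k1 := dom_real R hA h1 n x
  have k2 := dom_real R hc (fun x => tsub_le_self) n x
  rw [hsum, hsum] at k2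
  rw [abs_le]
  constructor <;> linarith

theorem evolve_cyl (ν : Measure (Config d Bool)) [IsProbabilityMeasure ν] (A : Finset (Site d))
    (u : A → Bool) (n : ℕ) :
    ((Φ.evolve^[n] ν) (cyl A u)).toReal = ∫ x, (Φ.op^[n] (ind A u) x).toReal ∂ν := by
  have hA : DependsOn (ind A u) (A : Set (Site d)) := dependsOn_cyl A u
  have h1 : ∀ x, ind A u x ≤ 1 := fun x => by
    unfold ind Set.indicator; split_ifs <;> simp
  rw [← lintegral_ind, Φ.lintegral_iterate ν n hA,
    integral_toReal (PCA.measurable_of_dependsOn (Φ.op_iterate_dependsOn n hA)).aemeasurable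
      (Eventually.of_forall fun x => (Φ.op_iterate_le_one h1 n x).trans_lt ENNReal.one_lt_top)]

include R in
theorem evolve_close (ν : Measure (Config d Bool)) [IsProbabilityMeasure ν] (A : Finset (Site d))
    (u : A → Bool) (n : ℕ) :
    |((Φ.evolve^[n] ν) (cyl A u)).toReal - (Φ.op^[n] (ind A u) top).toReal| ≤
      A.card * gap Φ n := by
  have hA : DependsOn (ind A u) (A : Set (Site d)) := dependsOn_cyl A u
  have h1 : ∀ x, ind A u x ≤ 1 := fun x => by
    unfold ind Set.indicator; split_ifs <;> simp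
  rw [evolve_cyl]
  have hint : Integrable (fun x => (Φ.op^[n] (ind A u) x).toReal) ν := by
    apply Integrable.of_bound
      (PCA.measurable_of_dependsOn (Φ.op_iterate_dependsOn n hA)).ennreal_toReal.aestronglyMeasurable 1
    filter_upwards with x
    rw [Real.norm_eq_abs, abs_of_nonneg ENNReal.toReal_nonneg]
    have := ENNReal.toReal_mono ENNReal.one_ne_top (Φ.op_iterate_le_one h1 n x)
    simpa using this
  have e1 : (∫ x, (Φ.op^[n] (ind A u) x).toReal ∂ν) - (Φ.op^[n] (ind A u) top).toReal =
      ∫ x, ((Φ.op^[n] (ind A u) x).toReal - (Φ.op^[n] (ind A u) top).toReal) ∂ν := by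
    rw [integral_sub hint (integrable_const _)]; simp
  rw [e1, ← Real.norm_eq_abs]
  have := norm_integral_le_of_norm_le_const (μ := ν) (C := A.card * gap Φ n)
    (f := fun x => (Φ.op^[n] (ind A u) x).toReal - (Φ.op^[n] (ind A u) top).toReal)
    (Eventually.of_forall fun x => by rw [Real.norm_eq_abs]; exact ind_close R A u n x)
  simpa using this

include R in
/-- A vanishing gap implies ergodicity. -/
theorem ergodic_of_gap (h : Tendsto (gap Φ) atTop (𝓝 0)) :
    ∃ π : Measure (Config d Bool), ErgodicWith Φ π := by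
  -- the trajectory of the full configuration
  set P : ℕ → ProbabilityMeasure (Config d Bool) := fun n =>
    ⟨Φ.evolve^[n] (Measure.dirac top), Φ.isProbabilityMeasure_iterate _ n⟩ with hP
  obtain ⟨π, hπ⟩ : ∃ π : ProbabilityMeasure (Config d Bool),
      Tendsto P (hyperfilter ℕ) (𝓝 π) := by
    let 𝒰 : Ultrafilter (ProbabilityMeasure (Config d Bool)) := (hyperfilter ℕ).map P
    exact ⟨𝒰.lim, 𝒰.le_nhds_lim⟩
  have hp : IsProbabilityMeasure (π : Measure (Config d Bool)) := π.2
  refine ⟨(π : Measure (Config d Bool)), ergodicWith_of_cylinders Φ _ (fun μ hμ A u => ?_)⟩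
  set F : ℕ → ℝ := fun n => (Φ.op^[n] (ind A u) top).toReal with hF
  have hcard : Tendsto (fun n => (A.card : ℝ) * gap Φ n) atTop (𝓝 0) := by
    simpa using h.const_mul (A.card : ℝ)
  -- `F` is a Cauchy sequence
  have hC : ∀ n m, |F (n + m) - F n| ≤ A.card * gap Φ n := by
    intro n m
    have hpm := Φ.isProbabilityMeasure_iterate (Measure.dirac (top : Config d Bool)) m
    have k1 := evolve_close R (Φ.evolve^[m] (Measure.dirac (top : Config d Bool))) A u n
    rw [← Function.iterate_add_apply] at k1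
    have k2 : ((Φ.evolve^[n + m] (Measure.dirac (top : Config d Bool))) (cyl A u)).toReal =
        F (n + m) := by
      rw [evolve_cyl, integral_dirac']
      exact (PCA.measurable_of_dependsOn
        (Φ.op_iterate_dependsOn (n + m) (dependsOn_cyl A u))).ennreal_toReal.stronglyMeasurable
    rw [k2] at k1
    exact k1
  have hcau : CauchySeq F := by
    rw [Metric.cauchySeq_iff']
    intro ε hε
    obtain ⟨N, hN⟩ := (hcard.eventually_lt_const hε).exists
    refine ⟨N, fun n hn => ?_⟩
    rw [Real.dist_eq]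
    have := hC N (n - N)
    rw [Nat.add_sub_cancel' hn] at this
    exact this.trans_lt hN
  obtain ⟨c, hc⟩ := cauchySeq_tendsto_of_complete hcau
  have hPn : ∀ n, ((P n : Measure (Config d Bool)) (cyl A u)).toReal = F n := by
    intro n
    show ((Φ.evolve^[n] (Measure.dirac (top : Config d Bool))) (cyl A u)).toReal = F n
    rw [evolve_cyl, integral_dirac']
    exact (PCA.measurable_of_dependsOn
      (Φ.op_iterate_dependsOn n (dependsOn_cyl A u))).ennreal_toReal.stronglyMeasurable
  have hπC : ((π : Measure (Config d Bool)) (cyl A u)).toReal = c := by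
    have h1 := ProbabilityMeasure.tendsto_measure_of_null_frontier_of_tendsto' hπ
      (E := cyl A u) (by rw [(isClopen_cyl A u).frontier_eq]; exact measure_empty)
    have h2 := (ENNReal.tendsto_toReal (measure_ne_top _ _)).comp h1
    have h3 : Tendsto F (hyperfilter ℕ) (𝓝 c) := hc.mono_left Nat.hyperfilter_le_atTop
    refine tendsto_nhds_unique (h2.congr (fun n => ?_)) h3
    exact hPn n
  have hlim : Tendsto (fun n => ((Φ.evolve^[n] μ) (cyl A u)).toReal) atTop (𝓝 c) := by
    have h1 : Tendsto (fun n => ((Φ.evolve^[n] μ) (cyl A u)).toReal - F n) atTop (𝓝 0) := by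
      apply squeeze_zero_norm (fun n => ?_) hcard
      rw [Real.norm_eq_abs]
      exact evolve_close R μ A u n
    have h2 := h1.add hc
    simpa using h2
  have hpn : ∀ n, IsProbabilityMeasure (Φ.evolve^[n] μ) := fun n =>
    Φ.isProbabilityMeasure_iterate μ n
  rw [← hπC] at hlim
  have := ENNReal.tendsto_ofReal hlim
  rw [ENNReal.ofReal_toReal (measure_ne_top _ _)] at this
  refine this.congr (fun n => ?_)
  exact ENNReal.ofReal_toReal (measure_ne_top _ _)

end Pool.Agent.H443R3.Attractive
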