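import Mathlib

set_option autoImplicit false

/-!
# The one-dependent 4-colouring of Holroyd and Liggett: combinatorics

`b w` counts the ways of building the word `w` by successive insertions, all intermediate words
being proper.
-/

namespace Pool.Agent.H443R3.HL

/-- A word is proper if adjacent letters differ. -/
def Proper (w : List (Fin 4)) : Prop := List.IsChain (· ≠ ·) w

instance (w : List (Fin 4)) : Decidable (Proper w) := by unfold Proper; infer_instance

/-- Sum of `f` over all deletions of one letter. -/
def sdel : (List (Fin 4) → ℝ) → List (Fin 4) → ℝ
  | _, [] => 0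
  | f, a :: l => f l + sdel (fun m => f (a :: m)) l

theorem sdel_append (f : List (Fin 4) → ℝ) (x y : List (Fin 4)) :
    sdel f (x ++ y) = sdel (fun m => f (m ++ y)) x + sdel (fun m => f (x ++ m)) y := by
  induction x generalizing f with
  | nil => simp [sdel]
  | cons a x ih =>
    simp only [List.cons_append, sdel]
    rw [ih]
    ring

theorem sdel_congr {f g : List (Fin 4) → ℝ} (x : List (Fin 4))
    (h : ∀ m, m.length + 1 = x.length → f m = g m) : sdel f x = sdel g x := by
  induction x generalizing f g with
  | nil => rfl
  | cons a x ih =>
    simp only [sdel]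
    rw [h x (by simp), ih]
    intro m hm
    apply h
    simp [hm]

theorem sdel_zero (x : List (Fin 4)) : sdel (fun _ => 0) x = 0 := by
  induction x with
  | nil => rfl
  | cons a x ih => simp only [sdel, ih]; ring

theorem sdel_mul (c : ℝ) (f : List (Fin 4) → ℝ) (x : List (Fin 4)) :
    sdel (fun m => c * f m) x = c * sdel f x := by
  induction x generalizing f with
  | nil => simp [sdel]
  | cons a x ih => simp only [sdel]; rw [ih]; ring

theorem sdel_sum (f : Fin 4 → List (Fin 4) → ℝ) (x : List (Fin 4)) :
    ∑ a, sdel (f a) x = sdel (fun m => ∑ a, f a m) x := by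
  induction x generalizing f with
  | nil => simp [sdel]
  | cons c x ih =>
    simp only [sdel]
    rw [Finset.sum_add_distrib, ih]

theorem sdel_nonneg (f : List (Fin 4) → ℝ) (hf : ∀ m, 0 ≤ f m) (x : List (Fin 4)) :
    0 ≤ sdel f x := by
  induction x generalizing f with
  | nil => simp [sdel]
  | cons a x ih => simp only [sdel]; exact add_nonneg (hf _) (ih _ (fun m => hf _))

/-- Fuelled definition. -/
def B : ℕ → List (Fin 4) → ℝ
  | 0, _ => 1
  | n + 1, w => if Proper w then sdel (B n) w else 0

/-- Number of buildings of a word. -/
def b (w : List (Fin 4)) : ℝ := B w.length w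

theorem B_nonneg (n : ℕ) (w : List (Fin 4)) : 0 ≤ B n w := by
  induction n generalizing w with
  | zero => simp [B]
  | succ n ih =>
    simp only [B]
    split_ifs
    · exact sdel_nonneg _ ih w
    · exact le_rfl

theorem b_nonneg (w : List (Fin 4)) : 0 ≤ b w := B_nonneg _ _

theorem b_nil : b [] = 1 := rfl

theorem b_of_proper {w : List (Fin 4)} (hw : w ≠ []) (hp : Proper w) : b w = sdel b w := by
  obtain ⟨a, l, rfl⟩ := List.exists_cons_of_ne_nil hw
  unfold b
  simp only [List.length_cons, B]
  rw [if_pos hp]
  apply sdel_congr
  intro m hm
  simp only [List.length_cons] at hm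
  have : m.length = l.length := by omega
  rw [this]

theorem b_of_not_proper {w : List (Fin 4)} (hp : ¬ Proper w) : b w = 0 := by
  have hw : w ≠ [] := by
    rintro rfl
    apply hp
    simp [Proper]
  obtain ⟨a, l, rfl⟩ := List.exists_cons_of_ne_nil hw
  unfold b
  simp only [List.length_cons, B]
  rw [if_neg hp]

theorem not_proper_double (x y : List (Fin 4)) (a : Fin 4) : ¬ Proper (x ++ a :: a :: y) := by
  unfold Proper
  intro h
  rw [List.isChain_append] at h
  have := h.2.1
  simp at this

theorem proper_mid {x y : List (Fin 4)} {a : Fin 4} (hx : Proper x) (hy : Proper y)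
    (h1 : x.getLast? ≠ some a) (h2 : y.head? ≠ some a) : Proper (x ++ a :: y) := by
  unfold Proper at *
  rw [List.isChain_append, List.isChain_cons]
  refine ⟨hx, ⟨?_, hy⟩, ?_⟩
  · intro c hc
    rintro rfl
    exact h2 hc
  · intro c hc d hd
    simp only [List.head?_cons, Option.mem_def, Option.some.injEq] at hd
    subst hd
    rintro rfl
    exact h1 hc

theorem not_proper_left {x y : List (Fin 4)} (h : ¬ Proper x) : ¬ Proper (x ++ y) := by
  intro h'
  exact h (List.isChain_append.1 h').1

theorem not_proper_right {x y : List (Fin 4)} (h : ¬ Proper y) : ¬ Proper (x ++ y) := by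
  intro h'
  exact h (List.isChain_append.1 h').2.1

/-- The identity for a single inserted letter. -/
theorem b_mid {x y : List (Fin 4)} (hx : Proper x) (hy : Proper y) (a : Fin 4) :
    b (x ++ a :: y) = sdel (fun m => b (m ++ a :: y)) x + sdel (fun m => b (x ++ a :: m)) y +
      (1 - 2 * (if x.getLast? = some a then 1 else 0) -
        2 * (if y.head? = some a then 1 else 0)) * b (x ++ y) := by
  by_cases h1 : x.getLast? = some a
  · obtain ⟨x', rfl⟩ : ∃ x', x = x' ++ [a] := by
      rw [List.getLast?_eq_some_iff] at h1
      exact h1
    have e0 : b (x' ++ [a] ++ a :: y) = 0 := by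
      apply b_of_not_proper
      have := not_proper_double x' y a
      simpa using this
    have e1 : sdel (fun m => b (m ++ a :: y)) (x' ++ [a]) = b (x' ++ [a] ++ y) := by
      rw [sdel_append]
      have : (fun m => b (m ++ [a] ++ a :: y)) = fun _ => (0 : ℝ) := by
        funext m
        apply b_of_not_proper
        have := not_proper_double m y a
        simpa using this
      rw [this, sdel_zero]
      simp [sdel]
    have e2 : sdel (fun m => b (x' ++ [a] ++ a :: m)) y = 0 := by
      have : (fun m => b (x' ++ [a] ++ a :: m)) = fun _ => (0 : ℝ) := by
        funext m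
        apply b_of_not_proper
        have := not_proper_double x' m a
        simpa using this
      rw [this, sdel_zero]
    rw [e0, e1, e2, if_pos h1]
    by_cases h2 : y.head? = some a
    · obtain ⟨y', rfl⟩ : ∃ y', y = a :: y' := by
        cases y with
        | nil => simp at h2
        | cons c y' => simp only [List.head?_cons, Option.some.injEq] at h2; exact ⟨y', by rw [h2]⟩
      have e3 : b (x' ++ [a] ++ a :: y') = 0 := by
        apply b_of_not_proper
        have := not_proper_double x' y' a
        simpa using this
      rw [e3]; ring
    · rw [if_neg h2]; ring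
  · by_cases h2 : y.head? = some a
    · obtain ⟨y', rfl⟩ : ∃ y', y = a :: y' := by
        cases y with
        | nil => simp at h2
        | cons c y' => simp only [List.head?_cons, Option.some.injEq] at h2; exact ⟨y', by rw [h2]⟩
      have e0 : b (x ++ a :: a :: y') = 0 := b_of_not_proper (not_proper_double x y' a)
      have e1 : sdel (fun m => b (m ++ a :: a :: y')) x = 0 := by
        have : (fun m => b (m ++ a :: a :: y')) = fun _ => (0 : ℝ) := by
          funext m
          exact b_of_not_proper (not_proper_double m y' a)
        rw [this, sdel_zero]
      have e2 : sdel (fun m => b (x ++ a :: m)) (a :: y') = b (x ++ a :: y') := by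
        simp only [sdel]
        have : (fun m => b (x ++ a :: a :: m)) = fun _ => (0 : ℝ) := by
          funext m
          exact b_of_not_proper (not_proper_double x m a)
        rw [this, sdel_zero, add_zero]
      rw [e0, e1, e2, if_neg h1, if_pos h2]
      ring
    · have hp := proper_mid hx hy h1 h2
      rw [b_of_proper (by simp) hp, sdel_append]
      simp only [sdel]
      rw [if_neg h1, if_neg h2]
      ring

theorem sum_ite_option (o : Option (Fin 4)) :
    ∑ a : Fin 4, (if o = some a then (1 : ℝ) else 0) = if o = none then 0 else 1 := by
  cases o with
  | none => simp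
  | some c => simp

theorem T_rec {x y : List (Fin 4)} (hx : Proper x) (hy : Proper y) :
    ∑ a, b (x ++ a :: y) = sdel (fun m => ∑ a, b (m ++ a :: y)) x +
      sdel (fun m => ∑ a, b (x ++ a :: m)) y +
      (4 - 2 * (if x = [] then 0 else 1) - 2 * (if y = [] then 0 else 1)) * b (x ++ y) := by
  have h1 := sum_ite_option x.getLast?
  have h2 := sum_ite_option y.head?
  simp only [List.getLast?_eq_none_iff, List.head?_eq_none_iff] at h1 h2
  calc ∑ a, b (x ++ a :: y) = ∑ a, (sdel (fun m => b (m ++ a :: y)) x +
        sdel (fun m => b (x ++ a :: m)) y +
      (1 - 2 * (if x.getLast? = some a then 1 else 0) -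
        2 * (if y.head? = some a then 1 else 0)) * b (x ++ y)) :=
        Finset.sum_congr rfl (fun a _ => b_mid hx hy a)
    _ = _ := by
      rw [Finset.sum_add_distrib, Finset.sum_add_distrib, sdel_sum, sdel_sum, ← Finset.sum_mul,
        Finset.sum_sub_distrib, Finset.sum_sub_distrib, ← Finset.mul_sum, ← Finset.mul_sum, h1, h2]
      simp

theorem T_eq (s : ℕ) : ∀ x y : List (Fin 4), x.length + y.length = s →
    ∑ a, b (x ++ a :: y) = 2 * ((s + 2).choose (x.length + 1) : ℝ) * b x * b y := by
  induction s with
  | zero =>
    intro x y h
    have hx : x = [] := List.length_eq_zero_iff.1 (by omega)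
    have hy : y = [] := List.length_eq_zero_iff.1 (by omega)
    subst hx hy
    rw [T_rec (by simp [Proper]) (by simp [Proper])]
    simp [sdel, b_nil]
    norm_num
  | succ s ih =>
    intro x y h
    by_cases hx : Proper x
    · by_cases hy : Proper y
      · rw [T_rec hx hy]
        rcases List.eq_nil_or_concat x with rfl | ⟨x', l, rfl⟩
        · -- `x = []`
          simp only [List.length_nil, zero_add] at h
          have hy0 : y ≠ [] := by rintro rfl; simp at h
          have e1 : sdel (fun m => ∑ a, b ([] ++ a :: m)) y =
              sdel (fun m => (2 * ((s + 2).choose 1 : ℝ)) * b m) y := by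
            apply sdel_congr
            intro m hm
            rw [ih [] m (by simp; omega)]
            simp [b_nil]
          rw [e1, sdel_mul, ← b_of_proper hy0 hy]
          simp only [sdel, List.length_nil, List.nil_append, b_nil, if_true, if_neg hy0]
          rw [Nat.choose_one_right, show (0 + 1 : ℕ) = 1 from rfl, Nat.choose_one_right]
          push_cast
          ring
        · by_cases hy0 : y = []
          · subst hy0
            have hx0 : x'.concat l ≠ [] := by simp
            have hlen : (x'.concat l).length = s + 1 := by simpa using h
            have e1 : sdel (fun m => ∑ a, b (m ++ a :: [])) (x'.concat l) =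
                sdel (fun m => (2 * ((s + 2).choose (s + 1) : ℝ)) * b m) (x'.concat l) := by
              apply sdel_congr
              intro m hm
              rw [hlen] at hm
              have hm' : m.length = s := by omega
              rw [ih m [] (by simpa using hm')]
              rw [hm']
              simp [b_nil]
            rw [e1, sdel_mul, ← b_of_proper hx0 hx]
            simp only [sdel, List.append_nil, b_nil, if_neg hx0, if_true, hlen]
            rw [show s + 1 + 2 = (s + 1 + 1) + 1 from rfl, Nat.choose_succ_self_right,
              show s + 2 = (s + 1) + 1 from rfl, Nat.choose_succ_self_right]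
            push_cast
            ring
          · have hx0 : x'.concat l ≠ [] := by simp
            set x := x'.concat l with hxdef
            have hxl : 0 < x.length := List.length_pos_iff.2 hx0
            have e1 : sdel (fun m => ∑ a, b (m ++ a :: y)) x =
                sdel (fun m => (2 * ((s + 2).choose (x.length) : ℝ) * b y) * b m) x := by
              apply sdel_congr
              intro m hm
              rw [ih m y (by omega), hm]
              ring
            have e2 : sdel (fun m => ∑ a, b (x ++ a :: m)) y =
                sdel (fun m => (2 * ((s + 2).choose (x.length + 1) : ℝ) * b x) * b m) y := by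
              apply sdel_congr
              intro m hm
              rw [ih x m (by omega)]
            have hc : (((s + 1 + 2).choose (x.length + 1) : ℕ) : ℝ) =
                ((s + 2).choose x.length : ℝ) + ((s + 2).choose (x.length + 1) : ℝ) := by
              exact_mod_cast Nat.choose_succ_succ (s + 2) x.length
            rw [e1, e2, sdel_mul, sdel_mul, ← b_of_proper hx0 hx, ← b_of_proper hy0 hy,
              if_neg hx0, if_neg hy0, hc]
            ring
      · rw [b_of_not_proper hy]
        rw [Finset.sum_eq_zero]
        · ring
        · intro a _
          apply b_of_not_proper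
          have : x ++ a :: y = (x ++ [a]) ++ y := by simp
          rw [this]
          exact not_proper_right hy
    · rw [b_of_not_proper hx]
      rw [Finset.sum_eq_zero]
      · ring
      · intro a _
        exact b_of_not_proper (not_proper_left hx)

/-- The probability of a word. -/
noncomputable def p (w : List (Fin 4)) : ℝ := b w / (2 ^ w.length * (w.length + 1).factorial)

theorem p_nonneg (w : List (Fin 4)) : 0 ≤ p w := by
  unfold p
  have := b_nonneg w
  positivity

theorem p_nil : p [] = 1 := by simp [p, b_nil]

theorem p_of_not_proper {w : List (Fin 4)} (h : ¬ Proper w) : p w = 0 := by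
  unfold p; rw [b_of_not_proper h]; simp

/-- One-dependence of the colouring. -/
theorem p_mid (x y : List (Fin 4)) : ∑ a, p (x ++ a :: y) = p x * p y := by
  have h := T_eq (x.length + y.length) x y rfl
  unfold p
  have e : ∀ a : Fin 4, (x ++ a :: y).length = x.length + y.length + 1 := by
    intro a; simp; omega
  simp only [e]
  rw [← Finset.sum_div, h]
  have hc := Nat.choose_mul_factorial_mul_factorial
    (show x.length + 1 ≤ x.length + y.length + 2 by omega)
  have hsub : x.length + y.length + 2 - (x.length + 1) = y.length + 1 := by omega
  rw [hsub] at hc
  have hc' : (((x.length + y.length + 2).choose (x.length + 1) : ℕ) : ℝ) *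
      ((x.length + 1).factorial : ℝ) * ((y.length + 1).factorial : ℝ) =
      ((x.length + y.length + 1 + 1).factorial : ℝ) := by
    exact_mod_cast hc
  rw [← hc']
  have h1 : ((x.length + 1).factorial : ℝ) ≠ 0 := by positivity
  have h2 : ((y.length + 1).factorial : ℝ) ≠ 0 := by positivity
  have h3 : (((x.length + y.length + 2).choose (x.length + 1) : ℕ) : ℝ) ≠ 0 := by
    have : 0 < (x.length + y.length + 2).choose (x.length + 1) := Nat.choose_pos (by omega)
    exact_mod_cast this.ne'
  field_simp
  ring

theorem p_right (x : List (Fin 4)) : ∑ a, p (x ++ [a]) = p x := by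
  have := p_mid x []
  rw [p_nil, mul_one] at this
  exact this

theorem p_left (y : List (Fin 4)) : ∑ a, p (a :: y) = p y := by
  have := p_mid [] y
  rw [p_nil, one_mul] at this
  exact this

end Pool.Agent.H443R3.HL
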