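import Mathlib

set_option autoImplicit false

open MeasureTheory ProbabilityTheory Filter Topology
open scoped ENNReal

/-!
# Stationary finitely dependent sequences
-/

namespace Pool.Agent.H443R3.Seq

variable {α : Type*}

/-- Translation of sequences. -/
def tr (m : ℤ) (x : ℤ → α) : ℤ → α := fun i => x (i + m)

theorem tr_apply (m : ℤ) (x : ℤ → α) (i : ℤ) : tr m x i = x (i + m) := rfl

theorem tr_tr (m n : ℤ) (x : ℤ → α) : tr m (tr n x) = tr (m + n) x := by
  funext i
  simp only [tr]
  congr 1
  ring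

theorem tr_zero (x : ℤ → α) : tr 0 x = x := by
  funext i
  simp [tr]

variable [MeasurableSpace α]

theorem measurable_tr (m : ℤ) : Measurable (tr m : (ℤ → α) → (ℤ → α)) := by
  unfold tr
  fun_prop

/-- Stationarity. -/
def Stat (μ : Measure (ℤ → α)) : Prop := ∀ m : ℤ, μ.map (tr m) = μ

/-- The past up to `0` and the future from `D` on are independent. -/
def Dep (D : ℤ) (μ : Measure (ℤ → α)) : Prop :=
  ∀ f g : (ℤ → α) → ℝ≥0∞, Measurable f → Measurable g → DependsOn f (Set.Iic 0) →
    DependsOn g (Set.Ici D) → ∫⁻ x, f x * g x ∂μ = (∫⁻ x, f x ∂μ) * ∫⁻ x, g x ∂μ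

theorem Dep.mono {D D' : ℤ} {μ : Measure (ℤ → α)} (h : Dep D μ) (hD : D ≤ D') : Dep D' μ :=
  fun f g hf hg df dg => h f g hf hg df (fun _ _ hxy => dg (fun i hi => hxy i (le_trans hD hi)))

theorem measurable_of_dependsOn [Finite α] [MeasurableSingletonClass α] {β : Type*}
    [MeasurableSpace β] {f : (ℤ → α) → β} {F : Finset ℤ} (h : DependsOn f F) :
    Measurable f := by
  rcases isEmpty_or_nonempty (ℤ → α) with hE | hN
  · exact measurable_of_empty f
  · obtain ⟨x0⟩ := hN
    have : f = (fun z : F → α => f (fun i => if h : i ∈ F then z ⟨i, h⟩ else x0 i)) ∘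
        (fun x : ℤ → α => fun i : F => x i) := by
      funext x
      apply h
      intro i hi
      have hi' : i ∈ F := hi
      simp [hi']
    rw [this]
    have : DiscreteMeasurableSpace (F → α) := MeasurableSingletonClass.toDiscreteMeasurableSpace
    exact (Measurable.of_discrete).comp (by fun_prop)

theorem measurableSet_of_dependsOn [Finite α] [MeasurableSingletonClass α]
    {E : Set (ℤ → α)} {F : Finset ℤ} (h : DependsOn (fun x => x ∈ E) F) :
    MeasurableSet E :=
  measurableSet_setOfPred.2 (measurable_of_dependsOn (F := F) h)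

theorem lintegral_tr {μ : Measure (ℤ → α)} (h : Stat μ) (m : ℤ) {f : (ℤ → α) → ℝ≥0∞}
    (hf : Measurable f) : ∫⁻ x, f (tr m x) ∂μ = ∫⁻ x, f x ∂μ := by
  conv_rhs => rw [← h m]
  rw [lintegral_map hf (measurable_tr m)]

/-- Independence of random variables depending on the past and on the future. -/
theorem Dep.indepFun {D : ℤ} {μ : Measure (ℤ → α)} (h : Dep D μ) {G H : Type*}
    [MeasurableSpace G] [MeasurableSpace H] {φ : (ℤ → α) → G} {ψ : (ℤ → α) → H}
    (hφ : Measurable φ) (hψ : Measurable ψ) (dφ : DependsOn φ (Set.Iic 0))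
    (dψ : DependsOn ψ (Set.Ici D)) : IndepFun φ ψ μ := by
  rw [indepFun_iff_measure_inter_preimage_eq_mul]
  intro s t hs ht
  have key := h ((φ ⁻¹' s).indicator (fun _ => 1)) ((ψ ⁻¹' t).indicator (fun _ => 1))
    (measurable_const.indicator (hφ hs)) (measurable_const.indicator (hψ ht)) (by
      intro x y hxy
      have e := dφ hxy
      by_cases hy : y ∈ φ ⁻¹' s
      · have hx : x ∈ φ ⁻¹' s := by rw [Set.mem_preimage, e]; exact hy
        rw [Set.indicator_of_mem hx, Set.indicator_of_mem hy]
      · have hx : x ∉ φ ⁻¹' s := by rw [Set.mem_preimage, e]; exact hy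
        rw [Set.indicator_of_notMem hx, Set.indicator_of_notMem hy]) (by
      intro x y hxy
      have e := dψ hxy
      by_cases hy : y ∈ ψ ⁻¹' t
      · have hx : x ∈ ψ ⁻¹' t := by rw [Set.mem_preimage, e]; exact hy
        rw [Set.indicator_of_mem hx, Set.indicator_of_mem hy]
      · have hx : x ∉ ψ ⁻¹' t := by rw [Set.mem_preimage, e]; exact hy
        rw [Set.indicator_of_notMem hx, Set.indicator_of_notMem hy])
  have e1 : (fun x => (φ ⁻¹' s).indicator (fun _ => (1 : ℝ≥0∞)) x *
      (ψ ⁻¹' t).indicator (fun _ => (1 : ℝ≥0∞)) x) =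
      (φ ⁻¹' s ∩ ψ ⁻¹' t).indicator (fun _ => 1) := by
    funext x
    by_cases hx : x ∈ φ ⁻¹' s <;> by_cases hy : x ∈ ψ ⁻¹' t <;> simp [Set.indicator, hx, hy]
  rw [e1, lintegral_indicator ((hφ hs).inter (hψ ht)), lintegral_indicator (hφ hs),
    lintegral_indicator (hψ ht)] at key
  simpa using key

theorem dep_of_indepFun {D : ℤ} {μ : Measure (ℤ → α)}
    (h : IndepFun (fun (x : ℤ → α) (i : Set.Iic (0 : ℤ)) => x i)
      (fun (x : ℤ → α) (i : Set.Ici D) => x i) μ) : Dep D μ := by
  intro f g hf hg df dg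
  rcases isEmpty_or_nonempty α with hE | hN
  · have : IsEmpty (ℤ → α) := inferInstance
    have hμ : μ = 0 := by
      ext s
      have : s = ∅ := Set.eq_empty_of_isEmpty s
      simp [this]
    simp [hμ]
  · obtain ⟨a0⟩ := hN
    classical
    have e1 : f = (fun z : Set.Iic (0 : ℤ) → α =>
        f (fun i => if h : i ∈ Set.Iic (0 : ℤ) then z ⟨i, h⟩ else a0)) ∘
        (fun (x : ℤ → α) (i : Set.Iic (0 : ℤ)) => x i) := by
      funext x
      apply df
      intro i hi
      simp only [dif_pos hi]
    have e2 : g = (fun z : Set.Ici D → α =>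
        g (fun i => if h : i ∈ Set.Ici D then z ⟨i, h⟩ else a0)) ∘
        (fun (x : ℤ → α) (i : Set.Ici D) => x i) := by
      funext x
      apply dg
      intro i hi
      simp only [dif_pos hi]
    have m1 : Measurable (fun z : Set.Iic (0 : ℤ) → α =>
        f (fun i => if h : i ∈ Set.Iic (0 : ℤ) then z ⟨i, h⟩ else a0)) := by
      apply hf.comp
      rw [measurable_pi_iff]
      intro i
      by_cases hi : i ∈ Set.Iic (0 : ℤ)
      · simp only [dif_pos hi]; exact measurable_pi_apply _
      · simp only [dif_neg hi]; exact measurable_const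
    have m2 : Measurable (fun z : Set.Ici D → α =>
        g (fun i => if h : i ∈ Set.Ici D then z ⟨i, h⟩ else a0)) := by
      apply hg.comp
      rw [measurable_pi_iff]
      intro i
      by_cases hi : i ∈ Set.Ici D
      · simp only [dif_pos hi]; exact measurable_pi_apply _
      · simp only [dif_neg hi]; exact measurable_const
    have h3 : IndepFun f g μ := by
      rw [e1, e2]
      exact h.comp m1 m2
    exact lintegral_mul_eq_lintegral_mul_lintegral_of_indepFun hf hg h3

end Pool.Agent.H443R3.Seq
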