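import Mathlib
import Pool.Agent.H443R3.HL
import Pool.Agent.H443R3.Seq

set_option autoImplicit false

open MeasureTheory ProbabilityTheory Filter Topology
open scoped ENNReal

/-!
# The one-dependent 4-colouring of Holroyd and Liggett as a measure on `(Fin 4)^ℤ`
-/

namespace Pool.Agent.H443R3.Kappa

open Pool.Agent.H443R3.HL Pool.Agent.H443R3.Seq

/-- Iterated sum over all words of length `L`. -/
def sumW {M : Type*} [AddCommMonoid M] : ℕ → (List (Fin 4) → M) → M
  | 0, f => f []
  | L + 1, f => sumW L (fun w => ∑ a : Fin 4, f (w ++ [a]))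

variable {M : Type*} [AddCommMonoid M]

theorem sumW_congr (L : ℕ) {f g : List (Fin 4) → M} (h : ∀ w, w.length = L → f w = g w) :
    sumW L f = sumW L g := by
  induction L generalizing f g with
  | zero => exact h [] rfl
  | succ L ih =>
    simp only [sumW]
    apply ih
    intro w hw
    apply Finset.sum_congr rfl
    intro a _
    apply h
    simp [hw]

theorem sumW_left (L : ℕ) (f : List (Fin 4) → M) :
    sumW (L + 1) f = sumW L (fun w => ∑ a : Fin 4, f (a :: w)) := by
  induction L generalizing f with
  | zero => simp [sumW]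
  | succ L ih =>
    have e : sumW (L + 1 + 1) f = sumW (L + 1) (fun w => ∑ a : Fin 4, f (w ++ [a])) := rfl
    rw [e, ih]
    simp only [sumW]
    apply sumW_congr
    intro w _
    rw [Finset.sum_comm]
    rfl

theorem sumW_add (m n : ℕ) (f : List (Fin 4) → M) :
    sumW (m + n) f = sumW m (fun u => sumW n (fun v => f (u ++ v))) := by
  induction n generalizing f with
  | zero => simp [sumW]
  | succ n ih =>
    have e : sumW (m + (n + 1)) f = sumW (m + n) (fun w => ∑ a : Fin 4, f (w ++ [a])) := rfl
    rw [e, ih]
    apply sumW_congr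
    intro u _
    simp only [sumW]
    apply sumW_congr
    intro v _
    simp only [List.append_assoc]

theorem sumW_single (n : ℕ) (g : List (Fin 4) → M) (w : List (Fin 4)) (hw : w.length = n) :
    sumW n (fun v => if v = w then g v else 0) = g w := by
  induction n generalizing g w with
  | zero =>
    have : w = [] := List.length_eq_zero_iff.1 hw
    subst this
    simp [sumW]
  | succ n ih =>
    rcases List.eq_nil_or_concat w with rfl | ⟨w', c, rfl⟩
    · simp at hw
    · have hw' : w'.length = n := by simpa using hw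
      simp only [sumW, List.concat_eq_append]
      have e : (fun w => ∑ a : Fin 4, if w ++ [a] = w' ++ [c] then g (w ++ [a]) else 0) =
          fun w => if w = w' then g (w ++ [c]) else 0 := by
        funext w
        by_cases h : w = w'
        · subst h
          simp
        · rw [if_neg h]
          apply Finset.sum_eq_zero
          intro a _
          rw [if_neg]
          intro h'
          exact h (List.append_inj_left' h' rfl)
      rw [e]
      exact ih (fun v => g (v ++ [c])) w' hw'

theorem sumW_measure_apply {E : Type*} [MeasurableSpace E] (n : ℕ) (F : List (Fin 4) → Measure E)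
    (s : Set E) : (sumW n F) s = sumW n (fun w => F w s) := by
  induction n generalizing F with
  | zero => rfl
  | succ n ih =>
    simp only [sumW]
    rw [ih]
    apply sumW_congr
    intro w _
    rw [Measure.finsetSum_apply]

/-- Probability of a word, as an extended nonnegative real. -/
noncomputable def q (w : List (Fin 4)) : ℝ≥0∞ := ENNReal.ofReal (p w)

theorem q_nil : q [] = 1 := by simp [q, p_nil]

theorem q_mid (x y : List (Fin 4)) : ∑ a, q (x ++ a :: y) = q x * q y := by
  unfold q
  rw [← ENNReal.ofReal_sum_of_nonneg (fun a _ => p_nonneg _), p_mid,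
    ENNReal.ofReal_mul (p_nonneg x)]

theorem q_right (x : List (Fin 4)) : ∑ a, q (x ++ [a]) = q x := by
  have := q_mid x []
  rwa [q_nil, mul_one] at this

theorem q_left (y : List (Fin 4)) : ∑ a, q (a :: y) = q y := by
  have := q_mid [] y
  rwa [q_nil, one_mul] at this

theorem sumW_q_right (n : ℕ) (u : List (Fin 4)) : sumW n (fun v => q (u ++ v)) = q u := by
  induction n with
  | zero => simp [sumW]
  | succ n ih =>
    simp only [sumW]
    rw [← ih]
    apply sumW_congr
    intro w _
    have := q_right (u ++ w)
    simpa [List.append_assoc] using this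

theorem sumW_q_left (n : ℕ) (v : List (Fin 4)) : sumW n (fun u => q (u ++ v)) = q v := by
  induction n with
  | zero => simp [sumW]
  | succ n ih =>
    rw [sumW_left, ← ih]
    apply sumW_congr
    intro w _
    exact q_left (w ++ v)

/-- The window of length `n` starting at `a`. -/
def win (x : ℤ → Fin 4) (a : ℤ) (n : ℕ) : List (Fin 4) :=
  (List.range n).map (fun i : ℕ => x (a + i))

theorem win_length (x : ℤ → Fin 4) (a : ℤ) (n : ℕ) : (win x a n).length = n := by simp [win]

theorem win_getElem (x : ℤ → Fin 4) (a : ℤ) (n i : ℕ) (h : i < (win x a n).length) :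
    (win x a n)[i] = x (a + i) := by simp [win]

theorem win_getD (x : ℤ → Fin 4) (a : ℤ) (n i : ℕ) (h : i < n) :
    (win x a n).getD i 0 = x (a + i) := by
  rw [List.getD_eq_getElem _ _ (by rw [win_length]; exact h), win_getElem]

theorem win_append (x : ℤ → Fin 4) (a : ℤ) (m n : ℕ) :
    win x a (m + n) = win x a m ++ win x (a + m) n := by
  unfold win
  rw [List.range_add, List.map_append, List.map_map]
  congr 1
  apply List.map_congr_left
  intro i _
  simp only [Function.comp_apply]
  congr 1
  push_cast
  ring

theorem win_one (x : ℤ → Fin 4) (a : ℤ) : win x a 1 = [x a] := by simp [win]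

theorem win_tr (x : ℤ → Fin 4) (a m : ℤ) (n : ℕ) : win (tr m x) a n = win x (a + m) n := by
  unfold win tr
  apply List.map_congr_left
  intro i _
  congr 1
  ring

/-- Place a word with its first letter at `c`. -/
def place (c : ℤ) (w : List (Fin 4)) : ℤ → Fin 4 := fun k => w.getD (k - c).toNat 0

theorem win_place (c : ℤ) (w1 w2 w3 : List (Fin 4)) :
    win (place c (w1 ++ (w2 ++ w3))) (c + w1.length) w2.length = w2 := by
  apply List.ext_getElem
  · rw [win_length]
  · intro i h1 h2
    rw [win_getElem]
    unfold place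
    have e : (c + (w1.length : ℤ) + (i : ℤ) - c).toNat = w1.length + i := by omega
    rw [e, List.getD_append_right _ _ _ _ (by omega), List.getD_append _ _ _ _ (by omega)]
    have : w1.length + i - w1.length = i := by omega
    rw [this, List.getD_eq_getElem _ _ h2]

/-- The approximating measures. -/
noncomputable def nu (c : ℤ) (L : ℕ) : Measure (ℤ → Fin 4) :=
  sumW L (fun w => q w • Measure.dirac (place c w))

theorem measurableSet_win (a : ℤ) (n : ℕ) (w : List (Fin 4)) :
    MeasurableSet {x : ℤ → Fin 4 | win x a n = w} := by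
  apply measurableSet_of_dependsOn (F := Finset.Ico a (a + n))
  intro x y hxy
  have : win x a n = win y a n := by
    unfold win
    apply List.map_congr_left
    intro i hi
    apply hxy
    have := List.mem_range.1 hi
    exact Finset.mem_coe.2 (Finset.mem_Ico.2 ⟨by omega, by omega⟩)
  show (win x a n = w) = (win y a n = w)
  rw [this]

theorem nu_win (c : ℤ) (i m r : ℕ) (u : List (Fin 4)) (hu : u.length = m) :
    nu c (i + m + r) {x | win x (c + i) m = u} = q u := by
  unfold nu
  rw [sumW_measure_apply]
  have e1 : ∀ w : List (Fin 4), (q w • Measure.dirac (place c w)) {x | win x (c + i) m = u} =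
      q w * (if win (place c w) (c + i) m = u then 1 else 0) := by
    intro w
    rw [Measure.smul_apply, Measure.dirac_apply' _ (measurableSet_win _ _ _), smul_eq_mul]
    by_cases h : win (place c w) (c + i) m = u
    · rw [Set.indicator_of_mem (show place c w ∈ {x | win x (c + i) m = u} from h), if_pos h]; rfl
    · rw [Set.indicator_of_notMem (show place c w ∉ {x | win x (c + i) m = u} from h), if_neg h]
  simp only [e1]
  rw [add_assoc, sumW_add]
  have e2 : sumW i (fun w1 => sumW (m + r) (fun w' => q (w1 ++ w') *
      (if win (place c (w1 ++ w')) (c + i) m = u then 1 else 0))) =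
      sumW i (fun w1 => q (w1 ++ u)) := by
    apply sumW_congr
    intro w1 hw1
    rw [sumW_add]
    have e3 : sumW m (fun w2 => sumW r (fun w3 => q (w1 ++ (w2 ++ w3)) *
        (if win (place c (w1 ++ (w2 ++ w3))) (c + i) m = u then 1 else 0))) =
        sumW m (fun w2 => if w2 = u then q (w1 ++ w2) else 0) := by
      apply sumW_congr
      intro w2 hw2
      have e4 : ∀ w3, win (place c (w1 ++ (w2 ++ w3))) (c + i) m = w2 := by
        intro w3
        have := win_place c w1 w2 w3
        rwa [hw1, hw2] at this
      simp only [e4]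
      by_cases h : w2 = u
      · simp only [if_pos h, mul_one]
        have := sumW_q_right r (w1 ++ w2)
        simpa [List.append_assoc] using this
      · simp only [if_neg h, mul_zero]
        clear e4
        induction r with
        | zero => rfl
        | succ r ih =>
          simp only [sumW, Finset.sum_const_zero]
          exact ih
    rw [e3]
    exact sumW_single m (fun w2 => q (w1 ++ w2)) u hu
  rw [e2]
  exact sumW_q_left i u

instance (c : ℤ) (L : ℕ) : IsProbabilityMeasure (nu c L) := by
  constructor
  have h := nu_win c 0 0 L [] rfl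
  rw [q_nil] at h
  have e : {x : ℤ → Fin 4 | win x (c + (0 : ℕ)) 0 = []} = Set.univ := by
    ext x; simp [win]
  rw [e] at h
  rw [show (0 + 0 + L) = L by omega] at h
  exact h

theorem isClopen_of_dependsOn {E : Set (ℤ → Fin 4)} {F : Finset ℤ}
    (h : DependsOn (fun x => x ∈ E) (F : Set ℤ)) : IsClopen E := by
  have e : E = (fun (x : ℤ → Fin 4) (i : F) => x i) ⁻¹'
      {z : F → Fin 4 | (fun i => if h : i ∈ F then z ⟨i, h⟩ else 0 : ℤ → Fin 4) ∈ E} := by
    ext x
    have : (x ∈ E) = ((fun i => if h : i ∈ F then x i else 0 : ℤ → Fin 4) ∈ E) := by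
      apply h
      intro i hi
      have hi' : i ∈ F := hi
      simp [hi']
    rw [Set.mem_preimage]
    show x ∈ E ↔ ((fun i => if h : i ∈ F then x i else 0 : ℤ → Fin 4) ∈ E)
    rw [this]
  rw [e]
  apply IsClopen.preimage (isClopen_discrete _)
  fun_prop

theorem dependsOn_win (a : ℤ) (n : ℕ) (w : List (Fin 4)) :
    DependsOn (fun x : ℤ → Fin 4 => x ∈ {x : ℤ → Fin 4 | win x a n = w})
      ((Finset.Ico a (a + n) : Finset ℤ) : Set ℤ) := by
  intro x y hxy
  have : win x a n = win y a n := by
    unfold win
    apply List.map_congr_left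
    intro i hi
    apply hxy
    have := List.mem_range.1 hi
    exact Finset.mem_coe.2 (Finset.mem_Ico.2 ⟨by omega, by omega⟩)
  show (win x a n = w) = (win y a n = w)
  rw [this]

/-- The colouring exists as a measure on two-sided sequences. -/
theorem exists_kappa : ∃ κ : Measure (ℤ → Fin 4), IsProbabilityMeasure κ ∧
    ∀ (a : ℤ) (w : List (Fin 4)), κ {x | win x a w.length = w} = q w := by
  let P : ℕ → ProbabilityMeasure (ℤ → Fin 4) := fun n => ⟨nu (-n) (2 * n), inferInstance⟩
  let 𝒰 : Ultrafilter (ProbabilityMeasure (ℤ → Fin 4)) := (hyperfilter ℕ).map P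
  let κ := 𝒰.lim
  have hlim : Tendsto P (hyperfilter ℕ) (𝓝 κ) := 𝒰.le_nhds_lim
  refine ⟨κ, inferInstance, fun a w => ?_⟩
  have hclopen : IsClopen {x : ℤ → Fin 4 | win x a w.length = w} :=
    isClopen_of_dependsOn (dependsOn_win a w.length w)
  have h1 := ProbabilityMeasure.tendsto_measure_of_null_frontier_of_tendsto' hlim
    (E := {x : ℤ → Fin 4 | win x a w.length = w}) (by rw [hclopen.frontier_eq]; simp)
  have h2 : ∀ᶠ n : ℕ in (hyperfilter ℕ : Filter ℕ),
      (P n : Measure (ℤ → Fin 4)) {x : ℤ → Fin 4 | win x a w.length = w} = q w := by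
    have h3 : ∀ᶠ n : ℕ in atTop, (P n : Measure (ℤ → Fin 4)) {x : ℤ → Fin 4 | win x a w.length = w} = q w := by
      filter_upwards [eventually_ge_atTop (a.natAbs + w.length)] with n hn
      have e1 : a = -(n : ℤ) + ((a + n).toNat : ℤ) := by omega
      have h4 := nu_win (-(n : ℤ)) (a + n).toNat w.length (2 * n - (a + n).toNat - w.length) w rfl
      rw [← e1] at h4
      have e2 : (a + n).toNat + w.length + (2 * n - (a + n).toNat - w.length) = 2 * n := by omega
      rw [e2] at h4
      exact h4
    rw [← Nat.cofinite_eq_atTop] at h3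
    exact h3.filter_mono hyperfilter_le_cofinite
  exact tendsto_nhds_unique (h1.congr' h2) tendsto_const_nhds

/-- All sets of words are measurable. -/
local instance : MeasurableSpace (List (Fin 4)) := ⊤

local instance : DiscreteMeasurableSpace (List (Fin 4)) := ⟨fun _ => trivial⟩

theorem measurable_win (a : ℤ) (n : ℕ) : Measurable (fun x : ℤ → Fin 4 => win x a n) := by
  apply measurable_to_countable'
  intro w
  exact measurableSet_win a n w

theorem restrict_eq_win (I : Finset ℤ) : ∃ n : ℕ, ∃ g : List (Fin 4) → (I → Fin 4),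
    I.restrict = g ∘ (fun x : ℤ → Fin 4 => win x (-n) (2 * n)) := by
  obtain ⟨n, hn⟩ : ∃ n : ℕ, ∀ i ∈ I, i.natAbs < n :=
    ⟨(I.sup Int.natAbs) + 1, fun i hi => Nat.lt_succ_of_le (Finset.le_sup (f := Int.natAbs) hi)⟩
  refine ⟨n, fun l i => l.getD ((i : ℤ) + n).toNat 0, ?_⟩
  funext x i
  have hi := hn i i.2
  simp only [Function.comp_apply]
  rw [win_getD _ _ _ _ (by omega)]
  have : -(n : ℤ) + (((i : ℤ) + n).toNat : ℤ) = i := by omega
  rw [this]
  rfl

theorem ext_win {μ ν : Measure (ℤ → Fin 4)} [IsProbabilityMeasure μ] [IsProbabilityMeasure ν]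
    (h : ∀ (a : ℤ) (w : List (Fin 4)), μ {x | win x a w.length = w} = ν {x | win x a w.length = w}) :
    μ = ν := by
  have hP : ∀ I : Finset ℤ, IsFiniteMeasure (μ.map (I.restrict : (ℤ → Fin 4) → (I → Fin 4))) :=
    fun I => inferInstance
  refine IsProjectiveLimit.unique (P := fun I : Finset ℤ => μ.map I.restrict) (fun I => rfl)
    (fun I => ?_)
  obtain ⟨n, g, hg⟩ := restrict_eq_win I
  have hgm : Measurable g := Measurable.of_discrete
  have hwm := measurable_win (-n) (2 * n)
  show ν.map I.restrict = μ.map I.restrict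
  rw [hg, ← Measure.map_map hgm hwm, ← Measure.map_map hgm hwm]
  congr 1
  apply Measure.ext_of_singleton
  intro w
  rw [Measure.map_apply hwm (measurableSet_singleton w),
    Measure.map_apply hwm (measurableSet_singleton w)]
  by_cases hw : w.length = 2 * n
  · have := h (-n) w
    rw [hw] at this
    exact this.symm
  · have e : (fun x : ℤ → Fin 4 => win x (-n) (2 * n)) ⁻¹' {w} = ∅ := by
      ext x
      simp only [Set.mem_preimage, Set.mem_singleton_iff, Set.mem_empty_iff_false, iff_false]
      intro h'
      apply hw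
      rw [← h', win_length]
    rw [e]; simp

theorem stat_of_win {κ : Measure (ℤ → Fin 4)} [IsProbabilityMeasure κ]
    (h : ∀ (a : ℤ) (w : List (Fin 4)), κ {x | win x a w.length = w} = q w) : Stat κ := by
  intro m
  have hp : IsProbabilityMeasure (κ.map (tr m)) :=
    Measure.isProbabilityMeasure_map (measurable_tr m).aemeasurable
  apply ext_win
  intro a w
  rw [Measure.map_apply (measurable_tr m) (measurableSet_win _ _ _), h]
  have : tr m ⁻¹' {x : ℤ → Fin 4 | win x a w.length = w} = {x | win x (a + m) w.length = w} := by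
    ext x
    show win (tr m x) a w.length = w ↔ win x (a + m) w.length = w
    rw [win_tr]
  rw [this, h]

theorem proper_of_win {κ : Measure (ℤ → Fin 4)} [IsProbabilityMeasure κ]
    (h : ∀ (a : ℤ) (w : List (Fin 4)), κ {x | win x a w.length = w} = q w) :
    ∀ᵐ x ∂κ, ∀ i : ℤ, x i ≠ x (i + 1) := by
  rw [ae_all_iff]
  intro i
  rw [ae_iff]
  have : {x : ℤ → Fin 4 | ¬ x i ≠ x (i + 1)} ⊆ ⋃ c : Fin 4, {x | win x i [c, c].length = [c, c]} := by
    intro x hx
    have hx' : x i = x (i + 1) := not_not.1 hx
    rw [Set.mem_iUnion]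
    refine ⟨x i, ?_⟩
    show win x i [x i, x i].length = [x i, x i]
    simp [win, List.range_succ, ← hx']
  apply measure_mono_null this
  rw [measure_iUnion_null_iff]
  intro c
  rw [h]
  unfold q
  have hnp : ¬ Proper [c, c] := not_proper_double [] [] c
  rw [p_of_not_proper hnp]
  simp

theorem dep_of_win {κ : Measure (ℤ → Fin 4)} [IsProbabilityMeasure κ]
    (h : ∀ (a : ℤ) (w : List (Fin 4)), κ {x | win x a w.length = w} = q w) : Dep 2 κ := by
  have key : ∀ n : ℕ, IndepFun (fun x : ℤ → Fin 4 => win x (-n) (n + 1))
      (fun x : ℤ → Fin 4 => win x 2 (n + 1)) κ := by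
    intro n
    have m1 := measurable_win (-n) (n + 1)
    have m2 := measurable_win 2 (n + 1)
    rw [indepFun_iff_map_prod_eq_prod_map_map m1.aemeasurable m2.aemeasurable]
    apply Measure.ext_of_singleton
    rintro ⟨u, v⟩
    rw [Measure.map_apply (m1.prodMk m2) (measurableSet_singleton _),
      ← Set.singleton_prod_singleton, Measure.prod_prod,
      Measure.map_apply m1 (measurableSet_singleton _),
      Measure.map_apply m2 (measurableSet_singleton _)]
    have e0 : (fun x : ℤ → Fin 4 => (win x (-n) (n + 1), win x 2 (n + 1))) ⁻¹' ({u} ×ˢ {v}) =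
        {x | win x (-n) (n + 1) = u ∧ win x 2 (n + 1) = v} := by
      ext x
      simp
    rw [e0]
    by_cases hu : u.length = n + 1
    · by_cases hv : v.length = n + 1
      · have e1 : κ ((fun x : ℤ → Fin 4 => win x (-n) (n + 1)) ⁻¹' {u}) = q u := by
          have := h (-n) u
          rw [hu] at this
          exact this
        have e2 : κ ((fun x : ℤ → Fin 4 => win x 2 (n + 1)) ⁻¹' {v}) = q v := by
          have := h 2 v
          rw [hv] at this
          exact this
        rw [e1, e2, ← q_mid u v]
        have e3 : {x : ℤ → Fin 4 | win x (-n) (n + 1) = u ∧ win x 2 (n + 1) = v} =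
            ⋃ a : Fin 4, {x | win x (-n) (u ++ a :: v).length = u ++ a :: v} := by
          ext x
          rw [Set.mem_iUnion]
          have hl : ∀ a : Fin 4, (u ++ a :: v).length = (n + 1) + (1 + (n + 1)) := by
            intro a; simp [hu, hv]; omega
          have hsplit : win x (-n) ((n + 1) + (1 + (n + 1))) =
              win x (-n) (n + 1) ++ ([x 1] ++ win x 2 (n + 1)) := by
            rw [win_append x (-n) (n + 1) (1 + (n + 1))]
            have e4 : -(n : ℤ) + ((n + 1 : ℕ) : ℤ) = 1 := by push_cast; ring
            rw [e4, win_append x 1 1 (n + 1), win_one]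
            have e5 : (1 : ℤ) + ((1 : ℕ) : ℤ) = 2 := by norm_num
            rw [e5]
          constructor
          · rintro ⟨h1, h2⟩
            refine ⟨x 1, ?_⟩
            show win x (-n) (u ++ x 1 :: v).length = u ++ x 1 :: v
            rw [hl, hsplit, h1, h2]
            rfl
          · rintro ⟨a, ha⟩
            have ha' : win x (-n) (u ++ a :: v).length = u ++ a :: v := ha
            rw [hl, hsplit] at ha'
            have h1 := List.append_inj ha' (by rw [win_length, hu])
            refine ⟨h1.1, ?_⟩
            have h2 := h1.2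
            simp only [List.singleton_append, List.cons.injEq] at h2
            exact h2.2
        rw [e3, measure_iUnion, tsum_fintype]
        · exact Finset.sum_congr rfl (fun a _ => h (-n) _)
        · intro a a' haa'
          rw [Function.onFun, Set.disjoint_left]
          intro x hx hx'
          have h1 : win x (-n) (u ++ a :: v).length = u ++ a :: v := hx
          have h2 : win x (-n) (u ++ a' :: v).length = u ++ a' :: v := hx'
          have hl : (u ++ a :: v).length = (u ++ a' :: v).length := by simp
          rw [hl, h2] at h1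
          apply haa'
          have := List.append_cancel_left h1
          simp only [List.cons.injEq, and_true] at this
          exact this.symm
        · intro a
          exact measurableSet_win _ _ _
      · have e1 : {x : ℤ → Fin 4 | win x (-n) (n + 1) = u ∧ win x 2 (n + 1) = v} = ∅ := by
          ext x
          simp only [Set.mem_ofPred_eq, Set.mem_empty_iff_false, iff_false, not_and]
          intro _ h'
          apply hv
          rw [← h', win_length]
        have e2 : (fun x : ℤ → Fin 4 => win x 2 (n + 1)) ⁻¹' {v} = ∅ := by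
          ext x
          simp only [Set.mem_preimage, Set.mem_singleton_iff, Set.mem_empty_iff_false, iff_false]
          intro h'
          apply hv
          rw [← h', win_length]
        rw [e1, e2]; simp
    · have e1 : {x : ℤ → Fin 4 | win x (-n) (n + 1) = u ∧ win x 2 (n + 1) = v} = ∅ := by
        ext x
        simp only [Set.mem_ofPred_eq, Set.mem_empty_iff_false, iff_false, not_and]
        intro h'
        exfalso
        apply hu
        rw [← h', win_length]
      have e2 : (fun x : ℤ → Fin 4 => win x (-n) (n + 1)) ⁻¹' {u} = ∅ := by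
        ext x
        simp only [Set.mem_preimage, Set.mem_singleton_iff, Set.mem_empty_iff_false, iff_false]
        intro h'
        apply hu
        rw [← h', win_length]
      rw [e1, e2]; simp
  apply dep_of_indepFun
  apply IndepFun.process_indepFun_process
    (X := fun (i : Set.Iic (0 : ℤ)) (x : ℤ → Fin 4) => x i)
    (Y := fun (i : Set.Ici (2 : ℤ)) (x : ℤ → Fin 4) => x i)
    (fun i => measurable_pi_apply _) (fun i => measurable_pi_apply _)
  intro I J
  obtain ⟨n1, hn1⟩ : ∃ n : ℕ, ∀ i ∈ I, (i : ℤ).natAbs ≤ n :=
    ⟨(I.sup (fun i => (i : ℤ).natAbs)), fun i hi => Finset.le_sup (f := fun i : Set.Iic (0 : ℤ) => (i : ℤ).natAbs) hi⟩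
  obtain ⟨n2, hn2⟩ : ∃ n : ℕ, ∀ i ∈ J, (i : ℤ).natAbs ≤ n :=
    ⟨(J.sup (fun i => (i : ℤ).natAbs)), fun i hi => Finset.le_sup (f := fun i : Set.Ici (2 : ℤ) => (i : ℤ).natAbs) hi⟩
  have hk := key (n1 + n2)
  have e1 : (fun (x : ℤ → Fin 4) (i : I) => x ((i : Set.Iic (0 : ℤ)) : ℤ)) =
      (fun (l : List (Fin 4)) (i : I) => l.getD ((((i : Set.Iic (0 : ℤ)) : ℤ)) + (n1 + n2 : ℕ)).toNat 0) ∘
        (fun x : ℤ → Fin 4 => win x (-((n1 + n2 : ℕ) : ℤ)) (n1 + n2 + 1)) := by
    funext x i
    have h1 := hn1 i i.2
    have h2 : ((i : Set.Iic (0 : ℤ)) : ℤ) ≤ 0 := (i : Set.Iic (0 : ℤ)).2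
    simp only [Function.comp_apply]
    rw [win_getD _ _ _ _ (by omega)]
    congr 1
    omega
  have e2 : (fun (x : ℤ → Fin 4) (i : J) => x ((i : Set.Ici (2 : ℤ)) : ℤ)) =
      (fun (l : List (Fin 4)) (i : J) => l.getD ((((i : Set.Ici (2 : ℤ)) : ℤ)) - 2).toNat 0) ∘
        (fun x : ℤ → Fin 4 => win x 2 (n1 + n2 + 1)) := by
    funext x i
    have h1 := hn2 i i.2
    have h2 : 2 ≤ ((i : Set.Ici (2 : ℤ)) : ℤ) := (i : Set.Ici (2 : ℤ)).2
    simp only [Function.comp_apply]
    rw [win_getD _ _ _ _ (by omega)]
    congr 1
    omega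
  rw [e1, e2]
  exact hk.comp Measurable.of_discrete Measurable.of_discrete

/-- **Holroyd-Liggett.** There is a stationary 1-dependent proper 4-colouring of the integers. -/
theorem exists_colouring : ∃ κ : Measure (ℤ → Fin 4), IsProbabilityMeasure κ ∧ Stat κ ∧ Dep 2 κ ∧
    ∀ᵐ x ∂κ, ∀ i : ℤ, x i ≠ x (i + 1) := by
  obtain ⟨κ, hκ, h⟩ := exists_kappa
  exact ⟨κ, hκ, stat_of_win h, dep_of_win h, proper_of_win h⟩

end Pool.Agent.H443R3.Kappa
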