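import Mathlib
import Pool.Agent.H443R3.Kappa

set_option autoImplicit false

open MeasureTheory ProbabilityTheory Filter Topology
open scoped ENNReal

/-!
# Coarsening: stationary finitely dependent nets in `ℤ` with dependence range linear in the scale
-/

namespace Pool.Agent.H443R3.Disc

open Pool.Agent.H443R3.Seq

/-! ### Block factors -/

theorem stat_map {α β : Type*} [MeasurableSpace α] [MeasurableSpace β] {F : (ℤ → α) → (ℤ → β)}
    (hF : Measurable F) (heq : ∀ m x, F (tr m x) = tr m (F x)) {μ : Measure (ℤ → α)}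
    (hs : Stat μ) : Stat (μ.map F) := by
  intro m
  rw [Measure.map_map (measurable_tr m) hF]
  have : tr m ∘ F = F ∘ tr m := by
    funext x
    exact (heq m x).symm
  rw [this, ← Measure.map_map hF (measurable_tr m), hs m]

theorem dep_map {α β : Type*} [MeasurableSpace α] [MeasurableSpace β] {F : (ℤ → α) → (ℤ → β)}
    (hF : Measurable F) (r : ℕ)
    (hloc : ∀ i, DependsOn (fun x => F x i) (Set.Icc (i - r) (i + r))) {μ : Measure (ℤ → α)}
    {D : ℤ} (hs : Stat μ) (hd : Dep D μ) : Dep (D + 2 * r) (μ.map F) := by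
  intro f g hf hg df dg
  have hfg : Measurable (fun x => f x * g x) := hf.mul hg
  have hfF : Measurable (fun x => f (F x)) := hf.comp hF
  have hgF : Measurable (fun x => g (F x)) := hg.comp hF
  have hfgF : Measurable (fun x => f (F x) * g (F x)) := hfF.mul hgF
  rw [lintegral_map hfg hF, lintegral_map hf hF, lintegral_map hg hF]
  rw [← lintegral_tr hs (-r) hfgF, ← lintegral_tr hs (-r) hfF, ← lintegral_tr hs (-r) hgF]
  apply hd (fun x => f (F (tr (-r) x))) (fun x => g (F (tr (-r) x)))
  · exact hf.comp (hF.comp (measurable_tr _))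
  · exact hg.comp (hF.comp (measurable_tr _))
  · intro x y hxy
    apply df
    intro j hj
    apply hloc j
    intro i hi
    apply hxy
    have h1 : i ≤ j + r := hi.2
    have h2 : j ≤ 0 := hj
    show i + -(r : ℤ) ≤ 0
    omega
  · intro x y hxy
    apply dg
    intro j hj
    apply hloc j
    intro i hi
    apply hxy
    have h1 : j - r ≤ i := hi.1
    have h2 : D + 2 * r ≤ j := hj
    show D ≤ i + -(r : ℤ)
    omega

/-! ### The index of a point -/

/-- Indicator of a point. -/
def pt (y : ℤ → Bool) (i : ℤ) : ℤ := if y i = true then 1 else 0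

/-- Number of points in `(0, j]`, or minus the number of points in `(j, 0]`. -/
noncomputable def idx (y : ℤ → Bool) (j : ℤ) : ℤ := ∑ i ∈ Finset.Ioc 0 j, pt y i - ∑ i ∈ Finset.Ioc j 0, pt y i

theorem pt_nonneg (y : ℤ → Bool) (i : ℤ) : 0 ≤ pt y i := by unfold pt; split_ifs <;> simp

theorem idx_zero (y : ℤ → Bool) : idx y 0 = 0 := by simp [idx]

theorem idx_succ (y : ℤ → Bool) (j : ℤ) : idx y (j + 1) = idx y j + pt y (j + 1) := by
  unfold idx
  rcases le_or_gt 0 j with h | h
  · have e1 : Finset.Ioc 0 (j + 1) = insert (j + 1) (Finset.Ioc 0 j) := by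
      ext i; simp only [Finset.mem_insert, Finset.mem_Ioc]; omega
    have e2 : Finset.Ioc (j + 1) 0 = ∅ := Finset.Ioc_eq_empty (by omega)
    have e3 : Finset.Ioc j 0 = ∅ := Finset.Ioc_eq_empty (by omega)
    rw [e1, e2, e3, Finset.sum_insert (by simp)]
    ring
  · have e1 : Finset.Ioc j 0 = insert (j + 1) (Finset.Ioc (j + 1) 0) := by
      ext i; simp only [Finset.mem_insert, Finset.mem_Ioc]; omega
    have e2 : Finset.Ioc 0 (j + 1) = ∅ := Finset.Ioc_eq_empty (by omega)
    have e3 : Finset.Ioc 0 j = ∅ := Finset.Ioc_eq_empty (by omega)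
    rw [e1, e2, e3, Finset.sum_insert (by simp)]
    ring

theorem idx_sub (y : ℤ → Bool) (i : ℤ) (n : ℕ) :
    idx y (i + n) = idx y i + ∑ k ∈ Finset.Ioc i (i + n), pt y k := by
  induction n with
  | zero => simp
  | succ n ih =>
    have e : i + ((n + 1 : ℕ) : ℤ) = (i + n) + 1 := by push_cast; ring
    have e1 : Finset.Ioc i (i + n + 1) = insert (i + n + 1) (Finset.Ioc i (i + n)) := by
      ext k; simp only [Finset.mem_insert, Finset.mem_Ioc]; omega
    rw [e, idx_succ, ih, e1, Finset.sum_insert (by simp)]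
    ring

theorem idx_sub' (y : ℤ → Bool) {i j : ℤ} (h : i ≤ j) :
    idx y j = idx y i + ∑ k ∈ Finset.Ioc i j, pt y k := by
  obtain ⟨n, rfl⟩ : ∃ n : ℕ, j = i + n := ⟨(j - i).toNat, by omega⟩
  exact idx_sub y i n

theorem idx_mono (y : ℤ → Bool) {i j : ℤ} (h : i ≤ j) : idx y i ≤ idx y j := by
  rw [idx_sub' y h]
  have : 0 ≤ ∑ k ∈ Finset.Ioc i j, pt y k := Finset.sum_nonneg (fun k _ => pt_nonneg y k)
  linarith

theorem idx_tr (y : ℤ → Bool) (m j : ℤ) : idx (tr m y) j = idx y (j + m) - idx y m := by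
  have hpt : ∀ i, pt (tr m y) i = pt y (i + m) := fun i => rfl
  induction j using Int.induction_on with
  | zero => simp [idx_zero]
  | succ n ih =>
    rw [idx_succ, ih, hpt]
    have e : (n : ℤ) + 1 + m = (n + m) + 1 := by ring
    rw [e, idx_succ]
    ring
  | pred n ih =>
    have h1 := idx_succ (tr m y) (-(n : ℤ) - 1)
    have h2 := idx_succ y (-(n : ℤ) - 1 + m)
    rw [hpt] at h1
    have e1 : -(n : ℤ) - 1 + 1 = -n := by ring
    have e2 : -(n : ℤ) - 1 + m + 1 = -n + m := by ring
    rw [e1] at h1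
    rw [e2] at h2
    rw [ih] at h1
    linarith

theorem idx_congr_le {y y' : ℤ → Bool} (h : ∀ i ∈ Set.Iic (0 : ℤ), y i = y' i) {j : ℤ}
    (hj : j ≤ 0) : idx y j = idx y' j := by
  unfold idx
  have e2 : Finset.Ioc 0 j = ∅ := Finset.Ioc_eq_empty (by omega)
  rw [e2, Finset.sum_empty, Finset.sum_empty]
  congr 1
  apply Finset.sum_congr rfl
  intro i hi
  unfold pt
  rw [h i (Finset.mem_Ioc.1 hi).2]

theorem idx_dependsOn (j : ℤ) : DependsOn (fun y : ℤ → Bool => idx y j)
    ((Finset.Ioc 0 j ∪ Finset.Ioc j 0 : Finset ℤ) : Set ℤ) := by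
  intro y y' h
  simp only [idx]
  congr 1
  · apply Finset.sum_congr rfl
    intro i hi
    unfold pt
    rw [h i (by rw [Finset.coe_union]; exact Or.inl hi)]
  · apply Finset.sum_congr rfl
    intro i hi
    unfold pt
    rw [h i (by rw [Finset.coe_union]; exact Or.inr hi)]

/-! ### Colouring along the points -/

/-- Colour the sites: a site carries the colour of the last point before or at it. -/
noncomputable def col (y : ℤ → Bool) (z : ℤ → Fin 4) : ℤ → Bool × Fin 4 := fun j => (y j, z (idx y j))

theorem tr_col (y : ℤ → Bool) (z : ℤ → Fin 4) (m : ℤ) :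
    tr m (col y z) = col (tr m y) (tr (idx y m) z) := by
  funext j
  simp only [col, tr_apply, idx_tr]
  congr 2
  ring

theorem measurable_col : Measurable (fun p : (ℤ → Bool) × (ℤ → Fin 4) => col p.1 p.2) := by
  rw [measurable_pi_iff]
  intro j
  apply Measurable.prodMk
  · exact (measurable_pi_apply j).comp measurable_fst
  · apply measurable_to_countable'
    intro c
    have : (fun p : (ℤ → Bool) × (ℤ → Fin 4) => p.2 (idx p.1 j)) ⁻¹' {c} =
        ⋃ n : ℤ, {p : (ℤ → Bool) × (ℤ → Fin 4) | idx p.1 j = n} ∩ {p | p.2 n = c} := by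
      ext p
      simp only [Set.mem_preimage, Set.mem_singleton_iff, Set.mem_iUnion, Set.mem_inter_iff]
      constructor
      · intro h
        exact ⟨idx p.1 j, rfl, h⟩
      · rintro ⟨n, h1, h2⟩
        have h1' : idx p.1 j = n := h1
        rw [h1']
        exact h2
    rw [this]
    apply MeasurableSet.iUnion
    intro n
    apply MeasurableSet.inter
    · have hm : Measurable (fun y : ℤ → Bool => idx y j) := measurable_of_dependsOn (idx_dependsOn j)
      exact (hm.comp measurable_fst) (measurableSet_singleton n)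
    · have hm2 : Measurable (fun p : (ℤ → Bool) × (ℤ → Fin 4) => p.2 n) :=
        (measurable_pi_apply n).comp measurable_snd
      exact hm2 (measurableSet_singleton c)

/-- The joint law of the net and the colouring. -/
noncomputable def lam (μ : Measure (ℤ → Bool)) (κ : Measure (ℤ → Fin 4)) :
    Measure (ℤ → Bool × Fin 4) :=
  (μ.prod κ).map (fun p => col p.1 p.2)

theorem lintegral_lam {μ : Measure (ℤ → Bool)} {κ : Measure (ℤ → Fin 4)} [IsProbabilityMeasure μ]
    [IsProbabilityMeasure κ] {h : (ℤ → Bool × Fin 4) → ℝ≥0∞} (hh : Measurable h) :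
    ∫⁻ w, h w ∂(lam μ κ) = ∫⁻ y, ∫⁻ z, h (col y z) ∂κ ∂μ := by
  unfold lam
  rw [lintegral_map hh measurable_col, lintegral_prod]
  exact (hh.comp measurable_col).aemeasurable

theorem measurable_col_right (y : ℤ → Bool) : Measurable (fun z : ℤ → Fin 4 => col y z) :=
  measurable_col.comp measurable_prodMk_left

theorem stat_lam {μ : Measure (ℤ → Bool)} {κ : Measure (ℤ → Fin 4)} [IsProbabilityMeasure μ]
    [IsProbabilityMeasure κ] (hμ : Stat μ) (hκ : Stat κ) : Stat (lam μ κ) := by
  intro m
  apply Measure.ext_of_lintegral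
  intro h hh
  have hht : Measurable (fun w => h (tr m w)) := hh.comp (measurable_tr m)
  rw [lintegral_map hh (measurable_tr m), lintegral_lam hht, lintegral_lam hh]
  have e1 : ∀ y, ∫⁻ z, h (tr m (col y z)) ∂κ = ∫⁻ z, h (col (tr m y) z) ∂κ := by
    intro y
    simp only [tr_col]
    exact lintegral_tr hκ (idx y m) (hh.comp (measurable_col_right (tr m y)))
  simp only [e1]
  have hH : Measurable (fun y => ∫⁻ z, h (col y z) ∂κ) :=
    Measurable.lintegral_prod_right' (hh.comp measurable_col)
  exact lintegral_tr hμ m hH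

theorem dep_lam {μ : Measure (ℤ → Bool)} {κ : Measure (ℤ → Fin 4)} [IsProbabilityMeasure μ]
    [IsProbabilityMeasure κ] (hκ : Stat κ) (dκ : Dep 2 κ) {D : ℤ} (dμ : Dep D μ)
    (hD : ∀ᵐ y ∂μ, 2 ≤ idx y D) : Dep D (lam μ κ) := by
  intro f g hf hg df dg
  have hfg : Measurable (fun x => f x * g x) := hf.mul hg
  rw [lintegral_lam hfg, lintegral_lam hf, lintegral_lam hg]
  have hφ : Measurable (fun y => ∫⁻ z, f (col y z) ∂κ) :=
    Measurable.lintegral_prod_right' (hf.comp measurable_col)
  have hψ : Measurable (fun y => ∫⁻ z, g (col y z) ∂κ) :=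
    Measurable.lintegral_prod_right' (hg.comp measurable_col)
  rw [← dμ _ _ hφ hψ]
  · apply lintegral_congr_ae
    filter_upwards [hD] with y hy
    apply dκ (fun z => f (col y z)) (fun z => g (col y z)) (hf.comp (measurable_col_right y))
      (hg.comp (measurable_col_right y))
    · intro z z' hz
      apply df
      intro j hj
      have hj' : j ≤ 0 := hj
      simp only [col]
      rw [hz (idx y j)]
      have := idx_mono y hj'
      rw [idx_zero] at this
      exact this
    · intro z z' hz
      apply dg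
      intro j hj
      have hj' : D ≤ j := hj
      simp only [col]
      rw [hz (idx y j)]
      exact le_trans hy (idx_mono y hj')
  · intro y y' hy
    have : ∀ z, f (col y z) = f (col y' z) := by
      intro z
      apply df
      intro j hj
      have hj' : j ≤ 0 := hj
      simp only [col]
      rw [hy j hj, idx_congr_le hy hj']
    simp only [this]
  · intro y y' hy
    have e1 : ∀ y : ℤ → Bool, ∫⁻ z, g (col y z) ∂κ =
        ∫⁻ z, g (col y (tr (-(idx y D)) z)) ∂κ := by
      intro y
      exact (lintegral_tr hκ (-(idx y D)) (hg.comp (measurable_col_right y))).symm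
    show ∫⁻ z, g (col y z) ∂κ = ∫⁻ z, g (col y' z) ∂κ
    rw [e1 y, e1 y']
    apply lintegral_congr
    intro z
    apply dg
    intro j hj
    have hj' : D ≤ j := hj
    simp only [col, tr_apply]
    have e2 : idx y j + -(idx y D) = idx y' j + -(idx y' D) := by
      rw [idx_sub' y hj', idx_sub' y' hj']
      have : ∑ k ∈ Finset.Ioc D j, pt y k = ∑ k ∈ Finset.Ioc D j, pt y' k := by
        apply Finset.sum_congr rfl
        intro k hk
        unfold pt
        rw [hy k (le_of_lt (Finset.mem_Ioc.1 hk).1)]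
      rw [this]
      ring
    rw [e2, hy j hj]

/-! ### The coarsening map -/

/-- Greedy maximal independent set: the points selected after treating the colours below `c`. -/
def K (g : ℕ) (W : ℤ → Bool × Fin 4) : ℕ → ℤ → Prop
  | 0, _ => False
  | c + 1, j => K g W c j ∨ ((W j).1 = true ∧ (((W j).2 : Fin 4) : ℕ) = c ∧
      ∀ j', |j' - j| < 2 * g → ¬ K g W c j')

theorem K_tr (g : ℕ) (W : ℤ → Bool × Fin 4) (m : ℤ) (c : ℕ) (j : ℤ) :
    K g (tr m W) c j ↔ K g W c (j + m) := by
  induction c generalizing j with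
  | zero => simp [K]
  | succ c ih =>
    simp only [K, tr_apply, ih]
    apply or_congr Iff.rfl
    apply and_congr Iff.rfl
    apply and_congr Iff.rfl
    constructor
    · intro h j' hj'
      have := h (j' - m) (by rw [show j' - m - j = j' - (j + m) by ring]; exact hj')
      rwa [sub_add_cancel] at this
    · intro h j' hj'
      exact h (j' + m) (by rw [show j' + m - (j + m) = j' - j by ring]; exact hj')

theorem K_congr (g : ℕ) {W W' : ℤ → Bool × Fin 4} (c : ℕ) (j : ℤ)
    (h : ∀ i ∈ Set.Icc (j - 2 * g * c) (j + 2 * g * c), W i = W' i) :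
    K g W c j ↔ K g W' c j := by
  induction c generalizing j with
  | zero => simp [K]
  | succ c ih =>
    have hg : (0 : ℤ) ≤ 2 * g := by positivity
    have hgc : (0 : ℤ) ≤ 2 * g * c := by positivity
    have e : (2 * g * ((c + 1 : ℕ) : ℤ)) = 2 * g * c + 2 * g := by push_cast; ring
    rw [e] at h
    have hW : W j = W' j := h j ⟨by linarith, by linarith⟩
    have hK : ∀ j', |j' - j| < 2 * g → (K g W c j' ↔ K g W' c j') := by
      intro j' hj'
      apply ih
      intro i hi
      rw [abs_lt] at hj'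
      exact h i ⟨by linarith [hi.1], by linarith [hi.2]⟩
    have hKj : K g W c j ↔ K g W' c j := by
      apply ih
      intro i hi
      exact h i ⟨by linarith [hi.1], by linarith [hi.2]⟩
    simp only [K]
    rw [hKj, hW]
    apply or_congr Iff.rfl
    apply and_congr Iff.rfl
    apply and_congr Iff.rfl
    apply forall_congr'
    intro j'
    constructor
    · intro h1 h2
      rw [← hK j' h2]
      exact h1 h2
    · intro h1 h2
      rw [hK j' h2]
      exact h1 h2

open Classical in
/-- The coarsened net. -/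
noncomputable def F (g : ℕ) (W : ℤ → Bool × Fin 4) : ℤ → Bool := fun j => decide (K g W 4 j)

theorem F_eq_true (g : ℕ) (W : ℤ → Bool × Fin 4) (j : ℤ) : F g W j = true ↔ K g W 4 j := by
  unfold F
  simp

theorem F_tr (g : ℕ) (m : ℤ) (W : ℤ → Bool × Fin 4) : F g (tr m W) = tr m (F g W) := by
  funext j
  rw [tr_apply, Bool.eq_iff_iff, F_eq_true, F_eq_true, K_tr]

theorem F_loc (g : ℕ) (i : ℤ) : DependsOn (fun W => F g W i)
    (Set.Icc (i - ((8 * g : ℕ) : ℤ)) (i + ((8 * g : ℕ) : ℤ))) := by
  intro W W' h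
  show F g W i = F g W' i
  rw [Bool.eq_iff_iff, F_eq_true, F_eq_true]
  apply K_congr
  intro j hj
  apply h
  have e : (2 * g * ((4 : ℕ) : ℤ)) = ((8 * g : ℕ) : ℤ) := by push_cast; ring
  rw [e] at hj
  exact hj

theorem measurable_F (g : ℕ) : Measurable (F g) := by
  rw [measurable_pi_iff]
  intro i
  apply measurable_of_dependsOn
    (F := Finset.Icc (i - ((8 * g : ℕ) : ℤ)) (i + ((8 * g : ℕ) : ℤ)))
  rw [Finset.coe_Icc]
  exact F_loc g i

/-- A net of scale `g`: gaps at least `g`, and every window of length `4g` contains a point. -/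
def Net (g : ℕ) (y : ℤ → Bool) : Prop :=
  (∀ i j : ℤ, y i = true → y j = true → i < j → (g : ℤ) ≤ j - i) ∧
    ∀ i : ℤ, ∃ j : ℤ, i < j ∧ j ≤ i + 4 * g ∧ y j = true

theorem measurableSet_net (g : ℕ) : MeasurableSet {y | Net g y} := by
  have : {y | Net g y} = (⋂ i : ℤ, ⋂ j : ℤ,
      {y : ℤ → Bool | y i = true → y j = true → i < j → (g : ℤ) ≤ j - i}) ∩
      ⋂ i : ℤ, ⋃ j : ℤ, {y : ℤ → Bool | i < j ∧ j ≤ i + 4 * g ∧ y j = true} := by
    ext y
    simp only [Net, Set.mem_inter_iff, Set.mem_iInter, Set.mem_iUnion, Set.mem_ofPred_eq]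
  rw [this]
  apply MeasurableSet.inter
  · apply MeasurableSet.iInter
    intro i
    apply MeasurableSet.iInter
    intro j
    apply measurableSet_of_dependsOn (F := {i, j})
    intro y y' h
    have h1 : y i = y' i := h i (by simp)
    have h2 : y j = y' j := h j (by simp)
    show (y i = true → y j = true → i < j → (g : ℤ) ≤ j - i) =
      (y' i = true → y' j = true → i < j → (g : ℤ) ≤ j - i)
    rw [h1, h2]
  · apply MeasurableSet.iInter
    intro i
    apply MeasurableSet.iUnion
    intro j
    apply measurableSet_of_dependsOn (F := {j})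
    intro y y' h
    have h2 : y j = y' j := h j (by simp)
    show (i < j ∧ j ≤ i + 4 * g ∧ y j = true) = (i < j ∧ j ≤ i + 4 * g ∧ y' j = true)
    rw [h2]

theorem K_mono (g : ℕ) (W : ℤ → Bool × Fin 4) {c c' : ℕ} (h : c ≤ c') (j : ℤ)
    (hK : K g W c j) : K g W c' j := by
  induction c' with
  | zero =>
    have : c = 0 := by omega
    subst this
    exact hK
  | succ c' ih =>
    rcases Nat.lt_or_ge c (c' + 1) with h1 | h1
    · exact Or.inl (ih (by omega))
    · have : c = c' + 1 := by omega
      subst this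
      exact hK

theorem K_point (g : ℕ) (W : ℤ → Bool × Fin 4) (c : ℕ) (j : ℤ) (hK : K g W c j) :
    (W j).1 = true := by
  induction c with
  | zero => exact hK.elim
  | succ c ih =>
    rcases hK with h | h
    · exact ih h
    · exact h.1

theorem K_sep {g : ℕ} {y : ℤ → Bool} {z : ℤ → Fin 4} (hy : Net g y)
    (hz : ∀ i : ℤ, z i ≠ z (i + 1)) (c : ℕ) {i j : ℤ} (hi : K g (col y z) c i)
    (hj : K g (col y z) c j) (hij : i < j) : 2 * (g : ℤ) ≤ j - i := by
  induction c generalizing i j with
  | zero => exact hi.elim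
  | succ c ih =>
    by_contra hlt
    push Not at hlt
    rcases hi with hi | hi <;> rcases hj with hj | hj
    · exact absurd (ih hi hj hij) (not_le.2 hlt)
    · exact hj.2.2 i (by rw [abs_sub_comm, abs_of_pos (by omega)]; exact hlt) hi
    · exact hi.2.2 j (by rw [abs_of_pos (by omega)]; exact hlt) hj
    · -- both are new: consecutive points with the same colour
      have hyi : y i = true := hi.1
      have hyj : y j = true := hj.1
      have hci : ((z (idx y i) : Fin 4) : ℕ) = c := hi.2.1
      have hcj : ((z (idx y j) : Fin 4) : ℕ) = c := hj.2.1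
      have hidx : idx y j = idx y i + 1 := by
        rw [idx_sub' y hij.le]
        congr 1
        rw [Finset.sum_eq_single j]
        · unfold pt; rw [if_pos hyj]
        · intro k hk hkj
          unfold pt
          rw [if_neg]
          intro hyk
          have hk' := Finset.mem_Ioc.1 hk
          have h1 := hy.1 i k hyi hyk hk'.1
          have h2 := hy.1 k j hyk hyj (by omega)
          omega
        · intro h
          exact absurd (Finset.mem_Ioc.2 ⟨hij, le_rfl⟩) h
      have := hz (idx y i)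
      rw [← hidx] at this
      apply this
      apply Fin.ext
      rw [hci, hcj]

theorem K_cover {g : ℕ} {y : ℤ → Bool} {z : ℤ → Fin 4} (hg : 0 < g) {j : ℤ} (hj : y j = true) :
    ∃ j', |j' - j| < 2 * g ∧ K g (col y z) 4 j' := by
  set c : ℕ := ((z (idx y j) : Fin 4) : ℕ) with hc
  have hc4 : c < 4 := (z (idx y j)).2
  by_cases h : ∃ j', |j' - j| < 2 * g ∧ K g (col y z) c j'
  · obtain ⟨j', h1, h2⟩ := h
    exact ⟨j', h1, K_mono g _ hc4.le _ h2⟩
  · push Not at h
    refine ⟨j, by rw [sub_self, abs_zero]; exact_mod_cast (by omega : 0 < 2 * g), ?_⟩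
    apply K_mono g _ (show c + 1 ≤ 4 by omega)
    exact Or.inr ⟨hj, hc.symm, h⟩

theorem net_F {g : ℕ} {y : ℤ → Bool} {z : ℤ → Fin 4} (hg : 0 < g) (hy : Net g y)
    (hz : ∀ i : ℤ, z i ≠ z (i + 1)) : Net (2 * g) (F g (col y z)) := by
  constructor
  · intro i j hi hj hij
    rw [F_eq_true] at hi hj
    have := K_sep hy hz 4 hi hj hij
    push_cast
    exact this
  · intro i
    obtain ⟨j, h1, h2, h3⟩ := hy.2 (i + 2 * g)
    obtain ⟨j', h4, h5⟩ := K_cover (z := z) hg h3
    rw [abs_lt] at h4
    refine ⟨j', by omega, by push_cast; omega, ?_⟩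
    rw [F_eq_true]
    exact h5

theorem two_le_idx {g : ℕ} {y : ℤ → Bool} (hy : Net g y) : 2 ≤ idx y (16 * g : ℕ) := by
  obtain ⟨j1, h1, h2, h3⟩ := hy.2 0
  obtain ⟨j2, h4, h5, h6⟩ := hy.2 j1
  rw [idx_sub' y (show (0 : ℤ) ≤ (16 * g : ℕ) by positivity), idx_zero, zero_add]
  have hsub : ({j1, j2} : Finset ℤ) ⊆ Finset.Ioc 0 ((16 * g : ℕ) : ℤ) := by
    intro k hk
    rw [Finset.mem_insert, Finset.mem_singleton] at hk
    rw [Finset.mem_Ioc]
    push_cast
    rcases hk with rfl | rfl <;> omega
  calc (2 : ℤ) = ∑ k ∈ ({j1, j2} : Finset ℤ), pt y k := by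
        rw [Finset.sum_pair (by omega)]
        unfold pt
        rw [if_pos h3, if_pos h6]
        norm_num
    _ ≤ _ := Finset.sum_le_sum_of_subset_of_nonneg hsub (fun k _ _ => pt_nonneg y k)

/-- **Discrete nets.** For each scale `2^N` there is a stationary net in `ℤ` of that scale whose
range of dependence is at most `16 * 2^N`. -/
theorem exists_net (N : ℕ) : ∃ μ : Measure (ℤ → Bool), IsProbabilityMeasure μ ∧ Stat μ ∧
    Dep ((16 * 2 ^ N : ℕ) : ℤ) μ ∧ ∀ᵐ y ∂μ, Net (2 ^ N) y := by
  induction N with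
  | zero =>
    refine ⟨Measure.dirac (fun _ => true), inferInstance, ?_, ?_, ?_⟩
    · intro m
      rw [Measure.map_dirac' (measurable_tr m)]
      rfl
    · intro f g hf hg _ _
      have hfg : Measurable (fun x => f x * g x) := hf.mul hg
      rw [lintegral_dirac' _ hfg, lintegral_dirac' _ hf, lintegral_dirac' _ hg]
    · have hN : Net (2 ^ 0) (fun _ => true) := by
        constructor
        · intro i j _ _ hij
          push_cast
          omega
        · intro i
          exact ⟨i + 1, by omega, by push_cast; omega, rfl⟩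
      exact (ae_dirac_iff (measurableSet_net _)).2 hN
  | succ N ih =>
    obtain ⟨μ, hp, hs, hd, hn⟩ := ih
    obtain ⟨κ, kp, ks, kd, kpr⟩ := Kappa.exists_colouring
    have hl : Dep ((16 * 2 ^ N : ℕ) : ℤ) (lam μ κ) := by
      apply dep_lam ks kd hd
      filter_upwards [hn] with y hy
      exact two_le_idx hy
    have hls : Stat (lam μ κ) := stat_lam hs ks
    have hlp : IsProbabilityMeasure (lam μ κ) :=
      Measure.isProbabilityMeasure_map measurable_col.aemeasurable
    refine ⟨(lam μ κ).map (F (2 ^ N)),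
      Measure.isProbabilityMeasure_map (measurable_F _).aemeasurable,
      stat_map (measurable_F _) (fun m x => F_tr _ m x) hls, ?_, ?_⟩
    · have := dep_map (measurable_F (2 ^ N)) (8 * 2 ^ N) (F_loc (2 ^ N)) hls hl
      have e : ((16 * 2 ^ N : ℕ) : ℤ) + 2 * ((8 * 2 ^ N : ℕ) : ℤ) = ((16 * 2 ^ (N + 1) : ℕ) : ℤ) := by
        push_cast; ring
      rwa [e] at this
    · rw [ae_map_iff (measurable_F _).aemeasurable (measurableSet_net _)]
      unfold lam
      have hms : MeasurableSet {w : ℤ → Bool × Fin 4 | Net (2 ^ (N + 1)) (F (2 ^ N) w)} :=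
        (measurable_F (2 ^ N)) (measurableSet_net (2 ^ (N + 1)))
      rw [ae_map_iff measurable_col.aemeasurable hms]
      have h1 : ∀ᵐ p ∂(μ.prod κ), Net (2 ^ N) p.1 := Measure.quasiMeasurePreserving_fst.ae hn
      have h2 : ∀ᵐ p ∂(μ.prod κ), ∀ i : ℤ, p.2 i ≠ p.2 (i + 1) :=
        Measure.quasiMeasurePreserving_snd.ae kpr
      filter_upwards [h1, h2] with p hp1 hp2
      have h3 := net_F (by positivity : 0 < 2 ^ N) hp1 hp2
      rw [show 2 ^ (N + 1) = 2 * 2 ^ N by ring]
      exact h3

end Pool.Agent.H443R3.Disc
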