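import Mathlib
import Pool.Agent.H443R3.Disc

set_option autoImplicit false

open MeasureTheory ProbabilityTheory Filter Topology
open scoped ENNReal

/-!
# The compact space of configurations

A configuration with gaps at least `1` has at most one point in each `[k, k+1)`; it is encoded by
`v : ℤ → ℝ` with `v k` the fractional position of that point, or `2` if there is none.
-/

namespace Pool.Agent.H443R3.Space

open Pool.Agent.H443R3.Seq Pool.Agent.H443R3.Disc

/-- Codes of configurations. -/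
def GoodV (v : ℤ → ℝ) : Prop :=
  (∀ k, (0 ≤ v k ∧ v k ≤ 1) ∨ v k = 2) ∧
  (∀ k k' : ℤ, k < k' → v k = 2 ∨ v k' = 2 ∨ 1 ≤ ((k' : ℝ) + v k') - (k + v k)) ∧
  (∀ k : ℤ, ∃ i : Fin 4, v (k + (i : ℕ)) ≤ 1)

theorem isClosed_goodV : IsClosed {v : ℤ → ℝ | GoodV v} := by
  have : {v : ℤ → ℝ | GoodV v} =
      (⋂ k : ℤ, ({v : ℤ → ℝ | 0 ≤ v k} ∩ {v | v k ≤ 1}) ∪ {v | v k = 2}) ∩
      ((⋂ k : ℤ, ⋂ k' : ℤ, ⋂ _ : k < k', {v : ℤ → ℝ | v k = 2} ∪ ({v | v k' = 2} ∪
        {v | 1 ≤ ((k' : ℝ) + v k') - (k + v k)})) ∩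
      (⋂ k : ℤ, ⋃ i : Fin 4, {v : ℤ → ℝ | v (k + (i : ℕ)) ≤ 1})) := by
    ext v
    simp only [GoodV, Set.mem_inter_iff, Set.mem_iInter, Set.mem_iUnion, Set.mem_union,
      Set.mem_ofPred_eq]
  rw [this]
  apply IsClosed.inter
  · apply isClosed_iInter
    intro k
    apply IsClosed.union
    · apply IsClosed.inter
      · exact isClosed_le continuous_const (continuous_apply k)
      · exact isClosed_le (continuous_apply k) continuous_const
    · exact isClosed_eq (continuous_apply k) continuous_const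
  · apply IsClosed.inter
    · apply isClosed_iInter
      intro k
      apply isClosed_iInter
      intro k'
      apply isClosed_iInter
      intro _
      apply IsClosed.union
      · exact isClosed_eq (continuous_apply k) continuous_const
      · apply IsClosed.union
        · exact isClosed_eq (continuous_apply k') continuous_const
        · exact isClosed_le continuous_const (by fun_prop)
    · apply isClosed_iInter
      intro k
      apply isClosed_iUnion_of_finite
      intro i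
      exact isClosed_le (continuous_apply _) continuous_const

theorem isCompact_goodV : IsCompact {v : ℤ → ℝ | GoodV v} := by
  apply IsCompact.of_isClosed_subset
    (isCompact_univ_pi (fun _ : ℤ => isCompact_Icc (a := (0 : ℝ)) (b := 2))) isClosed_goodV
  intro v hv k _
  rcases hv.1 k with h | h
  · exact ⟨h.1, by linarith [h.2]⟩
  · rw [h]; constructor <;> norm_num

/-- The compact space of configurations. -/
abbrev Om : Type := {v : ℤ → ℝ // GoodV v}

instance : CompactSpace Om := isCompact_iff_compactSpace.1 isCompact_goodV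

/-- The point set of a configuration. -/
def X (v : Om) : Set ℝ := {x | ∃ k : ℤ, v.1 k ≤ 1 ∧ x = k + v.1 k}

theorem bounds {v : Om} {k : ℤ} (h : v.1 k ≤ 1) : 0 ≤ v.1 k := by
  rcases v.2.1 k with h' | h'
  · exact h'.1
  · rw [h'] at h; norm_num at h

theorem sep {v : Om} {k k' : ℤ} (h : v.1 k ≤ 1) (h' : v.1 k' ≤ 1) (hk : k < k') :
    1 ≤ ((k' : ℝ) + v.1 k') - (k + v.1 k) := by
  rcases v.2.2.1 k k' hk with h1 | h1 | h1
  · rw [h1] at h; norm_num at h
  · rw [h1] at h'; norm_num at h'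
  · exact h1

theorem X_sep {v : Om} {x y : ℝ} (hx : x ∈ X v) (hy : y ∈ X v) (hxy : x ≠ y) : 1 ≤ |x - y| := by
  obtain ⟨k, hk, rfl⟩ := hx
  obtain ⟨k', hk', rfl⟩ := hy
  rcases lt_trichotomy k k' with h | h | h
  · have := sep hk hk' h
    rw [abs_sub_comm]
    exact le_trans this (le_abs_self _)
  · subst h
    exact absurd rfl hxy
  · have := sep hk' hk h
    exact le_trans this (le_abs_self _)

theorem X_dense (v : Om) (t : ℝ) : (X v ∩ Set.Icc t (t + 5)).Nonempty := by
  obtain ⟨i, hi⟩ := v.2.2.2 ⌈t⌉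
  have h0 := bounds hi
  refine ⟨((⌈t⌉ + (i : ℕ) : ℤ) : ℝ) + v.1 (⌈t⌉ + (i : ℕ)), ⟨⌈t⌉ + (i : ℕ), hi, rfl⟩, ?_, ?_⟩
  · push_cast
    have := Int.le_ceil t
    have h2 : (0 : ℝ) ≤ ((i : ℕ) : ℝ) := by positivity
    linarith
  · push_cast
    have := Int.ceil_lt_add_one t
    have h2 : ((i : ℕ) : ℝ) ≤ 3 := by
      have : (i : ℕ) ≤ 3 := by omega
      exact_mod_cast this
    linarith

/-- The number of points in `[l, r]`, as a finite sum. -/
noncomputable def C (l r : ℝ) (J : Finset ℤ) (v : ℤ → ℝ) : ℕ :=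
  ∑ k ∈ J, if v k ≤ 1 ∧ l ≤ k + v k ∧ k + v k ≤ r then 1 else 0

theorem ncard_eq (v : Om) (l r : ℝ) (J : Finset ℤ)
    (hJ : ∀ k : ℤ, v.1 k ≤ 1 → l ≤ k + v.1 k → k + v.1 k ≤ r → k ∈ J) :
    (X v ∩ Set.Icc l r).ncard = C l r J v.1 := by
  classical
  have e : X v ∩ Set.Icc l r =
      (((J.filter (fun k => v.1 k ≤ 1 ∧ l ≤ k + v.1 k ∧ k + v.1 k ≤ r)).image
        (fun k : ℤ => (k : ℝ) + v.1 k) : Finset ℝ) : Set ℝ) := by
    ext x
    rw [Finset.mem_coe, Finset.mem_image]
    constructor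
    · rintro ⟨⟨k, hk, rfl⟩, h1, h2⟩
      exact ⟨k, Finset.mem_filter.2 ⟨hJ k hk h1 h2, hk, h1, h2⟩, rfl⟩
    · rintro ⟨k, hk, rfl⟩
      obtain ⟨_, h1, h2, h3⟩ := Finset.mem_filter.1 hk
      exact ⟨⟨k, h1, rfl⟩, h2, h3⟩
  rw [e, Set.ncard_coe_finset, Finset.card_image_of_injOn]
  · unfold C
    rw [Finset.card_filter]
  · intro k hk k' hk' heq
    have h1 := (Finset.mem_filter.1 (Finset.mem_coe.1 hk)).2.1
    have h2 := (Finset.mem_filter.1 (Finset.mem_coe.1 hk')).2.1
    simp only at heq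
    rcases lt_trichotomy k k' with h | h | h
    · have := sep h1 h2 h
      linarith
    · exact h
    · have := sep h2 h1 h
      linarith

theorem mem_range {v : Om} {l r : ℝ} {R : ℕ} (hl : -(R : ℝ) ≤ l - 1) (hr : r < R) (k : ℤ)
    (h : v.1 k ≤ 1) (h1 : l ≤ k + v.1 k) (h2 : k + v.1 k ≤ r) : k ∈ Finset.Ico (-(R : ℤ)) R := by
  have h0 := bounds h
  rw [Finset.mem_Ico]
  constructor
  · have : (-(R : ℝ)) ≤ (k : ℝ) := by linarith
    exact_mod_cast this
  · have : (k : ℝ) < R := by linarith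
    exact_mod_cast this

theorem X_finite (v : Om) (l r : ℝ) : (X v ∩ Set.Icc l r).Finite := by
  obtain ⟨R, hR⟩ := exists_nat_gt (|l| + |r| + 1)
  have hl : -(R : ℝ) ≤ l - 1 := by
    have := neg_abs_le l
    have := abs_nonneg r
    linarith
  have hr : r < R := by
    have := le_abs_self r
    have := abs_nonneg l
    linarith
  apply Set.Finite.subset ((Finset.Ico (-(R : ℤ)) R).finite_toSet.image
    (fun k : ℤ => (k : ℝ) + v.1 k))
  rintro x ⟨⟨k, hk, rfl⟩, h1, h2⟩
  exact ⟨k, Finset.mem_coe.2 (mem_range hl hr k hk h1 h2), rfl⟩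

theorem measurable_C {mm : MeasurableSpace Om} (l r : ℝ) (J : Finset ℤ)
    (hm : ∀ k ∈ J, Measurable[mm] (fun v : Om => v.1 k)) :
    Measurable[mm] (fun v : Om => C l r J v.1) := by
  unfold C
  apply Finset.measurable_fun_sum
  intro k hk
  apply Measurable.ite _ measurable_const measurable_const
  have h := hm k hk
  apply MeasurableSet.inter
  · exact h measurableSet_Iic
  · apply MeasurableSet.inter
    · exact (h.const_add (k : ℝ)) measurableSet_Ici
    · exact (h.const_add (k : ℝ)) measurableSet_Iic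

theorem measurable_coord (k : ℤ) : Measurable (fun v : Om => v.1 k) :=
  (measurable_pi_apply k).comp measurable_subtype_coe

theorem measurable_count (l r : ℝ) : Measurable (fun v : Om => (X v ∩ Set.Icc l r).ncard) := by
  obtain ⟨R, hR⟩ := exists_nat_gt (|l| + |r| + 1)
  have hl : -(R : ℝ) ≤ l - 1 := by
    have := neg_abs_le l
    have := abs_nonneg r
    linarith
  have hr : r < R := by
    have := le_abs_self r
    have := abs_nonneg l
    linarith
  have : (fun v : Om => (X v ∩ Set.Icc l r).ncard) =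
      fun v : Om => C l r (Finset.Ico (-(R : ℤ)) R) v.1 := by
    funext v
    exact ncard_eq v l r _ (fun k h h1 h2 => mem_range hl hr k h h1 h2)
  rw [this]
  exact measurable_C l r _ (fun k _ => measurable_coord k)

/-! ### Encoding of discrete nets -/

open Classical in
/-- Code of the net `2^{-N} y`. -/
noncomputable def enc (N : ℕ) (y : ℤ → Bool) (k : ℤ) : ℝ :=
  if h : ∃ i : ℕ, i < 2 ^ N ∧ y (k * 2 ^ N + i) = true then (Nat.find h : ℝ) / 2 ^ N else 2

theorem enc_point {N : ℕ} {y : ℤ → Bool} (hy : Net (2 ^ N) y) {k : ℤ} {i : ℕ} (hi : i < 2 ^ N)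
    (h : y (k * 2 ^ N + i) = true) : enc N y k = i / 2 ^ N := by
  have hex : ∃ i : ℕ, i < 2 ^ N ∧ y (k * 2 ^ N + i) = true := ⟨i, hi, h⟩
  unfold enc
  rw [dif_pos hex]
  have h1 := Nat.find_spec hex
  have h2 : Nat.find hex = i := by
    have hiZ : (i : ℤ) < 2 ^ N := by exact_mod_cast hi
    have hfZ : ((Nat.find hex : ℕ) : ℤ) < 2 ^ N := by exact_mod_cast h1.1
    have hi0 : (0 : ℤ) ≤ i := by positivity
    have hf0 : (0 : ℤ) ≤ ((Nat.find hex : ℕ) : ℤ) := by positivity
    by_contra hne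
    rcases Nat.lt_or_gt_of_ne hne with h3 | h3
    · have h3' : ((Nat.find hex : ℕ) : ℤ) < i := by exact_mod_cast h3
      have := hy.1 _ _ h1.2 h (by linarith)
      push_cast at this
      linarith
    · have h3' : (i : ℤ) < ((Nat.find hex : ℕ) : ℤ) := by exact_mod_cast h3
      have := hy.1 _ _ h h1.2 (by linarith)
      push_cast at this
      linarith
  rw [h2]

theorem enc_none {N : ℕ} {y : ℤ → Bool} {k : ℤ}
    (h : ∀ i : ℕ, i < 2 ^ N → y (k * 2 ^ N + i) ≠ true) : enc N y k = 2 := by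
  unfold enc
  rw [dif_neg]
  rintro ⟨i, h1, h2⟩
  exact h i h1 h2

theorem enc_cases {N : ℕ} {y : ℤ → Bool} (hy : Net (2 ^ N) y) (k : ℤ) :
    (∃ i : ℕ, i < 2 ^ N ∧ y (k * 2 ^ N + i) = true ∧ enc N y k = i / 2 ^ N) ∨
      ((∀ i : ℕ, i < 2 ^ N → y (k * 2 ^ N + i) ≠ true) ∧ enc N y k = 2) := by
  by_cases h : ∃ i : ℕ, i < 2 ^ N ∧ y (k * 2 ^ N + i) = true
  · obtain ⟨i, h1, h2⟩ := h
    exact Or.inl ⟨i, h1, h2, enc_point hy h1 h2⟩
  · push Not at h
    exact Or.inr ⟨h, enc_none h⟩

theorem goodV_enc {N : ℕ} {y : ℤ → Bool} (hy : Net (2 ^ N) y) : GoodV (enc N y) := by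
  have hpow : (0 : ℝ) < 2 ^ N := by positivity
  refine ⟨fun k => ?_, fun k k' hk => ?_, fun k => ?_⟩
  · rcases enc_cases hy k with ⟨i, h1, _, h3⟩ | ⟨_, h3⟩
    · left
      rw [h3]
      refine ⟨by positivity, ?_⟩
      rw [div_le_one hpow]
      exact_mod_cast h1.le
    · right; exact h3
  · rcases enc_cases hy k with ⟨i, h1, h2, h3⟩ | ⟨_, h3⟩
    · rcases enc_cases hy k' with ⟨i', h1', h2', h3'⟩ | ⟨_, h3'⟩
      · right; right
        rw [h3, h3']
        have hmul : k * 2 ^ N + 2 ^ N ≤ k' * 2 ^ N := by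
          have : (k + 1) * 2 ^ N ≤ k' * 2 ^ N :=
            mul_le_mul_of_nonneg_right (by omega) (by positivity)
          linarith
        have h1c : (i : ℤ) < 2 ^ N := by exact_mod_cast h1
        have := hy.1 _ _ h2 h2' (by omega)
        have hr : ((2 ^ N : ℕ) : ℝ) ≤ ((k' * 2 ^ N + i' - (k * 2 ^ N + i) : ℤ) : ℝ) := by
          exact_mod_cast this
        push_cast at hr
        have e : (k' : ℝ) + (i' : ℝ) / 2 ^ N - (k + (i : ℝ) / 2 ^ N) =
            ((k' : ℝ) * 2 ^ N + i' - (k * 2 ^ N + i)) / 2 ^ N := by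
          field_simp
        rw [e, le_div_iff₀ hpow, one_mul]
        exact hr
      · right; left; exact h3'
    · left; exact h3
  · obtain ⟨j, h1, h2, h3⟩ := hy.2 (k * 2 ^ N - 1)
    push_cast at h2
    set M : ℤ := 2 ^ N with hM
    have hMpos : 0 < M := by positivity
    set t : ℤ := (j - k * M) / M with ht
    have hdiv := Int.mul_ediv_add_emod (j - k * M) M
    have hmod := Int.emod_nonneg (j - k * M) hMpos.ne'
    have hmod' := Int.emod_lt_of_pos (j - k * M) hMpos
    rw [← ht] at hdiv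
    have ht0 : 0 ≤ t := Int.ediv_nonneg (by linarith) hMpos.le
    have ht4 : t < 4 := by
      apply Int.ediv_lt_of_lt_mul hMpos
      linarith
    set r := (j - k * M) % M with hr
    have e : (k + t) * M + r = j := by linarith
    refine ⟨⟨t.toNat, by omega⟩, ?_⟩
    have e1 : k + ((t.toNat : ℕ) : ℤ) = k + t := by omega
    simp only
    rw [e1]
    have hrN : r.toNat < 2 ^ N := by
      have : (r.toNat : ℤ) < 2 ^ N := by rw [Int.toNat_of_nonneg hmod]; exact hmod'
      exact_mod_cast this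
    have h4 : y ((k + t) * 2 ^ N + (r.toNat : ℤ)) = true := by
      rw [Int.toNat_of_nonneg hmod, e]
      exact h3
    rw [enc_point hy hrN h4, div_le_one hpow]
    exact_mod_cast hrN.le

theorem goodV_zero : GoodV (fun _ => 0) := by
  refine ⟨fun k => Or.inl ⟨le_rfl, by norm_num⟩, fun k k' hk => ?_, fun k => ⟨0, by norm_num⟩⟩
  right; right
  have : (k : ℝ) + 1 ≤ k' := by exact_mod_cast hk
  linarith

open Classical in
/-- The encoding with values in the space of configurations. -/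
noncomputable def encO (N : ℕ) (y : ℤ → Bool) : Om :=
  ⟨if Net (2 ^ N) y then enc N y else fun _ => 0, by
    split_ifs with h
    · exact goodV_enc h
    · exact goodV_zero⟩

theorem encO_val {N : ℕ} {y : ℤ → Bool} (hy : Net (2 ^ N) y) : (encO N y).1 = enc N y := by
  unfold encO
  simp only [if_pos hy]

theorem enc_congr (N : ℕ) (k : ℤ) {y y' : ℤ → Bool}
    (h : ∀ j ∈ Set.Ico (k * 2 ^ N) ((k + 1) * 2 ^ N), y j = y' j) : enc N y k = enc N y' k := by
  have : (fun i : ℕ => i < 2 ^ N ∧ y (k * 2 ^ N + i) = true) =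
      (fun i : ℕ => i < 2 ^ N ∧ y' (k * 2 ^ N + i) = true) := by
    funext i
    by_cases hi : i < 2 ^ N
    · rw [h (k * 2 ^ N + i) ⟨by omega, by
        have : (i : ℤ) < 2 ^ N := by exact_mod_cast hi
        linarith⟩]
    · simp [hi]
  unfold enc
  simp only [this]

theorem measurable_enc (N : ℕ) : Measurable (enc N) := by
  rw [measurable_pi_iff]
  intro k
  apply measurable_of_dependsOn (F := Finset.Ico (k * 2 ^ N) ((k + 1) * 2 ^ N))
  intro y y' h
  rw [Finset.coe_Ico] at h
  exact enc_congr N k h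

theorem measurable_encO (N : ℕ) : Measurable (encO N) := by
  apply Measurable.subtype_mk
  exact Measurable.ite (measurableSet_net _) (measurable_enc N) measurable_const

end Pool.Agent.H443R3.Space
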