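import Mathlib
import Pool.Agent.H443R3.Space

set_option autoImplicit false

open MeasureTheory ProbabilityTheory Filter Topology
open scoped ENNReal BoundedContinuousFunction

/-!
# The limit process
-/

namespace Pool.Agent.H443R3.Limit

open Pool.Agent.H443R3.Seq Pool.Agent.H443R3.Disc Pool.Agent.H443R3.Space

/-- The discrete net of scale `2^N`. -/
noncomputable def muN (N : ℕ) : Measure (ℤ → Bool) := (exists_net N).choose

instance (N : ℕ) : IsProbabilityMeasure (muN N) := (exists_net N).choose_spec.1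

theorem muN_stat (N : ℕ) : Stat (muN N) := (exists_net N).choose_spec.2.1

theorem muN_dep (N : ℕ) : Dep ((16 * 2 ^ N : ℕ) : ℤ) (muN N) := (exists_net N).choose_spec.2.2.1

theorem muN_net (N : ℕ) : ∀ᵐ y ∂(muN N), Net (2 ^ N) y := (exists_net N).choose_spec.2.2.2

/-- The law of the encoded net. -/
noncomputable def PN (N : ℕ) : ProbabilityMeasure Om :=
  ⟨(muN N).map (encO N), Measure.isProbabilityMeasure_map (measurable_encO N).aemeasurable⟩

theorem exists_limit : ∃ P : ProbabilityMeasure Om, Tendsto PN (hyperfilter ℕ) (𝓝 P) := by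
  let 𝒰 : Ultrafilter (ProbabilityMeasure Om) := (hyperfilter ℕ).map PN
  exact ⟨𝒰.lim, 𝒰.le_nhds_lim⟩

theorem integral_PN (N : ℕ) {h : Om → ℝ} (hh : Continuous h) :
    ∫ v, h v ∂(PN N : Measure Om) = ∫ y, h (encO N y) ∂(muN N) := by
  show ∫ v, h v ∂((muN N).map (encO N)) = _
  rw [integral_map (measurable_encO N).aemeasurable hh.aestronglyMeasurable]

/-! ### Linear functionals -/

/-- Cut-off: `1` for `s ≤ 1`, `0` for `s = 2`. -/
noncomputable def chi (s : ℝ) : ℝ := max 0 (min 1 (2 - s))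

theorem chi_le_one {s : ℝ} (h : s ≤ 1) : chi s = 1 := by
  unfold chi
  rw [min_eq_left (by linarith), max_eq_right (by norm_num)]

theorem chi_two : chi 2 = 0 := by
  unfold chi
  norm_num

theorem continuous_chi : Continuous chi := by
  unfold chi
  fun_prop

/-- The functional `∑_{x ∈ X} f x`, the sum running over the blocks in `J`. -/
noncomputable def S (f : ℝ → ℝ) (J : Finset ℤ) (v : ℤ → ℝ) : ℝ :=
  ∑ k ∈ J, f (k + v k) * chi (v k)

theorem continuous_S {f : ℝ → ℝ} (hf : Continuous f) (J : Finset ℤ) :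
    Continuous (fun v : Om => S f J v.1) := by
  unfold S
  apply continuous_finsetSum
  intro k _
  have h1 : Continuous (fun v : Om => v.1 k) := (continuous_apply k).comp continuous_subtype_val
  exact (hf.comp (continuous_const.add h1)).mul (continuous_chi.comp h1)

theorem sum_Ico_int {M : Type*} [AddCommMonoid M] (h : ℤ → M) (c : ℤ) (n : ℕ) :
    ∑ j ∈ Finset.Ico c (c + n), h j = ∑ i ∈ Finset.range n, h (c + i) := by
  induction n with
  | zero => simp
  | succ n ih =>
    have e : Finset.Ico c (c + ((n + 1 : ℕ) : ℤ)) = insert (c + n) (Finset.Ico c (c + n)) := by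
      ext j
      simp only [Finset.mem_insert, Finset.mem_Ico]
      push_cast
      omega
    rw [e, Finset.sum_insert (by simp), ih, Finset.sum_range_succ, add_comm]

theorem sum_blocks (h : ℤ → ℝ) (a : ℤ) (n M : ℕ) :
    ∑ k ∈ Finset.Ico a (a + n), ∑ i ∈ Finset.range M, h (k * M + i) =
      ∑ j ∈ Finset.Ico (a * M) (a * M + ((n * M : ℕ) : ℤ)), h j := by
  rw [sum_Ico_int, sum_Ico_int]
  induction n with
  | zero => simp
  | succ n ih =>
    rw [Finset.sum_range_succ, ih, show (n + 1) * M = n * M + M by ring, Finset.sum_range_add]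
    congr 1
    apply Finset.sum_congr rfl
    intro i _
    congr 1
    push_cast
    ring

theorem block_eq {N : ℕ} {y : ℤ → Bool} (hy : Net (2 ^ N) y) (f : ℝ → ℝ) (k : ℤ) :
    f (k + enc N y k) * chi (enc N y k) =
      ∑ i ∈ Finset.range (2 ^ N), (pt y (k * ((2 ^ N : ℕ) : ℤ) + i) : ℝ) *
        f (((k * ((2 ^ N : ℕ) : ℤ) + i : ℤ) : ℝ) / 2 ^ N) := by
  have hpow : (0 : ℝ) < 2 ^ N := by positivity
  rcases enc_cases hy k with ⟨i, h1, h2, h3⟩ | ⟨h2, h3⟩
  · rw [h3, Finset.sum_eq_single i]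
    · have hle : (i : ℝ) / 2 ^ N ≤ 1 := by
        rw [div_le_one hpow]
        exact_mod_cast h1.le
      rw [chi_le_one hle]
      have e : (k : ℝ) + (i : ℝ) / 2 ^ N = ((k * ((2 ^ N : ℕ) : ℤ) + i : ℤ) : ℝ) / 2 ^ N := by
        push_cast
        field_simp
      rw [e]
      have hp : pt y (k * ((2 ^ N : ℕ) : ℤ) + i) = 1 := by
        unfold pt
        push_cast
        rw [if_pos h2]
      rw [hp]
      push_cast
      ring
    · intro i' hi' hne
      have hi'' := Finset.mem_range.1 hi'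
      have hp : pt y (k * ((2 ^ N : ℕ) : ℤ) + i') = 0 := by
        unfold pt
        push_cast
        rw [if_neg]
        intro hy'
        have hiZ : (i : ℤ) < 2 ^ N := by exact_mod_cast h1
        have hiZ' : (i' : ℤ) < 2 ^ N := by exact_mod_cast hi''
        have hi0 : (0 : ℤ) ≤ i := by positivity
        have hi0' : (0 : ℤ) ≤ i' := by positivity
        rcases Nat.lt_or_gt_of_ne hne with h4 | h4
        · have h4' : (i' : ℤ) < i := by exact_mod_cast h4
          have := hy.1 _ _ hy' h2 (by linarith)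
          push_cast at this
          linarith
        · have h4' : (i : ℤ) < i' := by exact_mod_cast h4
          have := hy.1 _ _ h2 hy' (by linarith)
          push_cast at this
          linarith
      rw [hp]
      simp
    · intro h
      exact absurd (Finset.mem_range.2 h1) h
  · rw [h3, chi_two, mul_zero]
    symm
    apply Finset.sum_eq_zero
    intro i hi
    have hp : pt y (k * ((2 ^ N : ℕ) : ℤ) + i) = 0 := by
      unfold pt
      push_cast
      rw [if_neg (h2 i (Finset.mem_range.1 hi))]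
    rw [hp]
    simp

/-- The functional on the discrete side, over all sites. -/
noncomputable def T (N : ℕ) (f : ℝ → ℝ) (y : ℤ → Bool) : ℝ :=
  ∑' j : ℤ, (pt y j : ℝ) * f ((j : ℝ) / 2 ^ N)

theorem T_eq_sum (N : ℕ) {f : ℝ → ℝ} {R : ℕ} (hf : ∀ x, (R : ℝ) ≤ |x| → f x = 0)
    (y : ℤ → Bool) : T N f y =
      ∑ j ∈ Finset.Ico (-(R : ℤ) * ((2 ^ N : ℕ) : ℤ)) (-(R : ℤ) * ((2 ^ N : ℕ) : ℤ) + ((2 * R * 2 ^ N : ℕ) : ℤ)),
        (pt y j : ℝ) * f ((j : ℝ) / 2 ^ N) := by
  have hpow : (0 : ℝ) < 2 ^ N := by positivity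
  unfold T
  apply tsum_eq_sum
  intro j hj
  rw [hf, mul_zero]
  rw [Finset.mem_Ico, not_and_or, not_le, not_lt] at hj
  rw [abs_div, abs_of_pos hpow, le_div_iff₀ hpow]
  rcases hj with hj | hj
  · have h1 : (j : ℝ) < -(R : ℝ) * 2 ^ N := by exact_mod_cast hj
    have := neg_abs_le (j : ℝ)
    nlinarith
  · have h1 : -(R : ℝ) * 2 ^ N + 2 * R * 2 ^ N ≤ (j : ℝ) := by exact_mod_cast hj
    have := le_abs_self (j : ℝ)
    nlinarith

theorem S_enc {N : ℕ} {y : ℤ → Bool} (hy : Net (2 ^ N) y) {f : ℝ → ℝ} {R : ℕ}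
    (hf : ∀ x, (R : ℝ) ≤ |x| → f x = 0) :
    S f (Finset.Ico (-(R : ℤ)) R) (enc N y) = T N f y := by
  rw [T_eq_sum N hf]
  unfold S
  have e : Finset.Ico (-(R : ℤ)) R = Finset.Ico (-(R : ℤ)) (-(R : ℤ) + ((2 * R : ℕ) : ℤ)) := by
    congr 1
    push_cast
    ring
  rw [e]
  simp only [block_eq hy f]
  exact sum_blocks (fun j => (pt y j : ℝ) * f ((j : ℝ) / 2 ^ N)) (-(R : ℤ)) (2 * R) (2 ^ N)

theorem T_tr (N : ℕ) (f : ℝ → ℝ) (m : ℤ) (y : ℤ → Bool) :
    T N f (tr m y) = T N (fun x => f (x - (m : ℝ) / 2 ^ N)) y := by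
  unfold T
  rw [← (Equiv.addRight m).tsum_eq (fun j : ℤ => (pt y j : ℝ) * f ((j : ℝ) / 2 ^ N - (m : ℝ) / 2 ^ N))]
  apply tsum_congr
  intro j
  have e1 : pt (tr m y) j = pt y (Equiv.addRight m j) := rfl
  rw [e1]
  congr 2
  rw [Equiv.coe_addRight]
  push_cast
  ring

/-- Invariance at level `N` under translations in `2^{-N} ℤ`. -/
theorem shiftN (N : ℕ) (m : ℤ) {n : ℕ} (f : Fin n → ℝ → ℝ) (hfc : ∀ i, Continuous (f i)) {R : ℕ}
    (hf : ∀ i x, (R : ℝ) ≤ |x| → f i x = 0)
    (hf' : ∀ i x, (R : ℝ) ≤ |x| → f i (x - (m : ℝ) / 2 ^ N) = 0) (Ψ : (Fin n → ℝ) →ᵇ ℝ) :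
    ∫ v : Om, Ψ (fun i => S (fun x => f i (x - (m : ℝ) / 2 ^ N)) (Finset.Ico (-(R : ℤ)) R) v.1)
        ∂(PN N : Measure Om) =
      ∫ v : Om, Ψ (fun i => S (f i) (Finset.Ico (-(R : ℤ)) R) v.1) ∂(PN N : Measure Om) := by
  have c1 : Continuous (fun v : Om => Ψ (fun i => S (fun x => f i (x - (m : ℝ) / 2 ^ N))
      (Finset.Ico (-(R : ℤ)) R) v.1)) := by
    apply Ψ.continuous.comp
    apply continuous_pi
    intro i
    apply continuous_S
    exact (hfc i).comp (continuous_id.sub continuous_const)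
  have c2 : Continuous (fun v : Om => Ψ (fun i => S (f i) (Finset.Ico (-(R : ℤ)) R) v.1)) := by
    apply Ψ.continuous.comp
    apply continuous_pi
    intro i
    exact continuous_S (hfc i) _
  rw [integral_PN N c1, integral_PN N c2]
  set H : (ℤ → Bool) → ℝ := fun y => Ψ (fun i =>
      ∑ j ∈ Finset.Ico (-(R : ℤ) * ((2 ^ N : ℕ) : ℤ)) (-(R : ℤ) * ((2 ^ N : ℕ) : ℤ) + ((2 * R * 2 ^ N : ℕ) : ℤ)),
        (pt y j : ℝ) * f i ((j : ℝ) / 2 ^ N)) with hH
  have hHm : Measurable H := by
    apply Ψ.continuous.measurable.comp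
    rw [measurable_pi_iff]
    intro i
    apply Finset.measurable_fun_sum
    intro j _
    apply Measurable.mul_const
    apply measurable_of_dependsOn (F := {j})
    intro y y' h
    have : y j = y' j := h j (by simp)
    show (pt y j : ℝ) = (pt y' j : ℝ)
    unfold pt
    rw [this]
  have hHT : ∀ y, H y = Ψ (fun i => T N (f i) y) := by
    intro y
    simp only [hH]
    congr 1
    funext i
    rw [T_eq_sum N (hf i)]
  have e1 : ∫ y, Ψ (fun i => S (fun x => f i (x - (m : ℝ) / 2 ^ N))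
      (Finset.Ico (-(R : ℤ)) R) (encO N y).1) ∂(muN N) = ∫ y, H (tr m y) ∂(muN N) := by
    apply integral_congr_ae
    filter_upwards [muN_net N] with y hy
    rw [hHT]
    congr 1
    funext i
    rw [encO_val hy, S_enc hy (hf' i), T_tr]
  have e2 : ∫ y, Ψ (fun i => S (f i) (Finset.Ico (-(R : ℤ)) R) (encO N y).1) ∂(muN N) =
      ∫ y, H y ∂(muN N) := by
    apply integral_congr_ae
    filter_upwards [muN_net N] with y hy
    rw [hHT]
    congr 1
    funext i
    rw [encO_val hy, S_enc hy (hf i)]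
  rw [e1, e2]
  have e3 : ∫ y, H y ∂((muN N).map (tr m)) = ∫ y, H (tr m y) ∂(muN N) :=
    integral_map (measurable_tr m).aemeasurable hHm.aestronglyMeasurable
  rw [← e3, muN_stat N m]

/-! ### Approximate indicators of intervals -/

/-- A continuous approximation of the indicator of `[l, r]`. -/
noncomputable def phi (n : ℕ) (l r x : ℝ) : ℝ := max 0 (1 - n * max 0 (max (l - x) (x - r)))

theorem continuous_phi (n : ℕ) (l r : ℝ) : Continuous (phi n l r) := by
  unfold phi
  fun_prop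

theorem phi_shift (n : ℕ) (l r t x : ℝ) : phi n (l + t) (r + t) x = phi n l r (x - t) := by
  unfold phi
  congr 4
  ring_nf

theorem phi_zero {n : ℕ} (hn : 1 ≤ n) {l r x R : ℝ} (hl : -R ≤ l - 1) (hr : r + 1 ≤ R)
    (hx : R ≤ |x|) : phi n l r x = 0 := by
  unfold phi
  apply max_eq_left
  have hn' : (1 : ℝ) ≤ n := by exact_mod_cast hn
  have h1 : 1 ≤ max 0 (max (l - x) (x - r)) := by
    rcases le_total 0 x with h | h
    · rw [abs_of_nonneg h] at hx
      exact le_trans (by linarith) (le_trans (le_max_right (l - x) (x - r)) (le_max_right _ _))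
    · rw [abs_of_nonpos h] at hx
      exact le_trans (by linarith) (le_trans (le_max_left (l - x) (x - r)) (le_max_right _ _))
  nlinarith

theorem phi_tendsto (l r x : ℝ) :
    Tendsto (fun n : ℕ => phi n l r x) atTop (𝓝 (if l ≤ x ∧ x ≤ r then 1 else 0)) := by
  by_cases h : l ≤ x ∧ x ≤ r
  · rw [if_pos h]
    apply tendsto_const_nhds.congr
    intro n
    unfold phi
    have : max 0 (max (l - x) (x - r)) = 0 := by
      apply max_eq_left
      exact max_le (by linarith [h.1]) (by linarith [h.2])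
    rw [this]
    norm_num
  · rw [if_neg h]
    have hd : 0 < max 0 (max (l - x) (x - r)) := by
      rw [not_and_or, not_le, not_le] at h
      rcases h with h | h
      · exact lt_of_lt_of_le (by linarith) (le_trans (le_max_left (l - x) (x - r)) (le_max_right _ _))
      · exact lt_of_lt_of_le (by linarith) (le_trans (le_max_right (l - x) (x - r)) (le_max_right _ _))
    set δ := max 0 (max (l - x) (x - r)) with hδ
    obtain ⟨n0, hn0⟩ := exists_nat_gt (1 / δ)
    apply tendsto_const_nhds.congr'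
    filter_upwards [eventually_ge_atTop n0] with n hn
    unfold phi
    symm
    apply max_eq_left
    rw [← hδ]
    have h1 : 1 / δ < n := lt_of_lt_of_le hn0 (by exact_mod_cast hn)
    rw [div_lt_iff₀ hd] at h1
    linarith

theorem S_phi_tendsto (l r : ℝ) (J : Finset ℤ) (v : Om) :
    Tendsto (fun n : ℕ => S (phi n l r) J v.1) atTop (𝓝 ((C l r J v.1 : ℕ) : ℝ)) := by
  unfold S C
  push_cast
  apply tendsto_finsetSum
  intro k _
  have h1 := (phi_tendsto l r (k + v.1 k)).mul_const (chi (v.1 k))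
  have e : (if l ≤ k + v.1 k ∧ k + v.1 k ≤ r then (1 : ℝ) else 0) * chi (v.1 k) =
      if v.1 k ≤ 1 ∧ l ≤ k + v.1 k ∧ k + v.1 k ≤ r then 1 else 0 := by
    rcases v.2.1 k with h | h
    · rw [chi_le_one h.2, mul_one]
      by_cases h2 : l ≤ k + v.1 k ∧ k + v.1 k ≤ r
      · rw [if_pos h2, if_pos ⟨h.2, h2⟩]
      · rw [if_neg h2, if_neg (fun h3 => h2 h3.2)]
    · rw [h, chi_two, mul_zero, if_neg]
      rintro ⟨h3, _⟩
      norm_num at h3
  rw [e] at h1
  exact h1

end Pool.Agent.H443R3.Limit
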