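import Mathlib
import Pool.Agent.H443R3.Limit

set_option autoImplicit false

open MeasureTheory ProbabilityTheory Filter Topology
open scoped ENNReal BoundedContinuousFunction

/-!
# Properties of the limit process
-/

namespace Pool.Agent.H443R3.Final

open Pool.Agent.H443R3.Seq Pool.Agent.H443R3.Disc Pool.Agent.H443R3.Space Pool.Agent.H443R3.Limit

variable {P : ProbabilityMeasure Om}

theorem tendsto_integral (hP : Tendsto PN (hyperfilter ℕ) (𝓝 P)) {h : Om → ℝ} (hh : Continuous h) :
    Tendsto (fun N => ∫ v, h v ∂(PN N : Measure Om)) (hyperfilter ℕ)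
      (𝓝 (∫ v, h v ∂(P : Measure Om))) := by
  have h1 := ProbabilityMeasure.tendsto_iff_forall_integral_tendsto.1 hP
    (BoundedContinuousFunction.mkOfCompact ⟨h, hh⟩)
  exact h1

/-! ### Translation invariance -/

/-- The functional that will be shown not to depend on `t`. -/
noncomputable def A (P : ProbabilityMeasure Om) {n : ℕ} (l r : Fin n → ℝ) (q R : ℕ)
    (Ψ : (Fin n → ℝ) →ᵇ ℝ) (t : ℝ) : ℝ :=
  ∫ v : Om, Ψ (fun i => S (phi q (l i + t) (r i + t)) (Finset.Ico (-(R : ℤ)) R) v.1)
    ∂(P : Measure Om)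

theorem continuous_integrand {n : ℕ} (l r : Fin n → ℝ) (q R : ℕ) (Ψ : (Fin n → ℝ) →ᵇ ℝ) (t : ℝ) :
    Continuous (fun v : Om =>
      Ψ (fun i => S (phi q (l i + t) (r i + t)) (Finset.Ico (-(R : ℤ)) R) v.1)) := by
  apply Ψ.continuous.comp
  apply continuous_pi
  intro i
  exact continuous_S (continuous_phi _ _ _) _

theorem A_dyadic (hP : Tendsto PN (hyperfilter ℕ) (𝓝 P)) {n : ℕ} (l r : Fin n → ℝ) {q R : ℕ}
    (hq : 1 ≤ q) (Ψ : (Fin n → ℝ) →ᵇ ℝ) {T : ℝ} (hT : 0 ≤ T)
    (hl : ∀ i, -(R : ℝ) ≤ l i - T - 1) (hr : ∀ i, r i + T + 1 ≤ R) (m : ℤ) (N0 : ℕ)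
    (ht : |(m : ℝ) / 2 ^ N0| ≤ T) : A P l r q R Ψ ((m : ℝ) / 2 ^ N0) = A P l r q R Ψ 0 := by
  have h1 := tendsto_integral hP (continuous_integrand l r q R Ψ ((m : ℝ) / 2 ^ N0))
  have h2 := tendsto_integral hP (continuous_integrand l r q R Ψ 0)
  have h3 : ∀ᶠ N : ℕ in (hyperfilter ℕ : Filter ℕ),
      ∫ v : Om, Ψ (fun i => S (phi q (l i + (m : ℝ) / 2 ^ N0) (r i + (m : ℝ) / 2 ^ N0))
        (Finset.Ico (-(R : ℤ)) R) v.1) ∂(PN N : Measure Om) =
      ∫ v : Om, Ψ (fun i => S (phi q (l i + 0) (r i + 0))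
        (Finset.Ico (-(R : ℤ)) R) v.1) ∂(PN N : Measure Om) := by
    have h4 : ∀ᶠ N : ℕ in atTop,
      ∫ v : Om, Ψ (fun i => S (phi q (l i + (m : ℝ) / 2 ^ N0) (r i + (m : ℝ) / 2 ^ N0))
        (Finset.Ico (-(R : ℤ)) R) v.1) ∂(PN N : Measure Om) =
      ∫ v : Om, Ψ (fun i => S (phi q (l i + 0) (r i + 0))
        (Finset.Ico (-(R : ℤ)) R) v.1) ∂(PN N : Measure Om) := by
      filter_upwards [eventually_ge_atTop N0] with N hN
      have e : (m : ℝ) / 2 ^ N0 = ((m * 2 ^ (N - N0) : ℤ) : ℝ) / 2 ^ N := by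
        push_cast
        have : (2 : ℝ) ^ N = 2 ^ N0 * 2 ^ (N - N0) := by
          rw [← pow_add]; congr 1; omega
        rw [this]
        field_simp
      have habs := abs_le.1 ht
      have key := shiftN N (m * 2 ^ (N - N0)) (fun i => phi q (l i) (r i))
        (fun i => continuous_phi _ _ _) (R := R)
        (fun i x hx => phi_zero hq (by linarith [hl i]) (by linarith [hr i]) hx)
        (fun i x hx => by
          show phi q (l i) (r i) (x - ((m * 2 ^ (N - N0) : ℤ) : ℝ) / 2 ^ N) = 0
          rw [← phi_shift, ← e]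
          exact phi_zero hq (by linarith [hl i]) (by linarith [hr i]) hx) Ψ
      simp only [← e, ← phi_shift] at key
      simp only [add_zero]
      exact key
    rw [← Nat.cofinite_eq_atTop] at h4
    exact h4.filter_mono hyperfilter_le_cofinite
  exact tendsto_nhds_unique (h1.congr' h3) h2

theorem continuous_phi_joint (q : ℕ) (l r x : ℝ) :
    Continuous (fun t : ℝ => phi q (l + t) (r + t) x) := by
  unfold phi
  fun_prop

theorem A_continuous {n : ℕ} (l r : Fin n → ℝ) (q R : ℕ) (Ψ : (Fin n → ℝ) →ᵇ ℝ) :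
    Continuous (A P l r q R Ψ) := by
  unfold A
  apply continuous_of_dominated (bound := fun _ => ‖Ψ‖)
  · intro t
    exact (continuous_integrand l r q R Ψ t).aestronglyMeasurable
  · intro t
    filter_upwards with v
    exact Ψ.norm_coe_le_norm _
  · exact integrable_const _
  · filter_upwards with v
    apply Ψ.continuous.comp
    apply continuous_pi
    intro i
    unfold S
    apply continuous_finsetSum
    intro k _
    exact (continuous_phi_joint q (l i) (r i) _).mul continuous_const

theorem A_const (hP : Tendsto PN (hyperfilter ℕ) (𝓝 P)) {n : ℕ} (l r : Fin n → ℝ) {q R : ℕ}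
    (hq : 1 ≤ q) (Ψ : (Fin n → ℝ) →ᵇ ℝ) (t : ℝ)
    (hl : ∀ i, -(R : ℝ) ≤ l i - (|t| + 1) - 1) (hr : ∀ i, r i + (|t| + 1) + 1 ≤ R) :
    A P l r q R Ψ t = A P l r q R Ψ 0 := by
  have hlim : Tendsto (fun N : ℕ => ((⌊t * 2 ^ N⌋ : ℤ) : ℝ) / 2 ^ N) atTop (𝓝 t) := by
    have h1 : Tendsto (fun N : ℕ => t - (1 / 2 : ℝ) ^ N) atTop (𝓝 (t - 0)) :=
      (tendsto_pow_atTop_nhds_zero_of_lt_one (by norm_num) (by norm_num)).const_sub t
    rw [sub_zero] at h1
    apply tendsto_of_tendsto_of_tendsto_of_le_of_le h1 tendsto_const_nhds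
    · intro N
      have hpow : (0 : ℝ) < 2 ^ N := by positivity
      have := Int.lt_floor_add_one (t * 2 ^ N)
      show t - (1 / 2 : ℝ) ^ N ≤ ((⌊t * 2 ^ N⌋ : ℤ) : ℝ) / 2 ^ N
      rw [le_div_iff₀ hpow, sub_mul, ← mul_pow]
      norm_num
      linarith
    · intro N
      have hpow : (0 : ℝ) < 2 ^ N := by positivity
      show ((⌊t * 2 ^ N⌋ : ℤ) : ℝ) / 2 ^ N ≤ t
      rw [div_le_iff₀ hpow]
      exact Int.floor_le _
  have h2 : Tendsto (fun N : ℕ => A P l r q R Ψ (((⌊t * 2 ^ N⌋ : ℤ) : ℝ) / 2 ^ N)) atTop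
      (𝓝 (A P l r q R Ψ t)) := ((A_continuous l r q R Ψ).tendsto t).comp hlim
  have h3 : ∀ N : ℕ, A P l r q R Ψ (((⌊t * 2 ^ N⌋ : ℤ) : ℝ) / 2 ^ N) = A P l r q R Ψ 0 := by
    intro N
    apply A_dyadic hP l r hq Ψ (T := |t| + 1) (by positivity) hl hr
    have hpow : (1 : ℝ) ≤ 2 ^ N := one_le_pow₀ (by norm_num)
    have hpow' : (0 : ℝ) < 2 ^ N := by positivity
    have hf1 := Int.lt_floor_add_one (t * 2 ^ N)
    have hf2 := Int.floor_le (t * 2 ^ N)
    have ha := abs_nonneg t
    rw [abs_le]
    constructor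
    · rw [le_div_iff₀ hpow']
      have := neg_abs_le t
      nlinarith
    · rw [div_le_iff₀ hpow']
      have := le_abs_self t
      nlinarith
  simp only [h3] at h2
  exact (tendsto_nhds_unique h2 tendsto_const_nhds)

/-- A range that is large enough for all the intervals. -/
theorem exists_range {n : ℕ} (l r : Fin n → ℝ) (t : ℝ) : ∃ R : ℕ,
    (∀ i, -(R : ℝ) ≤ l i - (|t| + 1) - 1) ∧ (∀ i, r i + (|t| + 1) + 1 < R) ∧
    (∀ i, -(R : ℝ) ≤ l i + t - 1) ∧ (∀ i, r i + t < R) := by
  obtain ⟨R, hR⟩ := exists_nat_gt (∑ i, (|l i| + |r i|) + |t| + 2)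
  have hsum : ∀ i, |l i| + |r i| ≤ ∑ i, (|l i| + |r i|) := fun i =>
    Finset.single_le_sum (f := fun i => |l i| + |r i|) (fun i _ => by positivity)
      (Finset.mem_univ i)
  refine ⟨R, fun i => ?_, fun i => ?_, fun i => ?_, fun i => ?_⟩
  · have := hsum i
    have h1 := neg_abs_le (l i)
    have h2 := abs_nonneg (r i)
    linarith
  · have := hsum i
    have h1 := le_abs_self (r i)
    have h2 := abs_nonneg (l i)
    linarith
  · have := hsum i
    have h1 := neg_abs_le (l i)
    have h2 := abs_nonneg (r i)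
    have h3 := neg_abs_le t
    linarith
  · have := hsum i
    have h1 := le_abs_self (r i)
    have h2 := abs_nonneg (l i)
    have h3 := le_abs_self t
    linarith

theorem translation (hP : Tendsto PN (hyperfilter ℕ) (𝓝 P)) (t : ℝ) (n : ℕ) (l r : Fin n → ℝ)
    (k : Fin n → ℕ) :
    (P : Measure Om) {v : Om | ∀ i : Fin n, (X v ∩ Set.Icc (l i) (r i)).ncard = k i} =
      (P : Measure Om) {v : Om | ∀ i : Fin n, (X v ∩ Set.Icc (l i + t) (r i + t)).ncard = k i} := by
  obtain ⟨R, hR1, hR2, hR3, hR4⟩ := exists_range l r t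
  set J := Finset.Ico (-(R : ℤ)) (R : ℤ) with hJ
  have ha := abs_nonneg t
  have c1 : ∀ (v : Om) (i : Fin n), (X v ∩ Set.Icc (l i) (r i)).ncard = C (l i) (r i) J v.1 :=
    fun v i => ncard_eq v _ _ _ (fun k h h1 h2 =>
      mem_range (by linarith [hR1 i]) (by linarith [hR2 i]) k h h1 h2)
  have c2 : ∀ (v : Om) (i : Fin n), (X v ∩ Set.Icc (l i + t) (r i + t)).ncard =
      C (l i + t) (r i + t) J v.1 :=
    fun v i => ncard_eq v _ _ _ (fun k h h1 h2 =>
      mem_range (hR3 i) (hR4 i) k h h1 h2)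
  simp only [c1, c2]
  set Z : Om → (Fin n → ℝ) := fun v i => ((C (l i) (r i) J v.1 : ℕ) : ℝ) with hZ
  set Z' : Om → (Fin n → ℝ) := fun v i => ((C (l i + t) (r i + t) J v.1 : ℕ) : ℝ) with hZ'
  have hZm : Measurable Z := by
    rw [measurable_pi_iff]
    intro i
    exact (measurable_from_top (f := fun n : ℕ => (n : ℝ))).comp
      (measurable_C _ _ _ (fun k _ => measurable_coord k))
  have hZm' : Measurable Z' := by
    rw [measurable_pi_iff]
    intro i
    exact (measurable_from_top (f := fun n : ℕ => (n : ℝ))).comp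
      (measurable_C _ _ _ (fun k _ => measurable_coord k))
  have hmap : (P : Measure Om).map Z = (P : Measure Om).map Z' := by
    have : IsProbabilityMeasure ((P : Measure Om).map Z) :=
      Measure.isProbabilityMeasure_map hZm.aemeasurable
    have : IsProbabilityMeasure ((P : Measure Om).map Z') :=
      Measure.isProbabilityMeasure_map hZm'.aemeasurable
    apply ext_of_forall_integral_eq_of_IsFiniteMeasure
    intro Ψ
    rw [integral_map hZm.aemeasurable Ψ.continuous.aestronglyMeasurable,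
      integral_map hZm'.aemeasurable Ψ.continuous.aestronglyMeasurable]
    have l1 : Tendsto (fun q : ℕ => ∫ v : Om, Ψ (fun i => S (phi q (l i) (r i)) J v.1)
        ∂(P : Measure Om)) atTop (𝓝 (∫ v, Ψ (Z v) ∂(P : Measure Om))) := by
      apply tendsto_integral_of_dominated_convergence (fun _ => ‖Ψ‖)
      · intro q
        apply Continuous.aestronglyMeasurable
        apply Ψ.continuous.comp
        apply continuous_pi
        intro i
        exact continuous_S (continuous_phi _ _ _) _
      · exact integrable_const _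
      · intro q
        filter_upwards with v
        exact Ψ.norm_coe_le_norm _
      · filter_upwards with v
        apply (Ψ.continuous.tendsto _).comp
        rw [tendsto_pi_nhds]
        intro i
        exact S_phi_tendsto _ _ _ v
    have l2 : Tendsto (fun q : ℕ => ∫ v : Om, Ψ (fun i => S (phi q (l i + t) (r i + t)) J v.1)
        ∂(P : Measure Om)) atTop (𝓝 (∫ v, Ψ (Z' v) ∂(P : Measure Om))) := by
      apply tendsto_integral_of_dominated_convergence (fun _ => ‖Ψ‖)
      · intro q
        apply Continuous.aestronglyMeasurable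
        apply Ψ.continuous.comp
        apply continuous_pi
        intro i
        exact continuous_S (continuous_phi _ _ _) _
      · exact integrable_const _
      · intro q
        filter_upwards with v
        exact Ψ.norm_coe_le_norm _
      · filter_upwards with v
        apply (Ψ.continuous.tendsto _).comp
        rw [tendsto_pi_nhds]
        intro i
        exact S_phi_tendsto _ _ _ v
    apply tendsto_nhds_unique l1
    apply l2.congr'
    filter_upwards [eventually_ge_atTop 1] with q hq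
    have h := A_const hP l r hq Ψ t hR1 (fun i => (hR2 i).le)
    unfold A at h
    simp only [add_zero] at h
    exact h
  have e1 : {v : Om | ∀ i : Fin n, C (l i) (r i) J v.1 = k i} = Z ⁻¹' {fun i => (k i : ℝ)} := by
    ext v
    rw [Set.mem_preimage, Set.mem_singleton_iff, funext_iff]
    simp only [hZ, Nat.cast_inj]
    rfl
  have e2 : {v : Om | ∀ i : Fin n, C (l i + t) (r i + t) J v.1 = k i} =
      Z' ⁻¹' {fun i => (k i : ℝ)} := by
    ext v
    rw [Set.mem_preimage, Set.mem_singleton_iff, funext_iff]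
    simp only [hZ', Nat.cast_inj]
    rfl
  rw [e1, e2, ← Measure.map_apply hZm (measurableSet_singleton _),
    ← Measure.map_apply hZm' (measurableSet_singleton _), hmap]

/-! ### Finite dependence -/

/-- Coordinates up to `0`. -/
def Zl (v : ℤ → ℝ) : Set.Iic (0 : ℤ) → ℝ := fun k => v k

/-- Coordinates from `17` on. -/
def Zr (v : ℤ → ℝ) : Set.Ici (17 : ℤ) → ℝ := fun k => v k

theorem indepFun_enc (N : ℕ) : IndepFun (fun y => Zl (enc N (tr (-(2 ^ N : ℤ)) y)))
    (fun y => Zr (enc N (tr (-(2 ^ N : ℤ)) y))) (muN N) := by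
  have hM : (0 : ℤ) < 2 ^ N := by positivity
  apply (muN_dep N).indepFun
  · have h1 := (measurable_enc N).comp (measurable_tr (α := Bool) (-(2 ^ N : ℤ)))
    rw [measurable_pi_iff]
    intro k
    exact (measurable_pi_apply (k : ℤ)).comp h1
  · have h1 := (measurable_enc N).comp (measurable_tr (α := Bool) (-(2 ^ N : ℤ)))
    rw [measurable_pi_iff]
    intro k
    exact (measurable_pi_apply (k : ℤ)).comp h1
  · intro y y' h
    funext k
    apply enc_congr
    intro j hj
    apply h
    have hk : (k : ℤ) ≤ 0 := k.2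
    have h2 : j < ((k : ℤ) + 1) * 2 ^ N := hj.2
    have h3 : ((k : ℤ) + 1) * 2 ^ N ≤ 1 * 2 ^ N :=
      mul_le_mul_of_nonneg_right (by omega) hM.le
    show j + -(2 ^ N : ℤ) ≤ 0
    linarith
  · intro y y' h
    funext k
    apply enc_congr
    intro j hj
    apply h
    have hk : 17 ≤ (k : ℤ) := k.2
    have h2 : (k : ℤ) * 2 ^ N ≤ j := hj.1
    have h3 : 17 * 2 ^ N ≤ (k : ℤ) * 2 ^ N :=
      mul_le_mul_of_nonneg_right hk hM.le
    show ((16 * 2 ^ N : ℕ) : ℤ) ≤ j + -(2 ^ N : ℤ)
    push_cast
    linarith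

theorem continuous_Zl : Continuous (fun v : Om => Zl v.1) := by
  apply continuous_pi
  intro k
  exact (continuous_apply (k : ℤ)).comp continuous_subtype_val

theorem continuous_Zr : Continuous (fun v : Om => Zr v.1) := by
  apply continuous_pi
  intro k
  exact (continuous_apply (k : ℤ)).comp continuous_subtype_val

theorem integral_tr (N : ℕ) {h : Om → ℝ} (hh : Continuous h) (m : ℤ)
    {h' : (ℤ → ℝ) → ℝ} (hh' : ∀ v : Om, h v = h' v.1) (hm : Measurable h') :
    ∫ v, h v ∂(PN N : Measure Om) = ∫ y, h' (enc N (tr m y)) ∂(muN N) := by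
  rw [integral_PN N hh]
  have e1 : ∫ y, h (encO N y) ∂(muN N) = ∫ y, h' (enc N y) ∂(muN N) := by
    apply integral_congr_ae
    filter_upwards [muN_net N] with y hy
    rw [hh', encO_val hy]
  rw [e1]
  have e2 : ∫ y, h' (enc N y) ∂((muN N).map (tr m)) = ∫ y, h' (enc N (tr m y)) ∂(muN N) :=
    integral_map (measurable_tr m).aemeasurable
      (hm.comp (measurable_enc N)).aestronglyMeasurable
  rw [← e2, muN_stat N m]

theorem indep_N (N : ℕ) (f : (Set.Iic (0 : ℤ) → ℝ) →ᵇ ℝ) (g : (Set.Ici (17 : ℤ) → ℝ) →ᵇ ℝ) :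
    ∫ v : Om, f (Zl v.1) * g (Zr v.1) ∂(PN N : Measure Om) =
      (∫ v : Om, f (Zl v.1) ∂(PN N : Measure Om)) * ∫ v : Om, g (Zr v.1) ∂(PN N : Measure Om) := by
  have mZl : Measurable Zl := by
    rw [measurable_pi_iff]; intro k; exact measurable_pi_apply _
  have mZr : Measurable Zr := by
    rw [measurable_pi_iff]; intro k; exact measurable_pi_apply _
  have mf : Measurable (fun v : ℤ → ℝ => f (Zl v)) := f.continuous.measurable.comp mZl
  have mg : Measurable (fun v : ℤ → ℝ => g (Zr v)) := g.continuous.measurable.comp mZr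
  have cf : Continuous (fun v : Om => f (Zl v.1)) := f.continuous.comp continuous_Zl
  have cg : Continuous (fun v : Om => g (Zr v.1)) := g.continuous.comp continuous_Zr
  have cfg : Continuous (fun v : Om => f (Zl v.1) * g (Zr v.1)) := cf.mul cg
  have mfg : Measurable (fun v : ℤ → ℝ => f (Zl v) * g (Zr v)) := mf.mul mg
  rw [integral_tr N cfg (-(2 ^ N : ℤ)) (h' := fun v => f (Zl v) * g (Zr v))
      (fun _ => rfl) mfg,
    integral_tr N cf (-(2 ^ N : ℤ)) (h' := fun v => f (Zl v)) (fun _ => rfl) mf,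
    integral_tr N cg (-(2 ^ N : ℤ)) (h' := fun v => g (Zr v)) (fun _ => rfl) mg]
  have hind := (indepFun_enc N).comp f.continuous.measurable g.continuous.measurable
  have m1 : Measurable (fun y : ℤ → Bool => f (Zl (enc N (tr (-(2 ^ N : ℤ)) y)))) :=
    mf.comp ((measurable_enc N).comp (measurable_tr _))
  have m2 : Measurable (fun y : ℤ → Bool => g (Zr (enc N (tr (-(2 ^ N : ℤ)) y)))) :=
    mg.comp ((measurable_enc N).comp (measurable_tr _))
  exact IndepFun.integral_fun_mul_eq_mul_integral hind m1.aestronglyMeasurable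
    m2.aestronglyMeasurable

theorem indepFun_limit (hP : Tendsto PN (hyperfilter ℕ) (𝓝 P)) :
    IndepFun (fun v : Om => Zl v.1) (fun v : Om => Zr v.1) (P : Measure Om) := by
  apply indepFun_of_bcf continuous_Zl.measurable.aemeasurable continuous_Zr.measurable.aemeasurable
  intro f g
  have cf : Continuous (fun v : Om => f (Zl v.1)) := f.continuous.comp continuous_Zl
  have cg : Continuous (fun v : Om => g (Zr v.1)) := g.continuous.comp continuous_Zr
  have cfg : Continuous (fun v : Om => f (Zl v.1) * g (Zr v.1)) := cf.mul cg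
  have h1 := tendsto_integral hP cfg
  have h2 := (tendsto_integral hP cf).mul (tendsto_integral hP cg)
  have h3 : (fun N => ∫ v : Om, f (Zl v.1) * g (Zr v.1) ∂(PN N : Measure Om)) =
      fun N => (∫ v : Om, f (Zl v.1) ∂(PN N : Measure Om)) *
        ∫ v : Om, g (Zr v.1) ∂(PN N : Measure Om) := by
    funext N
    exact indep_N N f g
  rw [h3] at h1
  exact tendsto_nhds_unique h1 h2

theorem indep_counts (hP : Tendsto PN (hyperfilter ℕ) (𝓝 P)) :
    Indep
      (⨆ u : ℝ, ⨆ w : ℝ, MeasurableSpace.comap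
        (fun v : Om => (X v ∩ Set.Icc u (min w 0)).ncard) (inferInstance : MeasurableSpace ℕ))
      (⨆ u : ℝ, ⨆ w : ℝ, MeasurableSpace.comap
        (fun v : Om => (X v ∩ Set.Icc (max u 18) w).ncard) (inferInstance : MeasurableSpace ℕ))
      (P : Measure Om) := by
  have h := indepFun_limit hP
  rw [IndepFun_iff_Indep] at h
  refine indep_of_indep_of_le_left (indep_of_indep_of_le_right h ?_) ?_
  · apply iSup_le
    intro u
    apply iSup_le
    intro w
    apply Measurable.comap_le
    obtain ⟨R, hR⟩ := exists_nat_gt |w|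
    have hw := le_abs_self w
    have e : (fun v : Om => (X v ∩ Set.Icc (max u 18) w).ncard) =
        fun v : Om => C (max u 18) w (Finset.Ico 17 (R : ℤ)) v.1 := by
      funext v
      apply ncard_eq
      intro k h0 h1 h2
      have h18 := le_max_right u 18
      have hb := bounds h0
      rw [Finset.mem_Ico]
      constructor
      · have : (17 : ℝ) ≤ (k : ℝ) := by linarith
        exact_mod_cast this
      · have : (k : ℝ) < R := by linarith
        exact_mod_cast this
    rw [e]
    apply measurable_C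
    intro k hk
    have hk' : 17 ≤ k := (Finset.mem_Ico.1 hk).1
    have h1 : Measurable[MeasurableSpace.comap (fun v : Om => Zr v.1) MeasurableSpace.pi]
        (fun v : Om => Zr v.1) := comap_measurable _
    have h2 : Measurable (fun z : Set.Ici (17 : ℤ) → ℝ => z ⟨k, hk'⟩) := measurable_pi_apply _
    exact h2.comp h1
  · apply iSup_le
    intro u
    apply iSup_le
    intro w
    apply Measurable.comap_le
    obtain ⟨R, hR⟩ := exists_nat_gt (|u| + 1)
    have hu := neg_abs_le u
    have e : (fun v : Om => (X v ∩ Set.Icc u (min w 0)).ncard) =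
        fun v : Om => C u (min w 0) (Finset.Ico (-(R : ℤ)) 1) v.1 := by
      funext v
      apply ncard_eq
      intro k h0 h1 h2
      have h18 := min_le_right w 0
      have hb := bounds h0
      rw [Finset.mem_Ico]
      constructor
      · have : (-(R : ℝ)) ≤ (k : ℝ) := by linarith
        exact_mod_cast this
      · have : (k : ℝ) ≤ 0 := by linarith
        have : k ≤ 0 := by exact_mod_cast this
        omega
    rw [e]
    apply measurable_C
    intro k hk
    have hk' : k ≤ 0 := by
      have := (Finset.mem_Ico.1 hk).2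
      omega
    have h1 : Measurable[MeasurableSpace.comap (fun v : Om => Zl v.1) MeasurableSpace.pi]
        (fun v : Om => Zl v.1) := comap_measurable _
    have h2 : Measurable (fun z : Set.Iic (0 : ℤ) → ℝ => z ⟨k, hk'⟩) := measurable_pi_apply _
    exact h2.comp h1

end Pool.Agent.H443R3.Final
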