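import Mathlib
import Pool.Agent.H443R3.PCA

set_option autoImplicit false

open MeasureTheory ProbabilityTheory Filter Topology
open scoped ENNReal Pointwise

/-!
# An ergodic cellular automaton that is not uniformly ergodic, part 1

Right-movers travel with speed one to the right and leave behind them left-walkers.  Left-walkers
perform coalescing random walks with steps `-1` and `-2`.  A right-mover that sees a left-walker at
its site or at the next two sites disappears.
-/

namespace Pool.Agent.H443R3.Movers

open Pool.Agent.H443R3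

/-- The alphabet: the first component says whether there is a right-mover, the second one is `0`
when there is no left-walker, `1` for a left-walker that is about to make a step `-1`, and `2` for
a left-walker that is about to make a step `-2`. -/
abbrev Sy : Type := Bool × Fin 3

/-- The site `j` of `ℤ^1`. -/
def s (j : ℤ) : Site 1 := fun _ => j

theorem s_add (j k : ℤ) : s j + s k = s (j + k) := by
  funext i; simp [s]

theorem s_inj : Function.Injective s := by
  intro i j h
  exact congrFun h 0

theorem s_apply_zero (i : Site 1) : s (i 0) = i := by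
  funext j
  have : j = 0 := Subsingleton.elim _ _
  rw [this]; rfl

/-- Is there a right-mover at the next time? (`p, q, r` are the symbols at `-1, 0, 1`.) -/
def rN (p q r : Sy) : Bool := p.1 && (p.2 == 0) && (q.2 == 0) && (r.2 == 0)

/-- Is there a left-walker at the next time? (`q, r, t` are the symbols at `0, 1, 2`.) -/
def oc (q r t : Sy) : Bool := q.1 || (r.2 == 1) || (t.2 == 2)

/-- The law of the new symbol. -/
noncomputable def law (r o : Bool) : PMF Sy :=
  if o = true then
    PMF.uniformOfFinset ({(r, 1), (r, 2)} : Finset Sy) (Finset.insert_nonempty _ _)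
  else PMF.pure (r, 0)

/-- The automaton. -/
noncomputable def Φ : PCA 1 Sy where
  nbhd := {s (-1), s 0, s 1, s 2}
  rule := fun u =>
    law (rN (u ⟨s (-1), by simp⟩) (u ⟨s 0, by simp⟩) (u ⟨s 1, by simp⟩))
      (oc (u ⟨s 0, by simp⟩) (u ⟨s 1, by simp⟩) (u ⟨s 2, by simp⟩))

/-- The next right-mover at `j`. -/
def rX (x : Config 1 Sy) (j : ℤ) : Bool := rN (x (s (j - 1))) (x (s j)) (x (s (j + 1)))

/-- The next occupation by a left-walker at `j`. -/
def oX (x : Config 1 Sy) (j : ℤ) : Bool := oc (x (s j)) (x (s (j + 1))) (x (s (j + 2)))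

/-- The law of the new symbol at the site `i`. -/
noncomputable def nu (x : Config 1 Sy) (i : Site 1) : Measure Sy :=
  (Φ.rule (Φ.pattern x i)).toMeasure

instance (x : Config 1 Sy) (i : Site 1) : IsProbabilityMeasure (nu x i) := by
  unfold nu; infer_instance

theorem step_eq (x : Config 1 Sy) : Φ.step x = Measure.infinitePi (nu x) := rfl

theorem nu_eq (x : Config 1 Sy) (j : ℤ) : nu x (s j) = (law (rX x j) (oX x j)).toMeasure := by
  unfold nu Φ PCA.pattern
  simp only [s_add, add_zero]
  rfl

/-! ### One-site computations -/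

theorem lintegral_law (r o : Bool) (g : Sy → ℝ≥0∞) :
    ∫⁻ w, g w ∂(law r o).toMeasure =
      if o = true then (g (r, 1) + g (r, 2)) / 2 else g (r, 0) := by
  have h : ∀ w : Sy, (law r o).toMeasure {w} = law r o w := fun w =>
    PMF.toMeasure_apply_singleton _ _ (MeasurableSet.singleton w)
  rw [lintegral_fintype]
  simp only [h]
  unfold law
  cases o with
  | true =>
    simp only [if_true, PMF.uniformOfFinset_apply, Fintype.sum_prod_type, Fin.sum_univ_three,
      Fintype.sum_bool]
    cases r <;> simp [ENNReal.div_eq_inv_mul, mul_add, mul_comm]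
  | false =>
    simp only [Bool.false_eq_true, if_false, PMF.pure_apply, Fintype.sum_prod_type,
      Fin.sum_univ_three, Fintype.sum_bool]
    cases r <;> simp

/-- No right-mover. -/
noncomputable def α (w : Sy) : ℝ≥0∞ := if w.1 = false then 1 else 0

/-- No walker about to make a step `-1`. -/
noncomputable def β (w : Sy) : ℝ≥0∞ := if w.2 ≠ 1 then 1 else 0

/-- No walker about to make a step `-2`. -/
noncomputable def γ (w : Sy) : ℝ≥0∞ := if w.2 ≠ 2 then 1 else 0

/-- Vacancy at the next time. -/
noncomputable def z (x : Config 1 Sy) (j : ℤ) : ℝ≥0∞ :=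
  α (x (s j)) * β (x (s (j + 1))) * γ (x (s (j + 2)))

theorem z_eq (x : Config 1 Sy) (j : ℤ) : z x j = if oX x j = true then 0 else 1 := by
  unfold z α β γ oX oc
  by_cases h1 : (x (s j)).1 = false <;> by_cases h2 : (x (s (j + 1))).2 = 1 <;>
    by_cases h3 : (x (s (j + 2))).2 = 2 <;> simp [h1, h2, h3]

theorem int_β (x : Config 1 Sy) (j : ℤ) : ∫⁻ w, β w ∂(nu x (s j)) = (1 + z x j) / 2 := by
  rw [nu_eq, lintegral_law, z_eq]
  unfold β
  split_ifs <;> simp_all
  · rw [one_add_one_eq_two, ENNReal.div_self (by simp) (by simp)]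

theorem int_γ (x : Config 1 Sy) (j : ℤ) : ∫⁻ w, γ w ∂(nu x (s j)) = (1 + z x j) / 2 := by
  rw [nu_eq, lintegral_law, z_eq]
  unfold γ
  split_ifs <;> simp_all
  · rw [one_add_one_eq_two, ENNReal.div_self (by simp) (by simp)]

theorem int_βγ (x : Config 1 Sy) (j : ℤ) : ∫⁻ w, β w * γ w ∂(nu x (s j)) = z x j := by
  rw [nu_eq, lintegral_law, z_eq]
  unfold β γ
  split_ifs <;> simp_all

end Pool.Agent.H443R3.Movers
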