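import Mathlib
import Pool.Agent.H443R3.Movers1

set_option autoImplicit false

open MeasureTheory ProbabilityTheory Filter Topology
open scoped ENNReal Pointwise

/-!
# An ergodic cellular automaton that is not uniformly ergodic, part 2: the duality
-/

namespace Pool.Agent.H443R3.Movers

open Pool.Agent.H443R3

/-! ### Transition probabilities of products -/

theorem dependsOn_site (g : Sy → ℝ≥0∞) (j : ℤ) :
    DependsOn (fun y : Config 1 Sy => g (y (s j))) (({s j} : Finset (Site 1)) : Set (Site 1)) := by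
  intro x y hxy
  have : x (s j) = y (s j) := hxy _ (by simp)
  simp only [this]

theorem op_site (g : Sy → ℝ≥0∞) (j : ℤ) (x : Config 1 Sy) :
    Φ.op (fun y => g (y (s j))) x = ∫⁻ w, g w ∂(nu x (s j)) := by
  unfold PCA.op
  rw [step_eq]
  exact (measurePreserving_eval_infinitePi (nu x) (s j)).lintegral_comp (Measurable.of_discrete)

theorem dependsOn_range (h : Sy → ℝ≥0∞) (a : ℤ) (n : ℕ) :
    DependsOn (fun y : Config 1 Sy => ∏ k ∈ Finset.range n, h (y (s (a + k))))
      (((Finset.range n).image (fun k : ℕ => s (a + k)) : Finset (Site 1)) : Set (Site 1)) := by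
  intro x y hxy
  show ∏ k ∈ Finset.range n, h (x (s (a + k))) = ∏ k ∈ Finset.range n, h (y (s (a + k)))
  apply Finset.prod_congr rfl
  intro k hk
  rw [hxy (s (a + k)) (Finset.mem_coe.2 (Finset.mem_image_of_mem (fun k : ℕ => s (a + k)) hk))]

theorem op_range (h : Sy → ℝ≥0∞) (a : ℤ) (n : ℕ) (x : Config 1 Sy) :
    Φ.op (fun y => ∏ k ∈ Finset.range n, h (y (s (a + k)))) x =
      ∏ k ∈ Finset.range n, ∫⁻ w, h w ∂(nu x (s (a + k))) := by
  induction n with
  | zero => simp [PCA.op]
  | succ n ih =>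
    have e : (fun y : Config 1 Sy => ∏ k ∈ Finset.range (n + 1), h (y (s (a + k)))) =
        fun y => (∏ k ∈ Finset.range n, h (y (s (a + k)))) * h (y (s (a + n))) := by
      funext y
      exact Finset.prod_range_succ (fun k : ℕ => h (y (s (a + k)))) n
    have e2 := congrFun (Φ.op_mul (dependsOn_range h a n) (dependsOn_site h (a + n)) (by
      rw [Finset.disjoint_singleton_right, Finset.mem_image]
      rintro ⟨k, hk, hke⟩
      have := s_inj hke
      rw [Finset.mem_range] at hk
      omega)) x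
    rw [e, Finset.prod_range_succ, ← ih, ← op_site]
    exact e2

/-- The interval `[a, a+n)` is vacant at the next time. -/
noncomputable def G (a : ℤ) (n : ℕ) (x : Config 1 Sy) : ℝ≥0∞ :=
  ∏ k ∈ Finset.range n, z x (a + k)

theorem G_zero (a : ℤ) (x : Config 1 Sy) : G a 0 x = 1 := by
  unfold G; simp

theorem G_succ_right (a : ℤ) (n : ℕ) (x : Config 1 Sy) :
    G a (n + 1) x = G a n x * z x (a + n) := by
  unfold G; exact Finset.prod_range_succ _ n

theorem G_succ_left (a : ℤ) (n : ℕ) (x : Config 1 Sy) :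
    G a (n + 1) x = G (a + 1) n x * z x a := by
  unfold G
  rw [Finset.prod_range_succ']
  congr 1
  · apply Finset.prod_congr rfl
    intro k _
    congr 1
    push_cast
    ring
  · congr 1
    push_cast
    ring

theorem G_dependsOn (a : ℤ) (n : ℕ) : DependsOn (G a n)
    (((Finset.Icc a (a + n + 2)).image s : Finset (Site 1)) : Set (Site 1)) := by
  intro x y hxy
  unfold G
  apply Finset.prod_congr rfl
  intro k hk
  rw [Finset.mem_range] at hk
  have h : ∀ i : ℤ, a ≤ i → i ≤ a + n + 2 → x (s i) = y (s i) := by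
    intro i h1 h2
    apply hxy
    exact Finset.mem_coe.2 (Finset.mem_image_of_mem s (Finset.mem_Icc.2 ⟨h1, h2⟩))
  unfold z
  rw [h (a + k) (by omega) (by omega), h (a + k + 1) (by omega) (by omega),
    h (a + k + 2) (by omega) (by omega)]

/-- There are no right-movers in `[-K, K]`. -/
def Rfree (K : ℤ) (x : Config 1 Sy) : Prop := ∀ j : ℤ, -K ≤ j → j ≤ K → (x (s j)).1 = false

theorem Rfree.mono {K K' : ℤ} {x : Config 1 Sy} (h : Rfree K' x) (hK : K ≤ K') : Rfree K x :=
  fun j h1 h2 => h j (by omega) (by omega)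

theorem rX_of_rfree {K : ℤ} {x : Config 1 Sy} (h : Rfree (K + 1) x) {j : ℤ} (h1 : -K ≤ j)
    (h2 : j ≤ K) : rX x j = false := by
  unfold rX rN
  rw [h (j - 1) (by omega) (by omega)]
  rfl

/-- The support of the transition. -/
theorem ae_step (x : Config 1 Sy) : ∀ᵐ y ∂(Φ.step x), ∀ j : ℤ,
    (y (s j)).1 = rX x j ∧ ((y (s j)).2 ≠ 0 ↔ oX x j = true) := by
  rw [ae_all_iff]
  intro j
  have h1 := (measurePreserving_eval_infinitePi (nu x) (s j)).quasiMeasurePreserving.ae
    (p := fun w : Sy => w.1 = rX x j ∧ (w.2 ≠ 0 ↔ oX x j = true)) (by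
      rw [nu_eq, ae_iff]
      have h2 := lintegral_law (rX x j) (oX x j)
        ({w : Sy | ¬ (w.1 = rX x j ∧ (w.2 ≠ 0 ↔ oX x j = true))}.indicator (fun _ => 1))
      rw [lintegral_indicator (MeasurableSet.of_discrete), lintegral_const, one_mul,
        Measure.restrict_apply MeasurableSet.univ, Set.univ_inter] at h2
      rw [h2]
      cases oX x j <;> simp [Set.indicator])
  rw [step_eq]
  exact h1

theorem G_split {a : ℤ} {n : ℕ} {y : Config 1 Sy} (h : ∀ k : ℕ, k < n + 1 → (y (s (a + k))).1 = false) :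
    G a (n + 1) y = β (y (s (a + 1))) *
      (∏ k ∈ Finset.range n, (β (y (s (a + 2 + k))) * γ (y (s (a + 2 + k))))) *
        γ (y (s (a + 2 + n))) := by
  have e1 : G a (n + 1) y = (∏ k ∈ Finset.range (n + 1), β (y (s (a + k + 1)))) *
      ∏ k ∈ Finset.range (n + 1), γ (y (s (a + k + 2))) := by
    unfold G z
    rw [← Finset.prod_mul_distrib]
    apply Finset.prod_congr rfl
    intro k hk
    rw [Finset.mem_range] at hk
    have : α (y (s (a + k))) = 1 := by
      unfold α
      rw [if_pos (h k hk)]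
    rw [this, one_mul]
  rw [e1, Finset.prod_range_succ', Finset.prod_range_succ, Finset.prod_mul_distrib]
  have e2 : ∀ k : ℕ, a + ((k + 1 : ℕ) : ℤ) + 1 = a + 2 + k := fun k => by push_cast; ring
  have e3 : ∀ k : ℕ, a + (k : ℤ) + 2 = a + 2 + k := fun k => by ring
  have e4 : a + ((0 : ℕ) : ℤ) + 1 = a + 1 := by push_cast; ring
  simp only [e2, e3, e4]
  ring

/-- The interval duality away from the right-movers. -/
theorem op_G {a : ℤ} {n : ℕ} {K : ℤ} (hK1 : -K ≤ a) (hK2 : a + n ≤ K) {x : Config 1 Sy}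
    (hx : Rfree (K + 1) x) :
    Φ.op (G a (n + 1)) x =
      (G (a + 2) n x + G (a + 1) (n + 1) x + G (a + 2) (n + 1) x + G (a + 1) (n + 2) x) / 4 := by
  have h1 : Φ.op (G a (n + 1)) x = Φ.op (fun y => β (y (s (a + 1))) *
      (∏ k ∈ Finset.range n, (β (y (s (a + 2 + k))) * γ (y (s (a + 2 + k))))) *
        γ (y (s (a + 2 + n)))) x := by
    unfold PCA.op
    apply lintegral_congr_ae
    filter_upwards [ae_step x] with y hy
    apply G_split
    intro k hk
    rw [(hy _).1]
    exact rX_of_rfree hx (by omega) (by omega)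
  have d1 := dependsOn_site β (a + 1)
  have d2 := dependsOn_range (fun w => β w * γ w) (a + 2) n
  have d3 := dependsOn_site γ (a + 2 + n)
  have d12 : DependsOn (fun y : Config 1 Sy => β (y (s (a + 1))) *
      (∏ k ∈ Finset.range n, (β (y (s (a + 2 + k))) * γ (y (s (a + 2 + k))))))
      (({s (a + 1)} ∪ (Finset.range n).image (fun k : ℕ => s (a + 2 + k)) : Finset (Site 1)) :
        Set (Site 1)) := by
    intro y y' hyy
    have f1 := d1 (fun i hi => hyy i (by rw [Finset.coe_union]; exact Or.inl hi))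
    have f2 := d2 (fun i hi => hyy i (by rw [Finset.coe_union]; exact Or.inr hi))
    simp only at f1 f2
    show β (y (s (a + 1))) * _ = β (y' (s (a + 1))) * _
    rw [f1, f2]
  have e1 : Φ.op (fun y => β (y (s (a + 1))) *
      (∏ k ∈ Finset.range n, (β (y (s (a + 2 + k))) * γ (y (s (a + 2 + k))))) *
        γ (y (s (a + 2 + n)))) x = (Φ.op (fun y => β (y (s (a + 1))) *
      (∏ k ∈ Finset.range n, (β (y (s (a + 2 + k))) * γ (y (s (a + 2 + k)))))) x) *
        Φ.op (fun y => γ (y (s (a + 2 + n)))) x := by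
    have := Φ.op_mul d12 d3 (by
      rw [Finset.disjoint_singleton_right, Finset.mem_union, Finset.mem_singleton, Finset.mem_image]
      rintro (h | ⟨k, hk, h⟩)
      · have := s_inj h
        omega
      · have := s_inj h
        rw [Finset.mem_range] at hk
        omega)
    exact congrFun this x
  have e2 : Φ.op (fun y => β (y (s (a + 1))) *
      (∏ k ∈ Finset.range n, (β (y (s (a + 2 + k))) * γ (y (s (a + 2 + k)))))) x =
      Φ.op (fun y => β (y (s (a + 1)))) x *
        Φ.op (fun y => ∏ k ∈ Finset.range n, (β (y (s (a + 2 + k))) * γ (y (s (a + 2 + k))))) x := by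
    have := Φ.op_mul d1 d2 (by
      rw [Finset.disjoint_singleton_left, Finset.mem_image]
      rintro ⟨k, hk, h⟩
      have := s_inj h
      omega)
    exact congrFun this x
  have e3 := op_range (fun w => β w * γ w) (a + 2) n x
  simp only [int_βγ] at e3
  rw [h1, e1, e2, op_site, op_site, int_β, int_γ, e3]
  have g0 : ∏ k ∈ Finset.range n, z x (a + 2 + k) = G (a + 2) n x := rfl
  rw [g0]
  have g1 : G (a + 1) (n + 1) x = G (a + 2) n x * z x (a + 1) := by
    rw [G_succ_left, add_assoc]; rfl
  have g2 : G (a + 2) (n + 1) x = G (a + 2) n x * z x (a + 2 + n) := G_succ_right _ _ _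
  have g3 : G (a + 1) (n + 2) x = G (a + 2) n x * z x (a + 2 + n) * z x (a + 1) := by
    rw [show n + 2 = (n + 1) + 1 by rfl, G_succ_left, add_assoc, ← G_succ_right]; rfl
  rw [g1, g2, g3]
  rw [ENNReal.div_eq_inv_mul, ENNReal.div_eq_inv_mul, ENNReal.div_eq_inv_mul]
  have : (4 : ℝ≥0∞)⁻¹ = 2⁻¹ * 2⁻¹ := by
    rw [← ENNReal.mul_inv (by simp) (by simp)]; norm_num
  rw [this]
  ring

end Pool.Agent.H443R3.Movers
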