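import Mathlib
import Pool.Agent.H443R3.Movers2

set_option autoImplicit false

open MeasureTheory ProbabilityTheory Filter Topology
open scoped ENNReal Pointwise

/-!
# An ergodic cellular automaton that is not uniformly ergodic, part 3: the decay of the walkers
-/

namespace Pool.Agent.H443R3.Movers

open Pool.Agent.H443R3

/-! ### A killed lazy random walk -/

/-- `W t n`: the probability that the lazy simple random walk started at `n` and absorbed at `0`
is at `0` at time `t`. -/
noncomputable def W : ℕ → ℕ → ℝ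
  | 0, 0 => 1
  | 0, _ + 1 => 0
  | _ + 1, 0 => 1
  | t + 1, n + 1 => (W t n + 2 * W t (n + 1) + W t (n + 2)) / 4

theorem W_zero_right (t : ℕ) : W t 0 = 1 := by cases t <;> simp [W]

theorem W_nonneg (t n : ℕ) : 0 ≤ W t n := by
  induction t generalizing n with
  | zero => cases n <;> simp [W]
  | succ t ih =>
    cases n with
    | zero => simp [W]
    | succ n =>
      simp only [W]
      linarith [ih n, ih (n + 1), ih (n + 2)]

theorem W_le_one (t n : ℕ) : W t n ≤ 1 := by
  induction t generalizing n with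
  | zero => cases n <;> simp [W]
  | succ t ih =>
    cases n with
    | zero => simp [W]
    | succ n =>
      simp only [W]
      linarith [ih n, ih (n + 1), ih (n + 2)]

theorem W_mono (t n : ℕ) : W t n ≤ W (t + 1) n := by
  induction t generalizing n with
  | zero =>
    cases n with
    | zero => simp [W]
    | succ n =>
      have h := W_nonneg 1 (n + 1)
      simpa [W] using h
  | succ t ih =>
    cases n with
    | zero => simp [W]
    | succ n =>
      have e1 : W (t + 1) (n + 1) = (W t n + 2 * W t (n + 1) + W t (n + 2)) / 4 := by simp only [W]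
      have e2 : W (t + 1 + 1) (n + 1) =
          (W (t + 1) n + 2 * W (t + 1) (n + 1) + W (t + 1) (n + 2)) / 4 := by
        conv_lhs => unfold W
      rw [e1, e2]
      linarith [ih n, ih (n + 1), ih (n + 2)]

theorem W_tendsto : Tendsto (fun t => W t 1) atTop (𝓝 1) := by
  have hmono : ∀ n, Monotone (fun t => W t n) := fun n => monotone_nat_of_le_succ (fun t => W_mono t n)
  have hbdd : ∀ n, BddAbove (Set.range (fun t => W t n)) := fun n =>
    ⟨1, by rintro _ ⟨t, rfl⟩; exact W_le_one t n⟩
  set L : ℕ → ℝ := fun n => ⨆ t, W t n with hL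
  have hlim : ∀ n, Tendsto (fun t => W t n) atTop (𝓝 (L n)) := fun n =>
    tendsto_atTop_ciSup (hmono n) (hbdd n)
  have hL0 : L 0 = 1 := by
    have := hlim 0
    simp only [W_zero_right] at this
    exact (tendsto_nhds_unique this tendsto_const_nhds)
  have hrec : ∀ n, 2 * L (n + 1) = L n + L (n + 2) := by
    intro n
    have h1 : Tendsto (fun t => W (t + 1) (n + 1)) atTop (𝓝 (L (n + 1))) :=
      (hlim (n + 1)).comp (tendsto_add_atTop_nat 1)
    have h2 : Tendsto (fun t => (W t n + 2 * W t (n + 1) + W t (n + 2)) / 4) atTop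
        (𝓝 ((L n + 2 * L (n + 1) + L (n + 2)) / 4)) :=
      (((hlim n).add ((hlim (n + 1)).const_mul 2)).add (hlim (n + 2))).div_const 4
    have h3 : (fun t => W (t + 1) (n + 1)) =
        fun t => (W t n + 2 * W t (n + 1) + W t (n + 2)) / 4 := by
      funext t; simp only [W]
    rw [h3] at h1
    have := tendsto_nhds_unique h1 h2
    linarith
  have hlin : ∀ n : ℕ, L n = 1 - n * (1 - L 1) ∧ L (n + 1) = 1 - (n + 1) * (1 - L 1) := by
    intro n
    induction n with
    | zero => simp [hL0]
    | succ n ih =>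
      refine ⟨by push_cast; exact ih.2, ?_⟩
      have := hrec n
      push_cast
      have e : L (n + 1 + 1) = 2 * L (n + 1) - L n := by linarith
      rw [e, ih.1, ih.2]
      ring
  have hge : ∀ n, 0 ≤ L n := fun n => ge_of_tendsto' (hlim n) (fun t => W_nonneg t n)
  have hle : L 1 ≤ 1 := le_of_tendsto' (hlim 1) (fun t => W_le_one t 1)
  have h1 : L 1 = 1 := by
    by_contra hne
    have hlt : 0 < 1 - L 1 := by
      rcases lt_or_eq_of_le hle with h | h
      · linarith
      · exact absurd h hne
    obtain ⟨n, hn⟩ := exists_nat_gt (1 / (1 - L 1))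
    have h2 := hge n
    rw [(hlin n).1] at h2
    rw [div_lt_iff₀ hlt] at hn
    linarith
  have := hlim 1
  rwa [h1] at this

theorem ofReal_W_succ (t n : ℕ) : ENNReal.ofReal (W (t + 1) (n + 1)) =
    (ENNReal.ofReal (W t n) + ENNReal.ofReal (W t (n + 1)) + ENNReal.ofReal (W t (n + 1)) +
      ENNReal.ofReal (W t (n + 2))) / 4 := by
  have : W (t + 1) (n + 1) = (W t n + W t (n + 1) + W t (n + 1) + W t (n + 2)) / 4 := by
    simp only [W]; ring
  rw [this, ENNReal.ofReal_div_of_pos (by norm_num), ENNReal.ofReal_add, ENNReal.ofReal_add,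
    ENNReal.ofReal_add]
  · norm_num
  all_goals (try exact W_nonneg _ _)
  all_goals (try linarith [W_nonneg t n, W_nonneg t (n + 1), W_nonneg t (n + 2)])

/-! ### Iteration -/

theorem op_iterate_add {f g : Config 1 Sy → ℝ≥0∞} {A B : Finset (Site 1)}
    (hf : DependsOn f A) (hg : DependsOn g B) (t : ℕ) (x : Config 1 Sy) :
    Φ.op^[t] (fun y => f y + g y) x = Φ.op^[t] f x + Φ.op^[t] g x := by
  induction t generalizing f g A B with
  | zero => rfl
  | succ t ih =>
    have e : Φ.op (fun y => f y + g y) = fun y => Φ.op f y + Φ.op g y := by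
      funext y
      exact lintegral_add_left (PCA.measurable_of_dependsOn hf) _
    simp only [Function.iterate_succ, Function.comp_apply]
    rw [e]
    exact ih (Φ.op_dependsOn hf) (Φ.op_dependsOn hg)

theorem op_iterate_div {f : Config 1 Sy → ℝ≥0∞} {A : Finset (Site 1)}
    (hf : DependsOn f A) (t : ℕ) (x : Config 1 Sy) :
    Φ.op^[t] (fun y => f y / 4) x = Φ.op^[t] f x / 4 := by
  induction t generalizing f A with
  | zero => rfl
  | succ t ih =>
    have e : Φ.op (fun y => f y / 4) = fun y => Φ.op f y / 4 := by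
      funext y
      unfold PCA.op
      simp only [div_eq_mul_inv]
      exact lintegral_mul_const _ (PCA.measurable_of_dependsOn hf)
    simp only [Function.iterate_succ, Function.comp_apply]
    rw [e]
    exact ih (Φ.op_dependsOn hf)

theorem op_iterate_mono {f g : Config 1 Sy → ℝ≥0∞} (h : ∀ x, f x ≤ g x) (t : ℕ)
    (x : Config 1 Sy) : Φ.op^[t] f x ≤ Φ.op^[t] g x := by
  induction t generalizing f g with
  | zero => exact h x
  | succ t ih => exact ih (Φ.op_mono h)

theorem dependsOn_add {f g : Config 1 Sy → ℝ≥0∞} {A B : Finset (Site 1)}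
    (hf : DependsOn f A) (hg : DependsOn g B) :
    DependsOn (fun y => f y + g y) ((A ∪ B : Finset (Site 1)) : Set (Site 1)) := by
  intro x y hxy
  have e1 : f x = f y := hf (fun i hi => hxy i (by
    rw [Finset.coe_union]; exact Or.inl hi))
  have e2 : g x = g y := hg (fun i hi => hxy i (by
    rw [Finset.coe_union]; exact Or.inr hi))
  simp only [e1, e2]

theorem op_iterate_G_zero (a : ℤ) (t : ℕ) (x : Config 1 Sy) : Φ.op^[t] (G a 0) x = 1 := by
  have e0 : G a 0 = fun _ => 1 := by funext y; exact G_zero a y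
  rw [e0]
  induction t with
  | zero => rfl
  | succ t ih =>
    rw [Function.iterate_succ_apply]
    have : Φ.op (fun _ => (1 : ℝ≥0∞)) = fun _ => 1 := by
      funext y; simp [PCA.op]
    rw [this, ih]

open Classical in
/-- The indicator of the presence of right-movers, with value `⊤`. -/
noncomputable def Q (K : ℤ) (x : Config 1 Sy) : ℝ≥0∞ := if Rfree K x then 0 else ⊤

theorem Q_of_rfree {K : ℤ} {x : Config 1 Sy} (h : Rfree K x) : Q K x = 0 := by
  unfold Q; exact if_pos h

theorem Q_of_not_rfree {K : ℤ} {x : Config 1 Sy} (h : ¬ Rfree K x) : Q K x = ⊤ := by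
  unfold Q; exact if_neg h

theorem rfree_congr {K : ℤ} {x y : Config 1 Sy}
    (hxy : ∀ i ∈ (((Finset.Icc (-K) K).image s : Finset (Site 1)) : Set (Site 1)), x i = y i) :
    Rfree K x ↔ Rfree K y := by
  have h : ∀ j : ℤ, -K ≤ j → j ≤ K → x (s j) = y (s j) := fun j h1 h2 =>
    hxy _ (Finset.mem_coe.2 (Finset.mem_image_of_mem s (Finset.mem_Icc.2 ⟨h1, h2⟩)))
  constructor
  · intro hx j h1 h2
    rw [← h j h1 h2]; exact hx j h1 h2
  · intro hx j h1 h2
    rw [h j h1 h2]; exact hx j h1 h2

theorem Q_dependsOn (K : ℤ) :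
    DependsOn (Q K) (((Finset.Icc (-K) K).image s : Finset (Site 1)) : Set (Site 1)) := by
  intro x y hxy
  have h := rfree_congr (K := K) hxy
  by_cases hx : Rfree K x
  · rw [Q_of_rfree hx, Q_of_rfree (h.1 hx)]
  · rw [Q_of_not_rfree hx, Q_of_not_rfree (fun hy => hx (h.2 hy))]

theorem ae_rfree {K : ℤ} {x : Config 1 Sy} (hx : Rfree (K + 1) x) :
    ∀ᵐ y ∂(Φ.step x), Rfree K y := by
  filter_upwards [ae_step x] with y hy
  intro j h1 h2
  rw [(hy j).1]
  exact rX_of_rfree hx h1 h2

theorem op_Q (K : ℤ) (x : Config 1 Sy) : Φ.op (Q K) x ≤ Q (K + 1) x := by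
  by_cases hx : Rfree (K + 1) x
  · rw [Q_of_rfree hx]
    have : Φ.op (Q K) x = ∫⁻ _, 0 ∂(Φ.step x) := by
      unfold PCA.op
      apply lintegral_congr_ae
      filter_upwards [ae_rfree hx] with y hy
      exact Q_of_rfree hy
    rw [this, lintegral_zero]
  · rw [Q_of_not_rfree hx]
    exact le_top

theorem op_iterate_Q (K : ℤ) (t : ℕ) (x : Config 1 Sy) : Φ.op^[t] (Q K) x ≤ Q (K + t) x := by
  induction t generalizing x with
  | zero => simp
  | succ t ih =>
    rw [Function.iterate_succ_apply']
    refine (Φ.op_mono ih x).trans ?_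
    have := op_Q (K + t) x
    push_cast
    rw [← add_assoc]
    exact this

/-- The decay of the walkers away from the right-movers. -/
theorem le_op_iterate_G (t : ℕ) : ∀ (a : ℤ) (n : ℕ), ∃ K : ℤ, ∀ x : Config 1 Sy, Rfree K x →
    ENNReal.ofReal (W t n) ≤ Φ.op^[t] (G a n) x := by
  induction t with
  | zero =>
    intro a n
    refine ⟨0, fun x _ => ?_⟩
    cases n with
    | zero => simp [W, G_zero]
    | succ n => simp [W]
  | succ t ih =>
    intro a n
    cases n with
    | zero => exact ⟨0, fun x _ => by rw [op_iterate_G_zero]; simp [W]⟩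
    | succ n =>
      obtain ⟨K1, h1⟩ := ih (a + 2) n
      obtain ⟨K2, h2⟩ := ih (a + 1) (n + 1)
      obtain ⟨K3, h3⟩ := ih (a + 2) (n + 1)
      obtain ⟨K4, h4⟩ := ih (a + 1) (n + 2)
      set K0 : ℤ := |a| + n with hK0
      have ha1 := neg_abs_le a
      have ha2 := le_abs_self a
      refine ⟨max (max (max K1 K2) (max K3 K4)) (K0 + 1 + t), fun x hx => ?_⟩
      have hx1 := h1 x (hx.mono (by omega))
      have hx2 := h2 x (hx.mono (by omega))
      have hx3 := h3 x (hx.mono (by omega))
      have hx4 := h4 x (hx.mono (by omega))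
      have hQ : Φ.op^[t] (Q (K0 + 1)) x = 0 := by
        have := op_iterate_Q (K0 + 1) t x
        rw [Q_of_rfree (hx.mono (by omega))] at this
        exact le_antisymm this (zero_le)
      have hle : ∀ y : Config 1 Sy,
          (G (a + 2) n y + G (a + 1) (n + 1) y + G (a + 2) (n + 1) y + G (a + 1) (n + 2) y) / 4 ≤
            Φ.op (G a (n + 1)) y + Q (K0 + 1) y := by
        intro y
        by_cases hy : Rfree (K0 + 1) y
        · rw [op_G (by omega) (by omega) hy]
          exact le_self_add
        · rw [Q_of_not_rfree hy]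
          simp
      have d1 := dependsOn_add (G_dependsOn (a + 2) n) (G_dependsOn (a + 1) (n + 1))
      have d2 := dependsOn_add d1 (G_dependsOn (a + 2) (n + 1))
      have d3 := dependsOn_add d2 (G_dependsOn (a + 1) (n + 2))
      have hmono := op_iterate_mono hle t x
      rw [op_iterate_div d3, op_iterate_add d2 (G_dependsOn (a + 1) (n + 2)),
        op_iterate_add d1 (G_dependsOn (a + 2) (n + 1)),
        op_iterate_add (G_dependsOn (a + 2) n) (G_dependsOn (a + 1) (n + 1)),
        op_iterate_add (Φ.op_dependsOn (G_dependsOn a (n + 1))) (Q_dependsOn (K0 + 1)), hQ,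
        add_zero] at hmono
      rw [Function.iterate_succ_apply]
      refine le_trans ?_ hmono
      rw [ofReal_W_succ]
      gcongr

end Pool.Agent.H443R3.Movers
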