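import Mathlib
import Pool.Agent.H443R3.Movers3

set_option autoImplicit false

open MeasureTheory ProbabilityTheory Filter Topology
open scoped ENNReal Pointwise

/-!
# An ergodic cellular automaton that is not uniformly ergodic, part 4: ergodicity
-/

namespace Pool.Agent.H443R3.Movers

open Pool.Agent.H443R3

/-- The empty symbol. -/
def o : Sy := (false, 0)

theorem meas_site (j : ℤ) (p : Sy → Prop) : MeasurableSet {y : Config 1 Sy | p (y (s j))} :=
  (measurable_pi_apply (X := fun _ : Site 1 => Sy) (s j)) (MeasurableSet.of_discrete (s := {w | p w}))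

theorem ae_evolve {μ : Measure (Config 1 Sy)} {A B : Set (Config 1 Sy)} (hB : MeasurableSet B)
    (hA : ∀ᵐ x ∂μ, x ∈ A) (h : ∀ x ∈ A, ∀ᵐ y ∂(Φ.step x), y ∈ B) :
    ∀ᵐ y ∂(Φ.evolve μ), y ∈ B := by
  rw [ae_iff]
  show Φ.evolve μ Bᶜ = 0
  unfold PCA.evolve
  rw [Measure.bind_apply hB.compl Φ.measurable_step.aemeasurable]
  have : ∫⁻ x, Φ.step x Bᶜ ∂μ = ∫⁻ _, 0 ∂μ := by
    apply lintegral_congr_ae
    filter_upwards [hA] with x hx
    exact h x hx
  rw [this, lintegral_zero]

/-- The descendants of the first walker left by the right-mover that starts at `b` screen. -/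
def Good (b : ℤ) (m : ℕ) : Set (Config 1 Sy) :=
  {y | ∃ q : ℤ, (y (s q)).2 ≠ 0 ∧ q ≤ b - m + 1 ∧ ∀ j : ℤ, (y (s j)).1 = true → (b + m ≤ j ∨ j ≤ q)}

theorem meas_good (b : ℤ) (m : ℕ) : MeasurableSet (Good b m) := by
  have e : Good b m = ⋃ q : ℤ, ({y | (y (s q)).2 ≠ 0} ∩ ({_y | q ≤ b - m + 1} ∩
      ⋂ j : ℤ, {y | (y (s j)).1 = true → (b + m ≤ j ∨ j ≤ q)})) := by
    ext y
    simp only [Good, Set.mem_iUnion, Set.mem_inter_iff, Set.mem_iInter, Set.mem_ofPred_eq]
  rw [e]
  apply MeasurableSet.iUnion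
  intro q
  refine (meas_site q (fun w => w.2 ≠ 0)).inter (MeasurableSet.inter (MeasurableSet.const _) ?_)
  apply MeasurableSet.iInter
  intro j
  exact meas_site j (fun w => w.1 = true → (b + m ≤ j ∨ j ≤ q))

theorem good_one {b : ℤ} {x : Config 1 Sy} (hx : (x (s b)).1 = true) :
    ∀ᵐ y ∂(Φ.step x), y ∈ Good b 1 := by
  filter_upwards [ae_step x] with y hy
  refine ⟨b, ?_, by push_cast; omega, fun j _ => by push_cast; omega⟩
  rw [(hy b).2]
  simp [oX, oc, hx]

theorem good_succ {b : ℤ} {m : ℕ} {x : Config 1 Sy} (hx : x ∈ Good b m) :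
    ∀ᵐ y ∂(Φ.step x), y ∈ Good b (m + 1) := by
  obtain ⟨q, hq0, hq1, hq2⟩ := hx
  have hq3 : (x (s q)).2 = 1 ∨ (x (s q)).2 = 2 := by
    have : ∀ w : Fin 3, w ≠ 0 → w = 1 ∨ w = 2 := by decide
    exact this _ hq0
  filter_upwards [ae_step x] with y hy
  have hr : ∀ j : ℤ, (y (s j)).1 = true → (b + m + 1 ≤ j ∨ j ≤ q - 2) := by
    intro j hj
    rw [(hy j).1] at hj
    simp only [rX, rN, Bool.and_eq_true, beq_iff_eq] at hj
    obtain ⟨⟨⟨h1, h2⟩, h3⟩, h4⟩ := hj
    have n1 : q ≠ j - 1 := fun h => hq0 (h ▸ h2)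
    have n2 : q ≠ j := fun h => hq0 (h ▸ h3)
    have n3 : q ≠ j + 1 := fun h => hq0 (h ▸ h4)
    rcases hq2 (j - 1) h1 with h | h
    · left; omega
    · right; omega
  rcases hq3 with h | h
  · refine ⟨q - 1, ?_, by push_cast; omega, fun j hj => ?_⟩
    · rw [(hy (q - 1)).2]
      simp [oX, oc, h]
    · rcases hr j hj with h' | h'
      · left; push_cast; omega
      · right; omega
  · refine ⟨q - 2, ?_, by push_cast; omega, fun j hj => ?_⟩
    · rw [(hy (q - 2)).2]
      simp [oX, oc, h]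
    · rcases hr j hj with h' | h'
      · left; push_cast; omega
      · right; omega

theorem ae_good {b : ℤ} {x : Config 1 Sy} (hx : (x (s b)).1 = true) (m : ℕ) :
    ∀ᵐ z ∂(Φ.evolve^[m + 1] (Measure.dirac x)), z ∈ Good b (m + 1) := by
  induction m with
  | zero =>
    have h0 : ∀ᵐ z ∂(Measure.dirac x), z ∈ ({x' : Config 1 Sy | (x' (s b)).1 = true}) :=
      (ae_dirac_iff (p := fun z => z ∈ ({x' : Config 1 Sy | (x' (s b)).1 = true}))
        (meas_site b (fun w => w.1 = true))).2 hx
    exact ae_evolve (meas_good b 1) h0 (fun x' hx' => good_one hx')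
  | succ m ih =>
    rw [Function.iterate_succ_apply']
    exact ae_evolve (meas_good b (m + 1 + 1)) ih (fun x' hx' => good_succ hx')

/-- No right-movers at all. -/
def NoR : Set (Config 1 Sy) := {y | ∀ j : ℤ, (y (s j)).1 = false}

theorem meas_noR : MeasurableSet NoR := by
  have e : NoR = ⋂ j : ℤ, {y | (y (s j)).1 = false} := by
    ext y
    simp only [NoR, Set.mem_iInter, Set.mem_ofPred_eq]
  rw [e]
  exact MeasurableSet.iInter fun j => meas_site j (fun w => w.1 = false)

theorem ae_noR {x : Config 1 Sy} (hx : x ∈ NoR) (m : ℕ) :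
    ∀ᵐ z ∂(Φ.evolve^[m] (Measure.dirac x)), z ∈ NoR := by
  induction m with
  | zero =>
    exact (ae_dirac_iff (p := fun z => z ∈ NoR) meas_noR).2 hx
  | succ m ih =>
    rw [Function.iterate_succ_apply']
    refine ae_evolve meas_noR ih (fun x' hx' => ?_)
    filter_upwards [ae_step x'] with y hy
    intro j
    rw [(hy j).1]
    unfold rX rN
    rw [hx' (j - 1)]
    rfl

theorem eventually_rfree (x : Config 1 Sy) (K : ℤ) : ∃ m0 : ℕ, ∀ m ≥ m0,
    ∀ᵐ z ∂(Φ.evolve^[m] (Measure.dirac x)), Rfree K z := by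
  by_cases hx : x ∈ NoR
  · refine ⟨0, fun m _ => ?_⟩
    filter_upwards [ae_noR hx m] with z hz
    exact fun j _ _ => hz j
  · have : ∃ b : ℤ, (x (s b)).1 = true := by
      by_contra hcon
      apply hx
      intro j
      by_contra hne
      exact hcon ⟨j, by rwa [Bool.not_eq_false] at hne⟩
    obtain ⟨b, hb⟩ := this
    refine ⟨(|b| + |K| + 2).toNat + 1, fun m hm => ?_⟩
    obtain ⟨m', rfl⟩ : ∃ m', m = m' + 1 := ⟨m - 1, by omega⟩
    have hb1 := neg_abs_le b
    have hb2 := le_abs_self b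
    have hK1 := neg_abs_le K
    have hK2 := le_abs_self K
    filter_upwards [ae_good hb m'] with z hz
    intro j h1 h2
    obtain ⟨q, _, hq1, hq2⟩ := hz
    by_contra hne
    rw [Bool.not_eq_false] at hne
    rcases hq2 j hne with h | h
    · push_cast at h; omega
    · push_cast at hq1; omega

/-! ### The walkers -/

/-- No walker. -/
noncomputable def vac (w : Sy) : ℝ≥0∞ := if w.2 = 0 then 1 else 0

theorem op_vac (j : ℤ) : Φ.op (fun y => vac (y (s j))) = G j 1 := by
  funext x
  rw [op_site, nu_eq, lintegral_law]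
  unfold G vac
  simp only [Finset.prod_range_one, Nat.cast_zero, add_zero, z_eq]
  split_ifs <;> simp_all

theorem op_iterate_vac (j : ℤ) (t : ℕ) :
    Φ.op^[t + 1] (fun y => vac (y (s j))) = Φ.op^[t] (G j 1) := by
  rw [Function.iterate_succ_apply, op_vac]

theorem measure_vac (ν : Measure (Config 1 Sy)) (j : ℤ) :
    ν {y | (y (s j)).2 = 0} = ∫⁻ y, vac (y (s j)) ∂ν := by
  have h1 : (fun y : Config 1 Sy => vac (y (s j))) =
      ({y | (y (s j)).2 = 0} : Set (Config 1 Sy)).indicator (fun _ => 1) := by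
    funext y
    unfold vac
    by_cases h : (y (s j)).2 = 0
    · rw [if_pos h, Set.indicator_of_mem]; exact h
    · rw [if_neg h, Set.indicator_of_notMem]; exact h
  rw [h1, lintegral_indicator (meas_site j (fun w => w.2 = 0)), lintegral_const, one_mul,
    Measure.restrict_apply MeasurableSet.univ, Set.univ_inter]

theorem vac_lower (x : Config 1 Sy) (j : ℤ) (t : ℕ) : ∃ n0 : ℕ, ∀ n ≥ n0,
    ENNReal.ofReal (W t 1) ≤ (Φ.evolve^[n] (Measure.dirac x)) {y | (y (s j)).2 = 0} := by
  obtain ⟨K, hK⟩ := le_op_iterate_G t j 1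
  obtain ⟨m0, hm0⟩ := eventually_rfree x K
  refine ⟨m0 + (t + 1), fun n hn => ?_⟩
  obtain ⟨m, rfl⟩ : ∃ m, n = (t + 1) + m := ⟨n - (t + 1), by omega⟩
  have hm := hm0 m (by omega)
  have hp := Φ.isProbabilityMeasure_iterate (Measure.dirac x) m
  rw [measure_vac, Function.iterate_add_apply,
    Φ.lintegral_iterate (Φ.evolve^[m] (Measure.dirac x)) (t + 1) (dependsOn_site vac j),
    op_iterate_vac]
  calc ENNReal.ofReal (W t 1) = ∫⁻ _, ENNReal.ofReal (W t 1) ∂(Φ.evolve^[m] (Measure.dirac x)) := by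
        rw [lintegral_const, measure_univ, mul_one]
    _ ≤ _ := by
        apply lintegral_mono_ae
        filter_upwards [hm] with z hz
        exact hK z hz

theorem vac_tendsto (x : Config 1 Sy) (j : ℤ) :
    Tendsto (fun n => (Φ.evolve^[n] (Measure.dirac x)) {y | (y (s j)).2 = 0}) atTop (𝓝 1) := by
  have hW : Tendsto (fun t => ENNReal.ofReal (W t 1)) atTop (𝓝 1) := by
    have := ENNReal.tendsto_ofReal W_tendsto
    rwa [ENNReal.ofReal_one] at this
  rw [tendsto_order]
  constructor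
  · intro a ha
    obtain ⟨t, ht⟩ := (hW.eventually_const_lt ha).exists
    obtain ⟨n0, hn0⟩ := vac_lower x j t
    filter_upwards [eventually_ge_atTop n0] with n hn
    exact ht.trans_le (hn0 n hn)
  · intro a ha
    filter_upwards with n
    have hp := Φ.isProbabilityMeasure_iterate (Measure.dirac x) n
    exact prob_le_one.trans_lt ha

/-- The probability that `i` is not empty tends to zero, Dirac initial condition. -/
theorem nonempty_dirac (x : Config 1 Sy) (j : ℤ) :
    Tendsto (fun n => (Φ.evolve^[n] (Measure.dirac x)) {y | y (s j) ≠ o}) atTop (𝓝 0) := by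
  obtain ⟨m0, hm0⟩ := eventually_rfree x |j|
  have h1 : Tendsto (fun n => 1 - (Φ.evolve^[n] (Measure.dirac x)) {y | (y (s j)).2 = 0}) atTop
      (𝓝 0) := by
    have := ENNReal.Tendsto.sub (tendsto_const_nhds (x := (1 : ℝ≥0∞))) (vac_tendsto x j)
      (Or.inl (by norm_num))
    simpa using this
  refine tendsto_of_tendsto_of_tendsto_of_le_of_le' tendsto_const_nhds h1
    (Eventually.of_forall fun n => zero_le) ?_
  filter_upwards [eventually_ge_atTop m0] with n hn
  have hp := Φ.isProbabilityMeasure_iterate (Measure.dirac x) n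
  rw [← prob_compl_eq_one_sub (meas_site j (fun w => w.2 = 0))]
  apply measure_mono_ae
  filter_upwards [hm0 n hn] with z hz hne
  have hz1 : (z (s j)).1 = false := hz j (neg_abs_le j) (le_abs_self j)
  show ¬ ((z (s j)).2 = 0)
  intro h2
  exact hne (Prod.ext hz1 h2)

/-- The indicator of a non-empty site. -/
noncomputable def ne (w : Sy) : ℝ≥0∞ := if w = o then 0 else 1

theorem measure_ne (ν : Measure (Config 1 Sy)) (j : ℤ) :
    ν {y | y (s j) ≠ o} = ∫⁻ y, ne (y (s j)) ∂ν := by
  have h1 : (fun y : Config 1 Sy => ne (y (s j))) =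
      ({y | y (s j) ≠ o} : Set (Config 1 Sy)).indicator (fun _ => 1) := by
    funext y
    unfold ne
    by_cases h : y (s j) = o
    · rw [if_pos h, Set.indicator_of_notMem]; exact fun h' => h' h
    · rw [if_neg h, Set.indicator_of_mem]; exact h
  rw [h1, lintegral_indicator (meas_site j (fun w => w ≠ o)), lintegral_const, one_mul,
    Measure.restrict_apply MeasurableSet.univ, Set.univ_inter]

theorem nonempty_tendsto (μ : Measure (Config 1 Sy)) [IsProbabilityMeasure μ] (i : Site 1) :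
    Tendsto (fun n => (Φ.evolve^[n] μ) {y | y i ≠ o}) atTop (𝓝 0) := by
  have hi : s (i 0) = i := s_apply_zero i
  rw [← hi]
  set j := i 0
  have h1 : ∀ n, (Φ.evolve^[n] μ) {y | y (s j) ≠ o} =
      ∫⁻ x, Φ.op^[n] (fun y => ne (y (s j))) x ∂μ := fun n => by
    rw [measure_ne]
    exact Φ.lintegral_iterate μ n (dependsOn_site ne j)
  have h2 : ∀ x, Tendsto (fun n => Φ.op^[n] (fun y => ne (y (s j))) x) atTop (𝓝 0) := by
    intro x
    have := nonempty_dirac x j
    refine this.congr (fun n => ?_)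
    rw [measure_ne]
    exact Φ.iterate_dirac x n (dependsOn_site ne j)
  simp only [h1]
  have h3 := tendsto_lintegral_of_dominated_convergence (μ := μ)
    (F := fun n x => Φ.op^[n] (fun y => ne (y (s j))) x) (f := fun _ => 0) (fun _ => 1)
    (fun n => PCA.measurable_of_dependsOn (Φ.op_iterate_dependsOn n (dependsOn_site ne j)))
    (fun n => Eventually.of_forall fun x => Φ.op_iterate_le_one (fun y => by
      unfold ne; split_ifs <;> simp) n x)
    (by simp) (Eventually.of_forall h2)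
  simpa using h3

/-- Ergodicity. -/
theorem ergodic (μ : Measure (Config 1 Sy)) [IsProbabilityMeasure μ] (S : Finset (Site 1))
    (a : Config 1 Sy) :
    Tendsto (fun n => (Φ.evolve^[n] μ) {x | ∀ k ∈ S, x k = a k}) atTop
      (𝓝 ((Measure.dirac (fun _ => o) : Measure (Config 1 Sy)) {x | ∀ k ∈ S, x k = a k})) := by
  have hC : MeasurableSet {x : Config 1 Sy | ∀ k ∈ S, x k = a k} := by
    have e : {x : Config 1 Sy | ∀ k ∈ S, x k = a k} = ⋂ k ∈ S, {x | x k = a k} := by
      ext y
      simp only [Set.mem_iInter, Set.mem_ofPred_eq]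
    rw [e]
    exact Finset.measurableSet_biInter _ (fun k _ =>
      (measurable_pi_apply (X := fun _ : Site 1 => Sy) k) (MeasurableSet.of_discrete (s := {a k})))
  rw [Measure.dirac_apply' _ hC]
  by_cases h : ∀ k ∈ S, a k = o
  · rw [Set.indicator_of_mem (show (fun _ => o) ∈ {x : Config 1 Sy | ∀ k ∈ S, x k = a k} from
      fun k hk => (h k hk).symm)]
    have h1 : Tendsto (fun n => ∑ k ∈ S, (Φ.evolve^[n] μ) {y | y k ≠ o}) atTop
        (𝓝 (∑ k ∈ S, 0)) := tendsto_finsetSum _ (fun k _ => nonempty_tendsto μ k)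
    rw [Finset.sum_const_zero] at h1
    have h2 : Tendsto (fun n => 1 - ∑ k ∈ S, (Φ.evolve^[n] μ) {y | y k ≠ o}) atTop (𝓝 1) := by
      have := ENNReal.Tendsto.sub (tendsto_const_nhds (x := (1 : ℝ≥0∞))) h1
        (Or.inl (by norm_num))
      simpa using this
    refine tendsto_of_tendsto_of_tendsto_of_le_of_le h2 tendsto_const_nhds (fun n => ?_)
      (fun n => ?_)
    · have hp := Φ.isProbabilityMeasure_iterate μ n
      have h3 : (Φ.evolve^[n] μ) {x | ∀ k ∈ S, x k = a k}ᶜ ≤
          ∑ k ∈ S, (Φ.evolve^[n] μ) {y | y k ≠ o} := by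
        refine (measure_mono ?_).trans (measure_biUnion_finset_le S _)
        intro x hx
        by_contra hcon
        apply hx
        intro k hk
        rw [h k hk]
        by_contra hne
        exact hcon (Set.mem_biUnion hk hne)
      rw [prob_compl_eq_one_sub hC] at h3
      show 1 - ∑ k ∈ S, (Φ.evolve^[n] μ) {y | y k ≠ o} ≤ _
      rw [tsub_le_iff_right]
      rw [tsub_le_iff_right, add_comm] at h3
      exact h3
    · have hp := Φ.isProbabilityMeasure_iterate μ n
      exact prob_le_one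
  · have h' : ∃ k ∈ S, a k ≠ o := by
      by_contra hcon
      apply h
      intro k hk
      by_contra hne
      exact hcon ⟨k, hk, hne⟩
    obtain ⟨k, hk, hne⟩ := h'
    rw [Set.indicator_of_notMem (show (fun _ => o) ∉ {x : Config 1 Sy | ∀ k ∈ S, x k = a k} from
      fun h2 => hne (h2 k hk).symm)]
    refine tendsto_of_tendsto_of_tendsto_of_le_of_le tendsto_const_nhds (nonempty_tendsto μ k)
      (fun n => zero_le) (fun n => ?_)
    apply measure_mono
    intro x hx
    show x k ≠ o
    rw [hx k hk]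
    exact hne

/-! ### A single right-mover -/

/-- A single right-mover at `p` (and maybe others behind it), all walkers behind it. -/
def Sgl (p : ℤ) : Set (Config 1 Sy) :=
  {y | (y (s p)).1 = true ∧ ∀ j : ℤ, ((y (s j)).1 = true → j ≤ p) ∧ ((y (s j)).2 ≠ 0 → j ≤ p - 1)}

theorem meas_sgl (p : ℤ) : MeasurableSet (Sgl p) := by
  have e : Sgl p = {y | (y (s p)).1 = true} ∩
      ⋂ j : ℤ, {y | ((y (s j)).1 = true → j ≤ p) ∧ ((y (s j)).2 ≠ 0 → j ≤ p - 1)} := by
    ext y
    simp only [Sgl, Set.mem_inter_iff, Set.mem_iInter, Set.mem_ofPred_eq]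
  rw [e]
  exact (meas_site p (fun w => w.1 = true)).inter (MeasurableSet.iInter fun j =>
    meas_site j (fun w => (w.1 = true → j ≤ p) ∧ (w.2 ≠ 0 → j ≤ p - 1)))

theorem sgl_succ {p : ℤ} {x : Config 1 Sy} (hx : x ∈ Sgl p) :
    ∀ᵐ y ∂(Φ.step x), y ∈ Sgl (p + 1) := by
  obtain ⟨h0, h1⟩ := hx
  have hw : ∀ j : ℤ, p ≤ j → (x (s j)).2 = 0 := by
    intro j hj
    by_contra hne
    have := (h1 j).2 hne
    omega
  filter_upwards [ae_step x] with y hy
  refine ⟨?_, fun j => ⟨fun hj => ?_, fun hj => ?_⟩⟩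
  · rw [(hy (p + 1)).1]
    have e : p + 1 - 1 = p := by ring
    simp [rX, rN, e, h0, hw p le_rfl, hw (p + 1) (by omega), hw (p + 1 + 1) (by omega)]
  · rw [(hy j).1] at hj
    simp only [rX, rN, Bool.and_eq_true] at hj
    have := (h1 (j - 1)).1 hj.1.1.1
    omega
  · rw [(hy j).2] at hj
    simp only [oX, oc, Bool.or_eq_true, beq_iff_eq] at hj
    rcases hj with (h | h) | h
    · have := (h1 j).1 h
      omega
    · have := (h1 (j + 1)).2 (by rw [h]; decide)
      omega
    · have := (h1 (j + 2)).2 (by rw [h]; decide)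
      omega

/-- The configuration with a single right-mover at `-n`. -/
def one (n : ℕ) : Config 1 Sy := fun i => if i 0 = -(n : ℤ) then (true, 0) else (false, 0)

theorem one_sgl (n : ℕ) : one n ∈ Sgl (-(n : ℤ)) := by
  refine ⟨by simp [one, s], fun j => ⟨fun hj => ?_, fun hj => ?_⟩⟩
  · by_contra hlt
    have : j ≠ -(n : ℤ) := by omega
    simp [one, s, this] at hj
  · exfalso
    apply hj
    unfold one
    split_ifs <;> rfl

theorem ae_sgl (n m : ℕ) :
    ∀ᵐ z ∂(Φ.evolve^[m] (Measure.dirac (one n))), z ∈ Sgl (-(n : ℤ) + m) := by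
  induction m with
  | zero =>
    refine (ae_dirac_iff (p := fun z => z ∈ Sgl (-(n : ℤ) + (0 : ℕ))) (meas_sgl _)).2 ?_
    simpa using one_sgl n
  | succ m ih =>
    rw [Function.iterate_succ_apply']
    refine ae_evolve (meas_sgl _) ih (fun x' hx' => ?_)
    have := sgl_succ hx'
    push_cast
    rw [← add_assoc]
    exact this

theorem one_prob (n : ℕ) :
    (Φ.evolve^[n] (Measure.dirac (one n))) {x | ∀ k ∈ ({s 0} : Finset (Site 1)), x k = o} = 0 := by
  have h := ae_sgl n n
  rw [ae_iff] at h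
  refine measure_mono_null ?_ h
  intro x hx hx'
  have e : -(n : ℤ) + n = 0 := by ring
  rw [e] at hx'
  have h1 := hx'.1
  have h2 := hx (s 0) (by simp)
  rw [h2] at h1
  exact absurd h1 (by decide)

end Pool.Agent.H443R3.Movers
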