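import Mathlib
import Pool.Agent.H443R3.Movers4

set_option autoImplicit false

open MeasureTheory ProbabilityTheory Filter Topology
open scoped ENNReal Pointwise

namespace Pool.Agent.H443R3.Movers

open Pool.Agent.H443R3

theorem zero_prob : Tendsto (fun n => ((Φ.evolve^[n] (Measure.dirac (fun _ => o)))
    {x | ∀ k ∈ ({s 0} : Finset (Site 1)), x k = o}).toReal) atTop (𝓝 1) := by
  have hlim := ergodic (Measure.dirac (fun _ => o)) {s 0} (fun _ => o)
  have hmem : (fun _ => o) ∈ {x : Config 1 Sy | ∀ k ∈ ({s 0} : Finset (Site 1)), x k = o} :=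
    fun k _ => rfl
  have h1 : (Measure.dirac (fun _ => o) : Measure (Config 1 Sy))
      {x | ∀ k ∈ ({s 0} : Finset (Site 1)), x k = o} = 1 := Measure.dirac_apply_of_mem hmem
  rw [h1] at hlim
  have := (ENNReal.tendsto_toReal ENNReal.one_ne_top).comp hlim
  rw [ENNReal.toReal_one] at this
  exact this

theorem not_uniform (π : Measure (Config 1 Sy))
    (hπ : ∀ (S : Finset (Site 1)) (a : Config 1 Sy), ∀ ε : ℝ, 0 < ε →
        ∃ n0 : ℕ, ∀ n : ℕ, n0 ≤ n →
          ∀ μ : Measure (Config 1 Sy), IsProbabilityMeasure μ →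
            |((Φ.evolve^[n] μ) {x | ∀ k ∈ S, x k = a k}).toReal
              - (π {x | ∀ k ∈ S, x k = a k}).toReal| < ε) : False := by
  obtain ⟨n0, hn0⟩ := hπ {s 0} (fun _ => o) (1 / 4) (by norm_num)
  obtain ⟨n, hn, hge⟩ := ((zero_prob.eventually_const_lt (show (1 / 2 : ℝ) < 1 by norm_num)).and
    (eventually_ge_atTop n0)).exists
  have h2 := hn0 n hge (Measure.dirac (fun _ => o)) inferInstance
  have h3 := hn0 n hge (Measure.dirac (one n)) inferInstance
  rw [one_prob n, ENNReal.toReal_zero] at h3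
  rw [abs_lt] at h2 h3
  linarith [h2.1, h2.2, h3.1, h3.2]

end Pool.Agent.H443R3.Movers
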