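import Mathlib

set_option autoImplicit false

/-!
# The soldiers automaton with one-way noise: the deterministic part

`true` stands for the state `+1`.  The noise turns `false` into `true`.
-/

namespace Pool.Agent.H443R3.Soldiers

/-- The soldiers rule. -/
def D (x : ℤ → Bool) (i : ℤ) : Bool :=
  (x i && (x (i + 1) || x (i + 3))) || (!x i && x (i - 1) && x (i - 3))

/-- The zone: the sites `-2, -1, 0` are in state `+`, and for `1 ≤ i ≤ c` a minus at `i` forces
pluses at `i - 1` and `i - 3`. -/
def Zone (x : ℤ → Bool) (c : ℤ) : Prop :=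
  x (-2) = true ∧ x (-1) = true ∧ x 0 = true ∧
    ∀ i : ℤ, 1 ≤ i → i ≤ c → x i = false → x (i - 1) = true ∧ x (i - 3) = true

/-- The key lemma: inside the zone a minus comes from two minuses on its right and an unsuccessful
noise variable. -/
theorem minus_of_zone {x x' u : ℤ → Bool} {c : ℤ} (hx : ∀ i, x' i = (D x i || u i))
    (hz : Zone x c) {j : ℤ} (hj : -2 ≤ j) (hjc : j ≤ c) (h : x' j = false) :
    x j = true ∧ x (j + 1) = false ∧ x (j + 3) = false ∧ u j = false := by
  obtain ⟨h2, h1, h0, hz⟩ := hz
  rw [hx j, Bool.or_eq_false_iff] at h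
  obtain ⟨hD, hu⟩ := h
  cases hxj : x j with
  | true =>
    simp only [D, hxj, Bool.true_and, Bool.not_true, Bool.false_and, Bool.or_false,
      Bool.or_eq_false_iff] at hD
    exact ⟨rfl, hD.1, hD.2, hu⟩
  | false =>
    exfalso
    have hj1 : 1 ≤ j := by
      by_contra hlt
      have h3 : j = -2 ∨ j = -1 ∨ j = 0 := by omega
      rcases h3 with rfl | rfl | rfl
      · rw [h2] at hxj; cases hxj
      · rw [h1] at hxj; cases hxj
      · rw [h0] at hxj; cases hxj
    obtain ⟨ha, hb⟩ := hz j hj1 hjc hxj
    simp [D, hxj, ha, hb] at hD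

theorem zone_succ {x x' u : ℤ → Bool} {c : ℤ} (hx : ∀ i, x' i = (D x i || u i))
    (hz : Zone x c) (h0 : x' 0 = true) : Zone x' c := by
  have e2 : x' (-2) = true := by
    rw [hx]
    have h2 := hz.1
    have h1 := hz.2.1
    simp [D, h2, h1]
  have e1 : x' (-1) = true := by
    rw [hx]
    have h1 := hz.2.1
    have h0 := hz.2.2.1
    simp [D, h1, h0]
  refine ⟨e2, e1, h0, fun i hi hic hf => ?_⟩
  have h := minus_of_zone hx hz (by omega) hic hf
  constructor
  · by_contra hne
    rw [Bool.not_eq_true] at hne
    have h' := minus_of_zone hx hz (by omega) (by omega) hne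
    rw [sub_add_cancel, h.1] at h'
    exact absurd h'.2.1 (by decide)
  · by_contra hne
    rw [Bool.not_eq_true] at hne
    have h' := minus_of_zone hx hz (by omega) (by omega) hne
    rw [sub_add_cancel, h.1] at h'
    exact absurd h'.2.2.1 (by decide)

/-- If the zone does not advance in one step then afterwards there are minuses at `c` and
`c + 1`. -/
theorem zone_advance {x x' u : ℤ → Bool} {c : ℤ} (hc : 0 ≤ c) (hx : ∀ i, x' i = (D x i || u i))
    (hz : Zone x c) (h0 : x' 0 = true) :
    Zone x' (c + 1) ∨ (x' c = false ∧ x' (c + 1) = false ∧ x c = true) := by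
  have hz' := zone_succ hx hz h0
  by_cases hadv : x' (c + 1) = false → x' c = true ∧ x' (c - 2) = true
  · left
    refine ⟨hz'.1, hz'.2.1, hz'.2.2.1, fun i hi hic hf => ?_⟩
    rcases lt_or_eq_of_le hic with hlt | rfl
    · exact hz'.2.2.2 i hi (by omega) hf
    · have e1 : c + 1 - 1 = c := by ring
      have e2 : c + 1 - 3 = c - 2 := by ring
      rw [e1, e2]
      exact hadv hf
  · right
    rw [Classical.not_imp] at hadv
    obtain ⟨hf, hne⟩ := hadv
    -- minuses at `c` or `c - 2` come from the right
    have hC : x' c = false → x c = true ∧ x (c + 1) = false := fun h => by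
      have := minus_of_zone hx hz (by omega) le_rfl h
      exact ⟨this.1, this.2.1⟩
    have hC2 : x' (c - 2) = false → x (c - 2) = true ∧ x (c - 1) = false ∧ x (c + 1) = false :=
      fun h => by
        have := minus_of_zone hx hz (by omega) (by omega) h
        have e1 : c - 2 + 1 = c - 1 := by ring
        have e2 : c - 2 + 3 = c + 1 := by ring
        rw [e1, e2] at this
        exact ⟨this.1, this.2.1, this.2.2.1⟩
    have hfD : D x (c + 1) = false := by
      have := hx (c + 1)
      rw [hf] at this
      exact (Bool.or_eq_false_iff.1 this.symm).1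
    have hor : x' c = false ∨ x' (c - 2) = false := by
      by_contra hcon
      rw [not_or, Bool.not_eq_false, Bool.not_eq_false] at hcon
      exact hne hcon
    have hx1 : x (c + 1) = false := by
      rcases hor with h | h
      · exact (hC h).2
      · exact (hC2 h).2.2
    have e1 : c + 1 - 1 = c := by ring
    have e2 : c + 1 - 3 = c - 2 := by ring
    have hfD' : (x c && x (c - 2)) = false := by
      simp only [D, hx1, Bool.false_and, Bool.not_false, Bool.true_and, Bool.false_or, e1, e2]
        at hfD
      exact hfD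
    have hxc : x c = true := by
      by_contra hcf
      rw [Bool.not_eq_true] at hcf
      rcases hor with h | h
      · rw [(hC h).1] at hcf; cases hcf
      · -- `x c = false` with `x (c - 1) = false` contradicts the zone
        have hc1 : 1 ≤ c := by
          by_contra hlt
          have : c = 0 := by omega
          subst this
          rw [hz.2.2.1] at hcf
          cases hcf
        have := (hz.2.2.2 c hc1 le_rfl hcf).1
        rw [(hC2 h).2.1] at this
        cases this
    have hxc2 : x (c - 2) = false := by
      rw [hxc, Bool.true_and] at hfD'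
      exact hfD'
    have hnot : x' (c - 2) ≠ false := fun h => by
      rw [(hC2 h).1] at hxc2
      cases hxc2
    exact ⟨hor.resolve_right hnot, hf, hxc⟩

theorem zone_two {x x' x'' u u' : ℤ → Bool} {c : ℤ} (hc : 0 ≤ c)
    (hx : ∀ i, x' i = (D x i || u i)) (hx' : ∀ i, x'' i = (D x' i || u' i))
    (hz : Zone x c) (h0 : x' 0 = true) (h0' : x'' 0 = true) : Zone x'' (c + 1) := by
  rcases zone_advance hc hx hz h0 with h | ⟨h1, _, _⟩
  · exact zone_succ hx' h h0'
  · rcases zone_advance hc hx' (zone_succ hx hz h0) h0' with h | ⟨_, _, h2⟩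
    · exact h
    · rw [h1] at h2
      cases h2

variable {x u : ℕ → ℤ → Bool}

theorem zone_all (h : ∀ n i, x (n + 1) i = (D (x n) i || u n i)) {M : ℕ}
    (hinit : ∀ i : ℤ, -2 ≤ i → i ≤ M → x 0 i = true) :
    ∀ t : ℕ, (∀ t' ≤ t, x t' 0 = true) → Zone (x t) (M + (t / 2 : ℕ)) := by
  intro t
  induction t using Nat.twoStepInduction with
  | zero =>
    intro _
    refine ⟨hinit _ (by omega) (by omega), hinit _ (by omega) (by omega),
      hinit _ (by omega) (by omega), fun i hi hic hf => ?_⟩
    rw [hinit i (by omega) (by simpa using hic)] at hf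
    cases hf
  | one =>
    intro h0
    have hz : Zone (x 0) (M + ((1 / 2 : ℕ) : ℤ)) := by
      refine ⟨hinit _ (by omega) (by omega), hinit _ (by omega) (by omega),
        hinit _ (by omega) (by omega), fun i hi hic hf => ?_⟩
      rw [hinit i (by omega) (by simpa using hic)] at hf
      cases hf
    exact zone_succ (h 0) hz (h0 1 le_rfl)
  | more t ih _ =>
    intro h0
    have hz := ih (fun t' ht' => h0 t' (by omega))
    have := zone_two (by positivity) (h t) (h (t + 1)) hz (h0 (t + 1) (by omega))
      (h0 (t + 2) (by omega))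
    have e : ((M : ℤ) + ((t + 2) / 2 : ℕ)) = M + (t / 2 : ℕ) + 1 := by
      rw [Nat.add_div_right _ (by norm_num : 0 < 2)]
      push_cast
      ring
    rw [e]
    exact this

theorem path (h : ∀ n i, x (n + 1) i = (D (x n) i || u n i)) {M : ℕ}
    (hinit : ∀ i : ℤ, -2 ≤ i → i ≤ M → x 0 i = true) {t : ℕ} (ht : ∀ t' < t, x t' 0 = true)
    (hf : x t 0 = false) : ∀ s : ℕ, s ≤ t → (∀ s' < s, s' ≤ M + (t - s' - 1) / 2) →
      x (t - s) s = false ∧ ∀ s' < s, u (t - 1 - s') s' = false := by
  intro s
  induction s with
  | zero =>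
    intro _ _
    exact ⟨hf, fun s' hs' => absurd hs' (Nat.not_lt_zero _)⟩
  | succ s ih =>
    intro hst hs
    obtain ⟨h1, h2⟩ := ih (by omega) (fun s' hs' => hs s' (by omega))
    have hz : Zone (x (t - s - 1)) (M + ((t - s - 1) / 2 : ℕ)) :=
      zone_all h hinit _ (fun t' ht' => ht t' (by omega))
    have e : t - s = (t - s - 1) + 1 := by omega
    rw [e] at h1
    have hle := hs s (by omega)
    have h3 := minus_of_zone (h (t - s - 1)) hz (j := (s : ℤ)) (by omega) (by exact_mod_cast hle) h1
    constructor
    · have e' : t - (s + 1) = t - s - 1 := by omega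
      rw [e']
      have := h3.2.1
      push_cast
      exact this
    · intro s' hs'
      rcases Nat.lt_succ_iff_lt_or_eq.1 hs' with hlt | rfl
      · exact h2 s' hlt
      · have e' : t - 1 - s' = t - s' - 1 := by omega
        rw [e']
        exact h3.2.2.2

/-- The deterministic part: a run of pluses survives forever as soon as the noise is good. -/
theorem survive (h : ∀ n i, x (n + 1) i = (D (x n) i || u n i)) {M : ℕ}
    (hinit : ∀ i : ℤ, -2 ≤ i → i ≤ M → x 0 i = true)
    (hu : ∀ t : ℕ, M < t → ∃ s < t / 3, u (t - 1 - s) (s : ℤ) = true) : ∀ t : ℕ, x t 0 = true := by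
  intro t
  induction t using Nat.strong_induction_on with
  | _ t ih =>
    by_contra hne
    rw [Bool.not_eq_true] at hne
    rcases Nat.lt_or_ge M t with hlt | hge
    · obtain ⟨s, hs, hus⟩ := hu t hlt
      have := (path h hinit ih hne (t / 3) (by omega) (fun s' hs' => by omega)).2 s hs
      rw [this] at hus
      cases hus
    · have := (path h hinit ih hne t le_rfl (fun s' hs' => by omega)).1
      rw [Nat.sub_self, hinit _ (by omega) (by exact_mod_cast hge)] at this
      cases this

end Pool.Agent.H443R3.Soldiers
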