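import Mathlib
import Pool.Agent.H443R3.Soldiers

set_option autoImplicit false

open MeasureTheory ProbabilityTheory Filter Topology
open scoped ENNReal

/-!
# The soldiers automaton with one-way noise: the probabilistic part
-/

namespace Pool.Agent.H443R3.SoldiersProb

open Pool.Agent.H443R3.Soldiers

variable {Ω : Type} [MeasurableSpace Ω] {P : Measure Ω} {ξ : ℕ → ℤ → Ω → Bool}

/-- The noise creates a run of pluses at time `m`. -/
def E1 (ξ : ℕ → ℤ → Ω → Bool) (a : ℤ) (M m : ℕ) : Set Ω :=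
  {ω | ∀ i ∈ Finset.Icc (-2 : ℤ) M, ξ m (a + i) ω = true}

/-- The later noise is good. -/
def E2 (ξ : ℕ → ℤ → Ω → Bool) (a : ℤ) (M m : ℕ) : Set Ω :=
  {ω | ∀ t : ℕ, M < t → ∃ s < t / 3, ξ (m + 1 + (t - 1 - s)) (a + s) ω = true}

/-- The bad event. -/
def Bad (ξ : ℕ → ℤ → Ω → Bool) (a : ℤ) (m t : ℕ) : Set Ω :=
  {ω | ∀ s < t / 3, ξ (m + 1 + (t - 1 - s)) (a + s) ω = false}

/-- The good event. -/
def Good (ξ : ℕ → ℤ → Ω → Bool) (a : ℤ) (M m : ℕ) : Set Ω := E1 ξ a M m ∩ E2 ξ a M m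

theorem good_survive {X : ℕ → Ω → ℤ → Bool}
    (hX : ∀ n ω i, X (n+1) ω i =
      (((X n ω i && (X n ω (i+1) || X n ω (i+3))) ||
        (!X n ω i && X n ω (i-1) && X n ω (i-3))) || ξ n i ω))
    {a : ℤ} {M m : ℕ} {ω : Ω} (h : ω ∈ Good ξ a M m) (t : ℕ) : X (m + 1 + t) ω a = true := by
  have key := survive (x := fun n i => X (m + 1 + n) ω (a + i))
    (u := fun n i => ξ (m + 1 + n) (a + i) ω) (M := M) (fun n i => by
      show X (m + 1 + (n + 1)) ω (a + i) = _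
      rw [← add_assoc, hX]
      simp only [D, add_assoc, add_sub_assoc]) (fun i hi hiM => by
      show X (m + 1 + 0) ω (a + i) = true
      rw [add_zero, hX]
      have := h.1 i (Finset.mem_Icc.2 ⟨hi, hiM⟩)
      rw [this, Bool.or_true]) (fun t ht => h.2 t ht) t
  simpa using key

/-- The σ-algebra generated by the noise after time `K`. -/
def Fut (ξ : ℕ → ℤ → Ω → Bool) (S : Set (ℕ × ℤ)) : MeasurableSpace Ω :=
  ⨆ q ∈ S, MeasurableSpace.comap (ξ q.1 q.2) (inferInstance : MeasurableSpace Bool)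

theorem fut_mono {S T : Set (ℕ × ℤ)} (h : S ⊆ T) : Fut ξ S ≤ Fut ξ T :=
  biSup_mono h

theorem fut_le (hm : ∀ n i, Measurable (ξ n i)) (S : Set (ℕ × ℤ)) : Fut ξ S ≤ ‹MeasurableSpace Ω› :=
  iSup₂_le fun q _ => (hm q.1 q.2).comap_le

theorem meas_coord {S : Set (ℕ × ℤ)} {n : ℕ} {i : ℤ} (h : (n, i) ∈ S) (b : Bool) :
    MeasurableSet[Fut ξ S] {ω | ξ n i ω = b} := by
  have h1 : MeasurableSet[MeasurableSpace.comap (ξ n i) (inferInstance : MeasurableSpace Bool)]
      {ω | ξ n i ω = b} := ⟨{b}, MeasurableSet.of_discrete, rfl⟩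
  have h2 : MeasurableSpace.comap (ξ n i) (inferInstance : MeasurableSpace Bool) ≤ Fut ξ S :=
    le_iSup₂ (f := fun (q : ℕ × ℤ) (_ : q ∈ S) =>
      MeasurableSpace.comap (ξ q.1 q.2) (inferInstance : MeasurableSpace Bool)) (n, i) h
  exact h2 _ h1

theorem meas_E1 (a : ℤ) (M m : ℕ) {S : Set (ℕ × ℤ)} (hS : ∀ i, (m, i) ∈ S) :
    MeasurableSet[Fut ξ S] (E1 ξ a M m) := by
  have e : E1 ξ a M m = ⋂ i ∈ Finset.Icc (-2 : ℤ) M, {ω | ξ m (a + i) ω = true} := by
    ext ω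
    simp only [E1, Set.mem_setOf_eq, Set.mem_iInter]
  rw [e]
  exact Finset.measurableSet_biInter _ (fun i _ => meas_coord (hS _) _)

theorem meas_E2 (a : ℤ) (M m : ℕ) {S : Set (ℕ × ℤ)} (hS : ∀ n i, m + 1 ≤ n → (n, i) ∈ S) :
    MeasurableSet[Fut ξ S] (E2 ξ a M m) := by
  have e : E2 ξ a M m = ⋂ t : ℕ, ⋂ (_ : M < t), ⋃ s : ℕ, ⋃ (_ : s < t / 3),
      {ω | ξ (m + 1 + (t - 1 - s)) (a + s) ω = true} := by
    ext ω
    simp only [E2, Set.mem_setOf_eq, Set.mem_iInter, Set.mem_iUnion, exists_prop]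
  rw [e]
  apply MeasurableSet.iInter
  intro t
  apply MeasurableSet.iInter
  intro _
  apply MeasurableSet.iUnion
  intro s
  apply MeasurableSet.iUnion
  intro _
  exact meas_coord (hS _ _ (by omega)) _

theorem meas_good (a : ℤ) (M m : ℕ) {S : Set (ℕ × ℤ)} (hS : ∀ n i, m ≤ n → (n, i) ∈ S) :
    MeasurableSet[Fut ξ S] (Good ξ a M m) :=
  (meas_E1 a M m (fun i => hS m i le_rfl)).inter (meas_E2 a M m (fun n i hn => hS n i (by omega)))

section prob

variable [IsProbabilityMeasure P] {r : ℝ≥0∞} {d : ℝ≥0∞}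

theorem prob_finset (hi : iIndepFun (fun p : ℕ × ℤ => ξ p.1 p.2) P) {b : Bool}
    (hr : ∀ n i, P {ω | ξ n i ω = b} = r) (S : Finset (ℕ × ℤ)) :
    P {ω | ∀ p ∈ S, ξ p.1 p.2 ω = b} = r ^ S.card := by
  have h := hi.measure_inter_preimage_eq_mul S (sets := fun _ => {b})
    (fun _ _ => MeasurableSet.of_discrete)
  have e : (⋂ p ∈ S, (fun ω => ξ p.1 p.2 ω) ⁻¹' {b}) = {ω | ∀ p ∈ S, ξ p.1 p.2 ω = b} := by
    ext ω
    simp
  rw [← e]
  refine h.trans ?_
  rw [Finset.prod_congr rfl (g := fun _ => r) (fun p _ => hr p.1 p.2), Finset.prod_const]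

theorem prob_bad (hi : iIndepFun (fun p : ℕ × ℤ => ξ p.1 p.2) P)
    (hr : ∀ n i, P {ω | ξ n i ω = false} = r) (a : ℤ) (m t : ℕ) :
    P (Bad ξ a m t) = r ^ (t / 3) := by
  have h := prob_finset hi hr ((Finset.range (t / 3)).image
    (fun s : ℕ => ((m + 1 + (t - 1 - s), a + (s : ℤ)) : ℕ × ℤ)))
  rw [Finset.card_image_of_injective _ (fun s s' h => by
    simp only [Prod.mk.injEq] at h
    omega), Finset.card_range] at h
  rw [← h]
  congr 1
  ext ω
  simp [Bad]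

theorem prob_E1 (hi : iIndepFun (fun p : ℕ × ℤ => ξ p.1 p.2) P)
    (hd : ∀ n i, P {ω | ξ n i ω = true} = d) (a : ℤ) (M m : ℕ) :
    P (E1 ξ a M m) = d ^ (M + 3) := by
  have h := prob_finset hi hd ((Finset.Icc (-2 : ℤ) M).image
    (fun i : ℤ => ((m, a + i) : ℕ × ℤ)))
  rw [Finset.card_image_of_injective _ (fun s s' h => by
    simp only [Prod.mk.injEq] at h
    omega), Int.card_Icc] at h
  have e : ((M : ℤ) + 1 - -2).toNat = M + 3 := by omega
  rw [e] at h
  rw [← h]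
  congr 1
  ext ω
  simp only [E1, Finset.mem_image, Set.mem_setOf_eq]
  constructor
  · rintro h p ⟨i, hi, rfl⟩
    exact h i hi
  · intro h i hi
    exact h (m, a + i) ⟨i, hi, rfl⟩

theorem summable_pow_div (hr : r < 1) : ∑' t : ℕ, r ^ (t / 3) ≠ ∞ := by
  have h := Equiv.tsum_eq (Nat.divModEquiv 3) (fun p : ℕ × Fin 3 => r ^ p.1)
  have e : ∀ t : ℕ, (fun p : ℕ × Fin 3 => r ^ p.1) (Nat.divModEquiv 3 t) = r ^ (t / 3) :=
    fun t => rfl
  simp only [e] at h
  rw [h, ENNReal.tsum_prod (f := fun (k : ℕ) (_ : Fin 3) => r ^ k)]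
  simp only [tsum_fintype, Finset.sum_const, Finset.card_univ, Fintype.card_fin, nsmul_eq_mul]
  rw [ENNReal.tsum_mul_left, ENNReal.tsum_geometric]
  apply ENNReal.mul_ne_top (by norm_num)
  rw [ENNReal.inv_ne_top]
  exact (tsub_pos_of_lt hr).ne'

theorem exists_M (hr : r < 1) : ∃ M : ℕ, ∑' k : ℕ, r ^ ((k + (M + 1)) / 3) < 1 / 2 := by
  have h := ENNReal.tendsto_sum_nat_add (fun t => r ^ (t / 3)) (summable_pow_div hr)
  have h2 := (tendsto_add_atTop_iff_nat 1).2 h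
  have h3 := (h2.eventually_lt_const (show (0 : ℝ≥0∞) < 1 / 2 by norm_num)).exists
  obtain ⟨M, hM⟩ := h3
  exact ⟨M, hM⟩

theorem prob_E2 (hm : ∀ n i, Measurable (ξ n i))
    (hi : iIndepFun (fun p : ℕ × ℤ => ξ p.1 p.2) P)
    (hr : ∀ n i, P {ω | ξ n i ω = false} = r) (a : ℤ) {M : ℕ} (m : ℕ)
    (hM : ∑' k : ℕ, r ^ ((k + (M + 1)) / 3) < 1 / 2) : 1 / 2 ≤ P (E2 ξ a M m) := by
  have hmeas : MeasurableSet (E2 ξ a M m) :=
    fut_le hm _ _ (meas_E2 a M m (S := Set.univ) (fun _ _ _ => Set.mem_univ _))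
  have hsub : (E2 ξ a M m)ᶜ ⊆ ⋃ k : ℕ, Bad ξ a m (k + (M + 1)) := by
    intro ω hω
    simp only [E2, Set.mem_compl_iff, Set.mem_setOf_eq, not_forall, not_exists, not_and,
      Bool.not_eq_true] at hω
    obtain ⟨t, ht, hbad⟩ := hω
    rw [Set.mem_iUnion]
    refine ⟨t - (M + 1), ?_⟩
    have e : t - (M + 1) + (M + 1) = t := by omega
    rw [e]
    exact hbad
  have h1 : P (E2 ξ a M m)ᶜ ≤ 1 / 2 := by
    refine (measure_mono hsub).trans ((measure_iUnion_le _).trans ?_)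
    simp only [prob_bad hi hr]
    exact hM.le
  have h2 := prob_compl_eq_one_sub (μ := P) hmeas
  rw [h2] at h1
  have h3 : (1 : ℝ≥0∞) ≤ 1 / 2 + P (E2 ξ a M m) := tsub_le_iff_right.1 h1
  have h4 : (1 / 2 : ℝ≥0∞) + 1 / 2 = 1 := ENNReal.add_halves 1
  have h5 : (1 / 2 : ℝ≥0∞) + 1 / 2 ≤ 1 / 2 + P (E2 ξ a M m) := h4.trans_le h3
  have h6 : (1 / 2 : ℝ≥0∞) ≠ ∞ := by norm_num
  exact (ENNReal.add_le_add_iff_left h6).1 h5

theorem prob_good (hm : ∀ n i, Measurable (ξ n i))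
    (hi : iIndepFun (fun p : ℕ × ℤ => ξ p.1 p.2) P)
    (hd : ∀ n i, P {ω | ξ n i ω = true} = d)
    (hr : ∀ n i, P {ω | ξ n i ω = false} = r) (a : ℤ) {M : ℕ} (m : ℕ)
    (hM : ∑' k : ℕ, r ^ ((k + (M + 1)) / 3) < 1 / 2) :
    d ^ (M + 3) * (1 / 2) ≤ P (Good ξ a M m) := by
  have hind : Indep (Fut ξ {q | q.1 = m}) (Fut ξ {q | m + 1 ≤ q.1}) P := by
    apply indep_iSup_of_disjoint
      (m := fun q : ℕ × ℤ => MeasurableSpace.comap (ξ q.1 q.2) (inferInstance : MeasurableSpace Bool))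
      (fun q => (hm q.1 q.2).comap_le) hi
    rw [Set.disjoint_left]
    intro q h1 h2
    simp only [Set.mem_setOf_eq] at h1 h2
    omega
  have h := (Indep_iff _ _ _).1 hind (E1 ξ a M m) (E2 ξ a M m)
    (meas_E1 a M m (fun i => rfl)) (meas_E2 a M m (fun n i h => h))
  rw [Good, h, prob_E1 hi hd]
  gcongr
  exact prob_E2 hm hi hr a m hM

theorem prob_tail (hm : ∀ n i, Measurable (ξ n i))
    (hi : iIndepFun (fun p : ℕ × ℤ => ξ p.1 p.2) P)
    (hd : ∀ n i, P {ω | ξ n i ω = true} = d) (hd0 : d ≠ 0)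
    (hr : ∀ n i, P {ω | ξ n i ω = false} = r) (a : ℤ) {M : ℕ}
    (hM : ∑' k : ℕ, r ^ ((k + (M + 1)) / 3) < 1 / 2) :
    P (⋃ m, Good ξ a M m) = 1 := by
  set A : ℕ → Set Ω := fun K => ⋃ j : ℕ, Good ξ a M (K + j) with hA
  have hanti : Antitone A := by
    intro K K' hK ω hω
    simp only [hA, Set.mem_iUnion] at hω ⊢
    obtain ⟨j, hj⟩ := hω
    refine ⟨K' - K + j, ?_⟩
    have e : K + (K' - K + j) = K' + j := by omega
    rw [e]
    exact hj
  have hAm : ∀ K, MeasurableSet[Fut ξ {q | K ≤ q.1}] (A K) := by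
    intro K
    apply MeasurableSet.iUnion
    intro j
    exact meas_good a M (K + j) (fun n i hn => by simp only [Set.mem_setOf_eq]; omega)
  have hT : ∀ K, MeasurableSet[Fut ξ {q | K ≤ q.1}] (⋂ K', A K') := by
    intro K
    have e : (⋂ K', A K') = ⋂ K', A (K + K') := by
      apply Set.Subset.antisymm
      · intro ω hω
        rw [Set.mem_iInter] at hω ⊢
        exact fun K' => hω _
      · intro ω hω
        rw [Set.mem_iInter] at hω ⊢
        exact fun K' => hanti (by omega : K' ≤ K + K') (hω K')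
    rw [e]
    apply MeasurableSet.iInter
    intro K'
    exact fut_mono (fun q hq => by simp only [Set.mem_setOf_eq] at hq ⊢; omega) _ (hAm (K + K'))
  have h01 : P (⋂ K', A K') = 0 ∨ P (⋂ K', A K') = 1 := by
    apply measure_zero_or_one_of_measurableSet_limsup
      (s := fun q : ℕ × ℤ => MeasurableSpace.comap (ξ q.1 q.2) (inferInstance : MeasurableSpace Bool))
      (f := Filter.comap Prod.fst atTop) (p := fun S => ∃ K, ∀ q ∈ S, q.1 < K)
      (ns := fun K : ℕ => {q : ℕ × ℤ | q.1 < K})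
      (fun q => (hm q.1 q.2).comap_le) hi
    · rintro S ⟨K, hK⟩
      rw [Filter.mem_comap]
      refine ⟨Set.Ici K, Ici_mem_atTop K, ?_⟩
      intro q hq hqS
      have := hK q hqS
      simp only [Set.mem_preimage, Set.mem_Ici] at hq
      omega
    · intro K K'
      refine ⟨max K K', ?_, ?_⟩
      · intro q hq
        simp only [Set.mem_setOf_eq] at hq ⊢
        omega
      · intro q hq
        simp only [Set.mem_setOf_eq] at hq ⊢
        omega
    · intro K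
      exact ⟨K, fun q hq => hq⟩
    · intro q
      exact ⟨q.1 + 1, Nat.lt_succ_self _⟩
    · rw [limsup_eq, MeasurableSpace.measurableSet_sInf]
      intro a' ha'
      rw [Set.mem_setOf_eq, Filter.eventually_comap, Filter.eventually_atTop] at ha'
      obtain ⟨K, hK⟩ := ha'
      have hle : Fut ξ {q | K ≤ q.1} ≤ a' := iSup₂_le fun q hq => hK q.1 hq q rfl
      exact hle _ (hT K)
  have hpos : d ^ (M + 3) * (1 / 2) ≤ P (⋂ K', A K') := by
    have hlim := tendsto_measure_iInter_atTop (μ := P)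
      (fun K => (fut_le hm _ _ (hAm K)).nullMeasurableSet) hanti ⟨0, measure_ne_top _ _⟩
    refine ge_of_tendsto' hlim (fun K => ?_)
    refine (prob_good hm hi hd hr a K hM).trans (measure_mono ?_)
    intro ω hω
    simp only [hA, Set.mem_iUnion]
    exact ⟨0, by simpa using hω⟩
  have hpos' : (0 : ℝ≥0∞) < d ^ (M + 3) * (1 / 2) :=
    ENNReal.mul_pos (pow_ne_zero _ hd0) (by norm_num)
  have h1 : P (⋂ K', A K') = 1 := by
    rcases h01 with h | h
    · rw [h] at hpos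
      exact absurd (lt_of_lt_of_le hpos' hpos) (lt_irrefl _)
    · exact h
  apply le_antisymm prob_le_one
  rw [← h1]
  apply measure_mono
  intro ω hω
  rw [Set.mem_iInter] at hω
  have := hω 0
  simp only [hA, Set.mem_iUnion, zero_add] at this ⊢
  exact this

theorem main {δ : ℝ} (hδ : 0 < δ) 
    (hm : ∀ n i, Measurable (ξ n i))
    (hi : iIndepFun (fun p : ℕ × ℤ => ξ p.1 p.2) P)
    (hd : ∀ n i, P {ω | ξ n i ω = true} = ENNReal.ofReal δ)
    {X : ℕ → Ω → ℤ → Bool}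
    (hX : ∀ n ω i, X (n+1) ω i =
      (((X n ω i && (X n ω (i+1) || X n ω (i+3))) ||
        (!X n ω i && X n ω (i-1) && X n ω (i-3))) || ξ n i ω)) (a : ℤ) :
    Tendsto (fun n => P {ω | X n ω a = false}) atTop (𝓝 0) := by
  have hd0 : ENNReal.ofReal δ ≠ 0 := by
    rw [Ne, ENNReal.ofReal_eq_zero, not_le]
    exact hδ
  have hr : ∀ n i, P {ω | ξ n i ω = false} = 1 - ENNReal.ofReal δ := by
    intro n i
    have h1 : MeasurableSet {ω | ξ n i ω = true} := (hm n i) (MeasurableSet.singleton true)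
    have h2 : {ω | ξ n i ω = false} = {ω | ξ n i ω = true}ᶜ := by
      ext ω
      simp
    rw [h2, prob_compl_eq_one_sub h1, hd]
  have hr1 : (1 - ENNReal.ofReal δ) < 1 := ENNReal.sub_lt_self (by norm_num) (by norm_num) hd0
  obtain ⟨M, hM⟩ := exists_M hr1
  have h1 := prob_tail hm hi hd hd0 hr a hM
  have hGm : ∀ m, MeasurableSet (Good ξ a M m) := fun m =>
    fut_le hm _ _ (meas_good a M m (S := Set.univ) (fun _ _ _ => Set.mem_univ _))
  have hacc : Tendsto (fun n => P (Set.accumulate (fun m => Good ξ a M m) n)) atTop (𝓝 1) := by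
    rw [← h1]
    exact tendsto_measure_iUnion_accumulate
  have hacc' : Tendsto (fun n => 1 - P (Set.accumulate (fun m => Good ξ a M m) n)) atTop (𝓝 0) := by
    have := ENNReal.Tendsto.sub (tendsto_const_nhds (x := (1 : ℝ≥0∞))) hacc (Or.inl (by norm_num))
    simpa using this
  rw [← tendsto_add_atTop_iff_nat 1]
  refine tendsto_of_tendsto_of_tendsto_of_le_of_le tendsto_const_nhds hacc'
    (fun n => zero_le) (fun n => ?_)
  have hmeas : MeasurableSet (Set.accumulate (fun m => Good ξ a M m) n) := by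
    rw [Set.accumulate_def]
    exact MeasurableSet.iUnion fun m => MeasurableSet.iUnion fun _ => hGm m
  show P {ω | X (n + 1) ω a = false} ≤ _
  rw [← prob_compl_eq_one_sub hmeas]
  apply measure_mono
  intro ω hω hacc
  rw [Set.mem_accumulate] at hacc
  obtain ⟨m, hmn, hg⟩ := hacc
  have := good_survive hX hg (n - m)
  have e : m + 1 + (n - m) = n + 1 := by omega
  rw [e] at this
  rw [Set.mem_setOf_eq, this] at hω
  cases hω

end prob

end Pool.Agent.H443R3.SoldiersProb
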